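import Mathlib
import Pool.Agent.Q1.M6a.WClosed
import Pool.Agent.Q1.M6b.Wall2
import Pool.Agent.H30.Mid.Row

set_option autoImplicit false
open Finset

/-! # The exact identity at one tile

Two weights `q`, `q'` which differ at one label `e0` only: the difference of the two expectations is
`q' e0 - q e0` times the difference of the values with `e0` open and closed (`Ec_tile`). If
`q = q0 + dq` and `q' = q` except `q' e0 = q0 e0` (frozen), then the difference is the sum over the sets of
coupons which contain `e0` (`Ec_coupon`). `track_id`: a family of environments (the positions of the line);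
the exchanges do not change the increment at the outer corner `c0`, the tile of the line in the row of the
string is natural up to the position `i0` and frozen from this position on. -/

namespace Pool.Agent.H85.W

open Pool.Agent.H75.Perc hiding AR VV
open Pool.Agent.H75.TwoArm Pool.Agent.Q1 Pool.Agent.H81.G1
open Pool.Agent.Q1.M6b.Gd Pool.Agent.H30.Mid

section alg

variable {α : Type*} [DecidableEq α]

/-- `q` with the value `z` at `e0` -/
def upd (q : α → ℂ) (e0 : α) (z : ℂ) (e : α) : ℂ := if e = e0 then z else q e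

@[simp] lemma upd_self (q : α → ℂ) (e0 : α) (z : ℂ) : upd q e0 z e0 = z := if_pos rfl

lemma upd_ne (q : α → ℂ) {e0 e : α} (z : ℂ) (h : e ≠ e0) : upd q e0 z e = q e := if_neg h

/-- the expectation as an affine function of the weight of one label -/
lemma Ec_erase (q : α → ℂ) {E : Finset α} {e0 : α} (he : e0 ∈ E) (F : Finset α → ℂ) :
    Ec q E F = (1 - q e0) * Ec q (E.erase e0) F +
      q e0 * Ec q (E.erase e0) (fun ω => F (insert e0 ω)) := by
  conv_lhs => rw [← insert_erase he]
  exact Ec_insert q (notMem_erase e0 E) F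

lemma Ec_upd (q : α → ℂ) {E : Finset α} {e0 : α} (he : e0 ∈ E) (z : ℂ) (F : Finset α → ℂ) :
    Ec (upd q e0 z) E F = (1 - z) * Ec q (E.erase e0) F +
      z * Ec q (E.erase e0) (fun ω => F (insert e0 ω)) := by
  have h : ∀ G : Finset α → ℂ, Ec (upd q e0 z) (E.erase e0) G = Ec q (E.erase e0) G := fun G =>
    Ec_congr_q (fun e h => upd_ne q z (ne_of_mem_erase h)) G
  rw [Ec_erase _ he, h, h, upd_self]

/-- **One tile.** -/
theorem Ec_tile {q q' : α → ℂ} {E : Finset α} {e0 : α} (he : e0 ∈ E)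
    (h : ∀ e ∈ E, e ≠ e0 → q' e = q e) (F : Finset α → ℂ) :
    Ec q' E F - Ec q E F = (q' e0 - q e0) * (Ec (upd q e0 1) E F - Ec (upd q e0 0) E F) := by
  have h1 : Ec q' E F = Ec (upd q e0 (q' e0)) E F := by
    refine Ec_congr_q (fun e h2 => ?_) F
    by_cases h3 : e = e0
    · rw [h3, upd_self]
    · rw [upd_ne q _ h3, h e h2 h3]
  rw [h1, Ec_upd q he, Ec_upd q he, Ec_upd q he, Ec_erase q he]
  ring

/-- **One frozen tile, sum over the coupons.** `A` is the set of labels of the line. -/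
theorem Ec_coupon (q0 dq : α → ℂ) (A : Finset α) (e0 : α) (F : Finset α → ℂ) :
    Ec (fun e => q0 e + dq e) A F - Ec (upd (fun e => q0 e + dq e) e0 (q0 e0)) A F =
      ∑ w ∈ A.powerset with e0 ∈ w, (∏ e ∈ w, dq e) *
        Ec q0 (A \ w) (fun ω => alt w (fun T => F (ω ∪ T))) := by
  have h1 : Ec (upd (fun e => q0 e + dq e) e0 (q0 e0)) A F =
      Ec (fun e => q0 e + upd dq e0 0 e) A F := by
    refine Ec_congr_q (fun e _ => ?_) F
    by_cases h3 : e = e0
    · rw [h3, upd_self, upd_self, add_zero]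
    · rw [upd_ne _ _ h3, upd_ne _ _ h3]
  rw [h1, Ec_expand, Ec_expand, ← sum_sub_distrib, sum_filter]
  refine sum_congr rfl fun w _ => ?_
  by_cases h4 : e0 ∈ w
  · rw [if_pos h4, prod_eq_zero h4 (upd_self dq e0 0)]
    ring
  · have h7 : ∏ e ∈ w, upd dq e0 0 e = ∏ e ∈ w, dq e :=
      prod_congr rfl fun e h5 => upd_ne dq (0 : ℂ) fun h6 => h4 (by rw [← h6]; exact h5)
    rw [if_neg h4, h7]
    ring

end alg

/-! ### Environments -/

section env

variable {X : Env} {q q' : ℤ × ℤ → ℂ} {e0 : ℤ × ℤ}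

/-- the coupon at the tile `e0`: open minus closed -/
noncomputable def Gz (X : Env) (q : ℤ × ℤ → ℂ) (e0 c : ℤ × ℤ) : ℂ :=
  X.incW (upd q e0 1) c - X.incW (upd q e0 0) c

/-- **One tile**, increments of an environment. -/
theorem incW_tile (he : e0 ∈ X.E) (h : ∀ e ∈ X.E, e ≠ e0 → q' e = q e) (c : ℤ × ℤ) :
    X.incW q' c - X.incW q c = (q' e0 - q e0) * Gz X q e0 c :=
  Ec_tile he h _

/-- the coupon does not depend on the weight of its tile -/
theorem Gz_congr (h : ∀ e ∈ X.E, e ≠ e0 → q' e = q e) (c : ℤ × ℤ) : Gz X q' e0 c = Gz X q e0 c := by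
  have h1 : ∀ z : ℂ, X.incW (upd q' e0 z) c = X.incW (upd q e0 z) c := fun z =>
    Ec_congr_q (fun e he => by
      by_cases h3 : e = e0
      · rw [h3, upd_self, upd_self]
      · rw [upd_ne _ _ h3, upd_ne _ _ h3, h e he h3]) _
  unfold Gz
  rw [h1, h1]

/-- induction over an interval of positions -/
theorem ind_pos {F : ℤ → ℂ} {i k : ℤ} (h : i ≤ k) (hs : ∀ j, i ≤ j → j < k → F (j + 1) = F j) :
    F k = F i := by
  obtain ⟨n, hn⟩ := Int.eq_ofNat_of_zero_le (show 0 ≤ k - i by omega)
  have : ∀ m : ℕ, m ≤ n → F (i + m) = F i := by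
    intro m
    induction m with
    | zero => intro _; simp
    | succ m ih =>
      intro hm
      have h1 := hs (i + m) (by omega) (by omega)
      rw [ih (by omega), add_assoc] at h1
      exact_mod_cast h1
  have h2 := this n le_rfl
  rwa [← hn, add_sub_cancel] at h2

/-- **The exact identity of the line.** `Y i`, `qn i` : the environment with the line in the position `i` and the
weights with the natural tile, `qf i` : with the frozen tile in the row of the string. -/
theorem track_id {Y : ℤ → Env} {qn qf : ℤ → ℤ × ℤ → ℂ} {c e0 : ℤ × ℤ} {l i0 r : ℤ}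
    (hl : l ≤ i0) (hr : i0 ≤ r)
    (hn : ∀ i, l ≤ i → i < i0 → (Y (i + 1)).incW (qn (i + 1)) c = (Y i).incW (qn i) c)
    (hf : ∀ i, i0 ≤ i → i < r → (Y (i + 1)).incW (qf (i + 1)) c = (Y i).incW (qf i) c)
    (he : e0 ∈ (Y i0).E) (h : ∀ e ∈ (Y i0).E, e ≠ e0 → qn i0 e = qf i0 e) :
    (Y l).incW (qn l) c - (Y r).incW (qf r) c = (qn i0 e0 - qf i0 e0) * Gz (Y i0) (qf i0) e0 c := by
  rw [ind_pos (F := fun i => (Y i).incW (qf i) c) hr hf,
    ← ind_pos (F := fun i => (Y i).incW (qn i) c) hl hn]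
  exact incW_tile he h c

/-- **One frozen tile of a line, sum over the coupons**: `A` the labels of the line, `q = q0 + dq`. -/
theorem incW_coupon {A : Finset (ℤ × ℤ)} (hA : A ⊆ X.E) (he : e0 ∈ A) {q0 dq : ℤ × ℤ → ℂ}
    (hq : ∀ e ∈ A, q e = q0 e + dq e) (hq' : q' e0 = q0 e0)
    (h : ∀ e ∈ X.E, e ≠ e0 → q' e = q e) (c : ℤ × ℤ) :
    X.incW q c - X.incW q' c = ∑ w ∈ A.powerset with e0 ∈ w, (∏ e ∈ w, dq e) *
      Ec q (X.E \ A) (fun η => Ec q0 (A \ w) (fun ω => alt w (fun T => X.incO (η ∪ (ω ∪ T)) c))) := by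
  unfold Env.incW
  have e1 : Ec q X.E (fun ω => X.incO ω c) = Ec q (X.E \ A) (fun η =>
      Ec (fun e => q0 e + dq e) A (fun ω => X.incO (η ∪ ω) c)) := by
    rw [Ec_split q hA, Ec_swap]
    refine Ec_congr fun η _ => ?_
    rw [Ec_congr_q hq]
    exact Ec_congr fun ω _ => by rw [union_comm]
  have e2 : Ec q' X.E (fun ω => X.incO ω c) = Ec q (X.E \ A) (fun η =>
      Ec (upd (fun e => q0 e + dq e) e0 (q0 e0)) A (fun ω => X.incO (η ∪ ω) c)) := by
    rw [Ec_split q' hA, Ec_swap]
    rw [Ec_congr_q (q := q') (q' := q) (fun e h1 => h e (mem_sdiff.1 h1).1 (fun h2 =>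
      (mem_sdiff.1 h1).2 (h2 ▸ he)))]
    refine Ec_congr fun η _ => ?_
    rw [Ec_congr_q (q := q') (q' := upd (fun e => q0 e + dq e) e0 (q0 e0)) (fun e h1 => by
      by_cases h3 : e = e0
      · rw [h3, upd_self, hq']
      · rw [upd_ne _ _ h3, h e (hA h1) h3, hq e h1])]
    exact Ec_congr fun ω _ => by rw [union_comm]
  rw [e1, e2, ← Ec_sub]
  have e3 : ∀ η : Finset (ℤ × ℤ), η ⊆ X.E \ A →
      Ec (fun e => q0 e + dq e) A (fun ω => X.incO (η ∪ ω) c) -
        Ec (upd (fun e => q0 e + dq e) e0 (q0 e0)) A (fun ω => X.incO (η ∪ ω) c) =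
      ∑ w ∈ A.powerset with e0 ∈ w, (∏ e ∈ w, dq e) *
        Ec q0 (A \ w) (fun ω => alt w (fun T => X.incO (η ∪ (ω ∪ T)) c)) :=
    fun η _ => Ec_coupon q0 dq A e0 (fun ω => X.incO (η ∪ ω) c)
  rw [Ec_congr e3, Ec_sum]
  exact sum_congr rfl fun w _ => Ec_smul _ _ _ _

end env

/-! ### The form for a row -/

section row

variable {N : ℕ} {X : Env} {x0 y0 : ℤ}

/-- **A frozen tile in the column `k`**: the difference of the amplitudes is the sum over the sets of coupons
which contain `k`. -/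
theorem AR_frozen (X : Env) (x0 y0 : ℤ) (y : Fin N × Dir) (a b κ : ℂ) (k : Fin N)
    (ω : Finset (ℤ × ℤ)) :
    AR X x0 y0 y (fun _ => a + κ) (fun _ => b - κ) ω -
      AR X x0 y0 y (fun i => if i = k then a else a + κ) (fun i => if i = k then b else b - κ) ω =
      ∑ S : Finset (Fin N) with k ∈ S, κ ^ S.card * AR X x0 y0 y (cA S a) (cB S b) ω := by
  have h := coupons (N := N) (fun _ => a) (fun _ => b) (fun i => if i = k then 0 else κ)
    (fun s => (X.freeze (RS N x0 y0) ω).incO (osn (rl x0 y0) (rp x0 y0) s) (rcr x0 y0 y))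
  have h1 : AR X x0 y0 y (fun i => if i = k then a else a + κ) (fun i => if i = k then b else b - κ) ω =
      ∑ S : Finset (Fin N), (∏ i ∈ S, if i = k then 0 else κ) *
        AR X x0 y0 y (cA S a) (cB S b) ω := by
    unfold AR
    have e1 : ∀ (s : Fin N → Bool) (i : Fin N),
        (if s i then (if i = k then b else b - κ) else if i = k then a else a + κ) =
        if s i then b - (if i = k then 0 else κ) else a + (if i = k then 0 else κ) := by
      intro s i
      by_cases h2 : i = k <;> simp [h2]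
    simp only [e1]
    rw [h]
    rfl
  rw [h1, AR_coupons, ← sum_sub_distrib, sum_filter]
  refine sum_congr rfl fun S _ => ?_
  by_cases h2 : k ∈ S
  · have h3 : ∏ i ∈ S, (if i = k then 0 else κ) = 0 := prod_eq_zero h2 (if_pos rfl)
    rw [if_pos h2, h3]
    ring
  · have h3 : ∏ i ∈ S, (if i = k then 0 else κ) = κ ^ S.card := by
      rw [← prod_const]
      exact prod_congr rfl fun i h4 => if_neg fun h5 => h2 (by rw [← h5]; exact h4)
    rw [if_neg h2, h3]
    ring

end row

end Pool.Agent.H85.W
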