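import Mathlib
import Pool.Agent.H74.R45.Geo

set_option autoImplicit false
open Finset

/-! # Strands in solid regions and along interfaces

Tile frame of `H74/R45/Geo.lean`. At a grid point `p` the four sides are `sd p 0` (E), `sd p 1` (N),
`sd p 2` (W), `sd p 3` (S), the four tiles `tl p 0` (NE), `tl p 1` (NW), `tl p 2` (SW), `tl p 3` (SE).
`Fw w S c c'` : the strand of the configuration `w` goes from the corner `c` to the corner `c'`, all the
tiles which it passes belong to `S`. Closed tiles turn the strand counterclockwise around the points with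
`x + y` even (`Fw.ccw`), open tiles turn it clockwise around the points with `x + y` odd (`Fw.cw`). Hence an
interface is followed with the open side on the left (`Fw.loc`): `goE`, `goN`, `goW`, `goS` (straight),
`tEN` etc. (turns), `runE`, `runN`, `runW`, `runS` (segments). -/

namespace Pool.Agent.H85.W

open Pool.Agent.H75.Perc Pool.Agent.H75.TwoArm Pool.Agent.H33.Q1
open Pool.Agent.H74.R45

/-- the strand goes from `c` to `c'`, all tiles it passes are in `S` -/
def Fw (w : Finset (ℤ × ℤ)) (S : Set (ℤ × ℤ)) (c c' : ℤ × ℤ) : Prop :=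
  ∃ n : ℕ, (nx w)^[n] c = c' ∧ ∀ i < n, lab ((nx w)^[i] c) ∈ S

variable {w : Finset (ℤ × ℤ)} {S S' : Set (ℤ × ℤ)} {c c' c'' : ℤ × ℤ}

namespace Fw

lemma refl (w : Finset (ℤ × ℤ)) (S : Set (ℤ × ℤ)) (c : ℤ × ℤ) : Fw w S c c :=
  ⟨0, rfl, fun i hi => absurd hi (Nat.not_lt_zero i)⟩

lemma one (h : lab c ∈ S) (h' : nx w c = c') : Fw w S c c' := by
  refine ⟨1, h', fun i hi => ?_⟩
  have : i = 0 := by omega
  rw [this]; exact h

lemma trans (h : Fw w S c c') (h' : Fw w S c' c'') : Fw w S c c'' := by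
  obtain ⟨n, h1, h2⟩ := h
  obtain ⟨m, g1, g2⟩ := h'
  refine ⟨m + n, ?_, fun i hi => ?_⟩
  · rw [Function.iterate_add_apply, h1, g1]
  · rcases Nat.lt_or_ge i n with h3 | h3
    · exact h2 i h3
    · obtain ⟨k, rfl⟩ := Nat.exists_eq_add_of_le h3
      rw [Nat.add_comm n k, Function.iterate_add_apply, h1]
      exact g2 k (by omega)

lemma mono (h : Fw w S c c') (hS : S ⊆ S') : Fw w S' c c' := by
  obtain ⟨n, h1, h2⟩ := h
  exact ⟨n, h1, fun i hi => hS (h2 i hi)⟩

/-- the step through a closed tile -/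
lemma clo (h : lab c ∈ S) (hw : lab c ∉ w) : Fw w S c (nxC c) :=
  one h (nx_closed hw).1

/-- the step through an open tile -/
lemma opn (h : lab c ∈ S) (hw : lab c ∈ w) : Fw w S c (nxO c) :=
  one h (nx_open hw).1

/-- only the tiles of `S` matter -/
lemma congr {w' : Finset (ℤ × ℤ)} (h : Fw w S c c') (hw : ∀ e ∈ S, e ∈ w ↔ e ∈ w') :
    Fw w' S c c' := by
  obtain ⟨n, h1, h2⟩ := h
  have key : ∀ i, i ≤ n → (nx w')^[i] c = (nx w)^[i] c := by
    intro i
    induction i with
    | zero => intro _; rfl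
    | succ i ih =>
      intro hi
      rw [Function.iterate_succ_apply', Function.iterate_succ_apply', ih (by omega)]
      have h3 := hw _ (h2 i (by omega))
      by_cases h4 : lab ((nx w)^[i] c) ∈ w
      · rw [(nx_open (h3.1 h4)).1, (nx_open h4).1]
      · rw [(nx_closed fun h5 => h4 (h3.2 h5)).1, (nx_closed h4).1]
  exact ⟨n, by rw [key n le_rfl, h1], fun i hi => by rw [key i hi.le]; exact h2 i hi⟩

end Fw

/-! ### The sides and the tiles at a point -/

/-- sides at the point `p`: E, N, W, S -/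
def sd (p : ℤ × ℤ) (k : ℕ) : ℤ × ℤ :=
  if k % 4 = 0 then he p else if k % 4 = 1 then ve p else if k % 4 = 2 then he (p.1 - 1, p.2)
  else ve (p.1, p.2 - 1)

/-- labels of the tiles at the point `p`: NE, NW, SW, SE -/
def tl (p : ℤ × ℤ) (k : ℕ) : ℤ × ℤ :=
  if k % 4 = 0 then lt p else if k % 4 = 1 then lt (p.1 - 1, p.2)
  else if k % 4 = 2 then lt (p.1 - 1, p.2 - 1) else lt (p.1, p.2 - 1)

lemma sd_congr (p : ℤ × ℤ) {k l : ℕ} (h : k % 4 = l % 4) : sd p k = sd p l := by
  unfold sd; rw [h]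

lemma tl_congr (p : ℤ × ℤ) {k l : ℕ} (h : k % 4 = l % 4) : tl p k = tl p l := by
  unfold tl; rw [h]

lemma sd_even {p : ℤ × ℤ} (hp : (p.1 + p.2) % 2 = 0) (k : ℕ) :
    lab (sd p k) = tl p k ∧ nxC (sd p k) = sd p (k + 1) := by
  obtain ⟨x, y⟩ := p
  simp only at hp
  have hk : k % 4 = 0 ∨ k % 4 = 1 ∨ k % 4 = 2 ∨ k % 4 = 3 := by omega
  rcases hk with h | h | h | h
  · have h' : (k + 1) % 4 = 1 := by omega
    rw [sd_congr _ (show k % 4 = 0 % 4 by omega), sd_congr _ (show (k + 1) % 4 = 1 % 4 by omega),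
      tl_congr _ (show k % 4 = 0 % 4 by omega)]
    exact ⟨lab_he_N hp, nxC_he_N hp⟩
  · rw [sd_congr _ (show k % 4 = 1 % 4 by omega), sd_congr _ (show (k + 1) % 4 = 2 % 4 by omega),
      tl_congr _ (show k % 4 = 1 % 4 by omega)]
    exact ⟨lab_ve_W hp, nxC_ve_W hp⟩
  · rw [sd_congr _ (show k % 4 = 2 % 4 by omega), sd_congr _ (show (k + 1) % 4 = 3 % 4 by omega),
      tl_congr _ (show k % 4 = 2 % 4 by omega)]
    have h1 : (x - 1 + y) % 2 = 1 := by omega
    refine ⟨lab_he_S h1, ?_⟩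
    have := nxC_he_S h1
    rw [sub_add_cancel] at this
    exact this
  · rw [sd_congr _ (show k % 4 = 3 % 4 by omega), sd_congr _ (show (k + 1) % 4 = 0 % 4 by omega),
      tl_congr _ (show k % 4 = 3 % 4 by omega)]
    have h1 : (x + (y - 1)) % 2 = 1 := by omega
    refine ⟨lab_ve_E h1, ?_⟩
    have := nxC_ve_E h1
    rw [sub_add_cancel] at this
    exact this

lemma sd_odd {p : ℤ × ℤ} (hp : (p.1 + p.2) % 2 = 1) (k : ℕ) :
    lab (sd p (k + 1)) = tl p k ∧ nxO (sd p (k + 1)) = sd p k := by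
  obtain ⟨x, y⟩ := p
  simp only at hp
  have hk : k % 4 = 0 ∨ k % 4 = 1 ∨ k % 4 = 2 ∨ k % 4 = 3 := by omega
  rcases hk with h | h | h | h
  · rw [sd_congr _ (show k % 4 = 0 % 4 by omega), sd_congr _ (show (k + 1) % 4 = 1 % 4 by omega),
      tl_congr _ (show k % 4 = 0 % 4 by omega)]
    exact ⟨lab_ve_E hp, nxO_ve_E hp⟩
  · rw [sd_congr _ (show k % 4 = 1 % 4 by omega), sd_congr _ (show (k + 1) % 4 = 2 % 4 by omega),
      tl_congr _ (show k % 4 = 1 % 4 by omega)]
    have h1 : (x - 1 + y) % 2 = 0 := by omega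
    refine ⟨lab_he_N h1, ?_⟩
    have := nxO_he_N h1
    rw [sub_add_cancel] at this
    exact this
  · rw [sd_congr _ (show k % 4 = 2 % 4 by omega), sd_congr _ (show (k + 1) % 4 = 3 % 4 by omega),
      tl_congr _ (show k % 4 = 2 % 4 by omega)]
    have h1 : (x + (y - 1)) % 2 = 0 := by omega
    refine ⟨lab_ve_W h1, ?_⟩
    have := nxO_ve_W h1
    rw [sub_add_cancel] at this
    exact this
  · rw [sd_congr _ (show k % 4 = 3 % 4 by omega), sd_congr _ (show (k + 1) % 4 = 0 % 4 by omega),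
      tl_congr _ (show k % 4 = 3 % 4 by omega)]
    exact ⟨lab_he_S hp, nxO_he_S hp⟩

namespace Fw

/-- closed tiles around an even point -/
theorem ccw {p : ℤ × ℤ} (hp : (p.1 + p.2) % 2 = 0) {k m : ℕ}
    (h : ∀ j < m, tl p (k + j) ∉ w ∧ tl p (k + j) ∈ S) : Fw w S (sd p k) (sd p (k + m)) := by
  induction m with
  | zero => exact refl _ _ _
  | succ m ih =>
    refine (ih fun j hj => h j (by omega)).trans ?_
    obtain ⟨h1, h2⟩ := sd_even hp (k + m)
    obtain ⟨h3, h4⟩ := h m (by omega)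
    rw [← h1] at h3 h4
    have h5 := clo h4 h3
    rw [h2] at h5
    exact h5

/-- open tiles around an odd point -/
theorem cw {p : ℤ × ℤ} (hp : (p.1 + p.2) % 2 = 1) {k m : ℕ}
    (h : ∀ j < m, tl p (k + j) ∈ w ∧ tl p (k + j) ∈ S) : Fw w S (sd p (k + m)) (sd p k) := by
  induction m with
  | zero => exact refl _ _ _
  | succ m ih =>
    refine Fw.trans ?_ (ih fun j hj => h j (by omega))
    obtain ⟨h1, h2⟩ := sd_odd hp (k + m)
    obtain ⟨h3, h4⟩ := h m (by omega)
    rw [← h1] at h3 h4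
    have h5 := opn h4 h3
    rw [h2] at h5
    exact h5

/-- **An interface at a point**: the tiles `k, …, k + m - 1` are closed, the other ones are open. -/
theorem loc (p : ℤ × ℤ) {k m : ℕ} (hm : m ≤ 4) (hS : ∀ j < 4, tl p (k + j) ∈ S)
    (hw : ∀ j < m, tl p (k + j) ∉ w) (hb : ∀ j, m ≤ j → j < 4 → tl p (k + j) ∈ w) :
    Fw w S (sd p k) (sd p (k + m)) := by
  rcases Int.emod_two_eq_zero_or_one (p.1 + p.2) with hp | hp
  · exact ccw hp fun j hj => ⟨hw j hj, hS j (by omega)⟩
  · have h := cw (w := w) (S := S) hp (k := k + m) (m := 4 - m) fun j hj => by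
      rw [Nat.add_assoc]
      exact ⟨hb (m + j) (by omega) (by omega), hS (m + j) (by omega)⟩
    rwa [sd_congr p (show (k + m + (4 - m)) % 4 = k % 4 by omega)] at h

end Fw

/-! ### Explicit forms -/

section go

variable {x y : ℤ}

/-- the tile `(x, y)` may be used and is open -/
def Bt (w : Finset (ℤ × ℤ)) (S : Set (ℤ × ℤ)) (x y : ℤ) : Prop := lt (x, y) ∈ w ∧ lt (x, y) ∈ S

/-- the tile `(x, y)` may be used and is closed -/
def Wt (w : Finset (ℤ × ℤ)) (S : Set (ℤ × ℤ)) (x y : ℤ) : Prop := lt (x, y) ∉ w ∧ lt (x, y) ∈ S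

/-- to the east -/
theorem goE (h0 : Bt w S x y) (h1 : Bt w S (x - 1) y) (h2 : Wt w S (x - 1) (y - 1))
    (h3 : Wt w S x (y - 1)) : Fw w S (he (x - 1, y)) (he (x, y)) :=
  Fw.loc (x, y) (k := 2) (m := 2) (by omega)
    (fun j hj => by interval_cases j; exacts [h2.2, h3.2, h0.2, h1.2])
    (fun j hj => by interval_cases j; exacts [h2.1, h3.1])
    (fun j hj hj' => by interval_cases j; exacts [h0.1, h1.1])

/-- to the west -/
theorem goW (h0 : Wt w S x y) (h1 : Wt w S (x - 1) y) (h2 : Bt w S (x - 1) (y - 1))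
    (h3 : Bt w S x (y - 1)) : Fw w S (he (x, y)) (he (x - 1, y)) :=
  Fw.loc (x, y) (k := 0) (m := 2) (by omega)
    (fun j hj => by interval_cases j; exacts [h0.2, h1.2, h2.2, h3.2])
    (fun j hj => by interval_cases j; exacts [h0.1, h1.1])
    (fun j hj hj' => by interval_cases j; exacts [h2.1, h3.1])

/-- to the north -/
theorem goN (h0 : Wt w S x y) (h1 : Bt w S (x - 1) y) (h2 : Bt w S (x - 1) (y - 1))
    (h3 : Wt w S x (y - 1)) : Fw w S (ve (x, y - 1)) (ve (x, y)) :=
  Fw.loc (x, y) (k := 3) (m := 2) (by omega)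
    (fun j hj => by interval_cases j; exacts [h3.2, h0.2, h1.2, h2.2])
    (fun j hj => by interval_cases j; exacts [h3.1, h0.1])
    (fun j hj hj' => by interval_cases j; exacts [h1.1, h2.1])

/-- to the south -/
theorem goS (h0 : Bt w S x y) (h1 : Wt w S (x - 1) y) (h2 : Wt w S (x - 1) (y - 1))
    (h3 : Bt w S x (y - 1)) : Fw w S (ve (x, y)) (ve (x, y - 1)) :=
  Fw.loc (x, y) (k := 1) (m := 2) (by omega)
    (fun j hj => by interval_cases j; exacts [h1.2, h2.2, h3.2, h0.2])
    (fun j hj => by interval_cases j; exacts [h1.1, h2.1])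
    (fun j hj hj' => by interval_cases j; exacts [h3.1, h0.1])

/-- from east to north (left turn) -/
theorem tEN (h0 : Wt w S x y) (h1 : Bt w S (x - 1) y) (h2 : Wt w S (x - 1) (y - 1))
    (h3 : Wt w S x (y - 1)) : Fw w S (he (x - 1, y)) (ve (x, y)) :=
  Fw.loc (x, y) (k := 2) (m := 3) (by omega)
    (fun j hj => by interval_cases j; exacts [h2.2, h3.2, h0.2, h1.2])
    (fun j hj => by interval_cases j; exacts [h2.1, h3.1, h0.1])
    (fun j hj hj' => by interval_cases j; exacts [h1.1])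

/-- from north to west (left turn) -/
theorem tNW (h0 : Wt w S x y) (h1 : Wt w S (x - 1) y) (h2 : Bt w S (x - 1) (y - 1))
    (h3 : Wt w S x (y - 1)) : Fw w S (ve (x, y - 1)) (he (x - 1, y)) :=
  Fw.loc (x, y) (k := 3) (m := 3) (by omega)
    (fun j hj => by interval_cases j; exacts [h3.2, h0.2, h1.2, h2.2])
    (fun j hj => by interval_cases j; exacts [h3.1, h0.1, h1.1])
    (fun j hj hj' => by interval_cases j; exacts [h2.1])

/-- from west to south (left turn) -/
theorem tWS (h0 : Wt w S x y) (h1 : Wt w S (x - 1) y) (h2 : Wt w S (x - 1) (y - 1))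
    (h3 : Bt w S x (y - 1)) : Fw w S (he (x, y)) (ve (x, y - 1)) :=
  Fw.loc (x, y) (k := 0) (m := 3) (by omega)
    (fun j hj => by interval_cases j; exacts [h0.2, h1.2, h2.2, h3.2])
    (fun j hj => by interval_cases j; exacts [h0.1, h1.1, h2.1])
    (fun j hj hj' => by interval_cases j; exacts [h3.1])

/-- from south to east (left turn) -/
theorem tSE (h0 : Bt w S x y) (h1 : Wt w S (x - 1) y) (h2 : Wt w S (x - 1) (y - 1))
    (h3 : Wt w S x (y - 1)) : Fw w S (ve (x, y)) (he (x, y)) :=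
  Fw.loc (x, y) (k := 1) (m := 3) (by omega)
    (fun j hj => by interval_cases j; exacts [h1.2, h2.2, h3.2, h0.2])
    (fun j hj => by interval_cases j; exacts [h1.1, h2.1, h3.1])
    (fun j hj hj' => by interval_cases j; exacts [h0.1])

/-- from east to south (right turn) -/
theorem tES (h0 : Bt w S x y) (h1 : Bt w S (x - 1) y) (h2 : Wt w S (x - 1) (y - 1))
    (h3 : Bt w S x (y - 1)) : Fw w S (he (x - 1, y)) (ve (x, y - 1)) :=
  Fw.loc (x, y) (k := 2) (m := 1) (by omega)
    (fun j hj => by interval_cases j; exacts [h2.2, h3.2, h0.2, h1.2])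
    (fun j hj => by interval_cases j; exacts [h2.1])
    (fun j hj hj' => by interval_cases j; exacts [h3.1, h0.1, h1.1])

/-- from north to east (right turn) -/
theorem tNE (h0 : Bt w S x y) (h1 : Bt w S (x - 1) y) (h2 : Bt w S (x - 1) (y - 1))
    (h3 : Wt w S x (y - 1)) : Fw w S (ve (x, y - 1)) (he (x, y)) :=
  Fw.loc (x, y) (k := 3) (m := 1) (by omega)
    (fun j hj => by interval_cases j; exacts [h3.2, h0.2, h1.2, h2.2])
    (fun j hj => by interval_cases j; exacts [h3.1])
    (fun j hj hj' => by interval_cases j; exacts [h0.1, h1.1, h2.1])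

/-- from west to north (right turn) -/
theorem tWN (h0 : Wt w S x y) (h1 : Bt w S (x - 1) y) (h2 : Bt w S (x - 1) (y - 1))
    (h3 : Bt w S x (y - 1)) : Fw w S (he (x, y)) (ve (x, y)) :=
  Fw.loc (x, y) (k := 0) (m := 1) (by omega)
    (fun j hj => by interval_cases j; exacts [h0.2, h1.2, h2.2, h3.2])
    (fun j hj => by interval_cases j; exacts [h0.1])
    (fun j hj hj' => by interval_cases j; exacts [h1.1, h2.1, h3.1])

/-- from south to west (right turn) -/
theorem tSW (h0 : Bt w S x y) (h1 : Wt w S (x - 1) y) (h2 : Bt w S (x - 1) (y - 1))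
    (h3 : Bt w S x (y - 1)) : Fw w S (ve (x, y)) (he (x - 1, y)) :=
  Fw.loc (x, y) (k := 1) (m := 1) (by omega)
    (fun j hj => by interval_cases j; exacts [h1.2, h2.2, h3.2, h0.2])
    (fun j hj => by interval_cases j; exacts [h1.1])
    (fun j hj hj' => by interval_cases j; exacts [h2.1, h3.1, h0.1])

/-! ### Segments -/

/-- a straight segment to the east: open above, closed below -/
theorem runE {x0 x1 : ℤ} (h : x0 ≤ x1) (hb : ∀ x, x0 ≤ x → x ≤ x1 → Bt w S x y)
    (hw : ∀ x, x0 ≤ x → x ≤ x1 → Wt w S x (y - 1)) : Fw w S (he (x0, y)) (he (x1, y)) := by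
  obtain ⟨n, rfl⟩ : ∃ n : ℕ, x1 = x0 + n := ⟨(x1 - x0).toNat, by omega⟩
  induction n with
  | zero => simp only [Nat.cast_zero, add_zero]; exact Fw.refl _ _ _
  | succ n ih =>
    refine (ih (by omega) (fun x a b => hb x a (by push_cast; omega))
      (fun x a b => hw x a (by push_cast; omega))).trans ?_
    have := goE (w := w) (S := S) (x := x0 + (n + 1 : ℕ)) (y := y) (hb _ (by push_cast; omega) le_rfl)
      (hb _ (by push_cast; omega) (by omega)) (hw _ (by push_cast; omega) (by omega))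
      (hw _ (by push_cast; omega) le_rfl)
    rwa [show x0 + ((n + 1 : ℕ) : ℤ) - 1 = x0 + n by push_cast; ring] at this

/-- a straight segment to the west: open below, closed above -/
theorem runW {x0 x1 : ℤ} (h : x0 ≤ x1) (hb : ∀ x, x0 ≤ x → x ≤ x1 → Bt w S x (y - 1))
    (hw : ∀ x, x0 ≤ x → x ≤ x1 → Wt w S x y) : Fw w S (he (x1, y)) (he (x0, y)) := by
  obtain ⟨n, rfl⟩ : ∃ n : ℕ, x1 = x0 + n := ⟨(x1 - x0).toNat, by omega⟩
  induction n with
  | zero => simp only [Nat.cast_zero, add_zero]; exact Fw.refl _ _ _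
  | succ n ih =>
    refine Fw.trans ?_ (ih (by omega) (fun x a b => hb x a (by push_cast; omega))
      (fun x a b => hw x a (by push_cast; omega)))
    have := goW (w := w) (S := S) (x := x0 + (n + 1 : ℕ)) (y := y) (hw _ (by push_cast; omega) le_rfl)
      (hw _ (by push_cast; omega) (by omega)) (hb _ (by push_cast; omega) (by omega))
      (hb _ (by push_cast; omega) le_rfl)
    rwa [show x0 + ((n + 1 : ℕ) : ℤ) - 1 = x0 + n by push_cast; ring] at this

/-- a straight segment to the north: open to the left (west), closed to the right -/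
theorem runN {y0 y1 : ℤ} (h : y0 ≤ y1) (hb : ∀ y, y0 ≤ y → y ≤ y1 → Bt w S (x - 1) y)
    (hw : ∀ y, y0 ≤ y → y ≤ y1 → Wt w S x y) : Fw w S (ve (x, y0)) (ve (x, y1)) := by
  obtain ⟨n, rfl⟩ : ∃ n : ℕ, y1 = y0 + n := ⟨(y1 - y0).toNat, by omega⟩
  induction n with
  | zero => simp only [Nat.cast_zero, add_zero]; exact Fw.refl _ _ _
  | succ n ih =>
    refine (ih (by omega) (fun x a b => hb x a (by push_cast; omega))
      (fun x a b => hw x a (by push_cast; omega))).trans ?_
    have := goN (w := w) (S := S) (x := x) (y := y0 + (n + 1 : ℕ)) (hw _ (by push_cast; omega) le_rfl)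
      (hb _ (by push_cast; omega) le_rfl) (hb _ (by push_cast; omega) (by omega))
      (hw _ (by push_cast; omega) (by omega))
    rwa [show y0 + ((n + 1 : ℕ) : ℤ) - 1 = y0 + n by push_cast; ring] at this

/-- a straight segment to the south: open to the left (east), closed to the right (west) -/
theorem runS {y0 y1 : ℤ} (h : y0 ≤ y1) (hb : ∀ y, y0 ≤ y → y ≤ y1 → Bt w S x y)
    (hw : ∀ y, y0 ≤ y → y ≤ y1 → Wt w S (x - 1) y) : Fw w S (ve (x, y1)) (ve (x, y0)) := by
  obtain ⟨n, rfl⟩ : ∃ n : ℕ, y1 = y0 + n := ⟨(y1 - y0).toNat, by omega⟩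
  induction n with
  | zero => simp only [Nat.cast_zero, add_zero]; exact Fw.refl _ _ _
  | succ n ih =>
    refine Fw.trans ?_ (ih (by omega) (fun x a b => hb x a (by push_cast; omega))
      (fun x a b => hw x a (by push_cast; omega)))
    have := goS (w := w) (S := S) (x := x) (y := y0 + (n + 1 : ℕ)) (hb _ (by push_cast; omega) le_rfl)
      (hw _ (by push_cast; omega) le_rfl) (hw _ (by push_cast; omega) (by omega))
      (hb _ (by push_cast; omega) (by omega))
    rwa [show y0 + ((n + 1 : ℕ) : ℤ) - 1 = y0 + n by push_cast; ring] at this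

end go

end Pool.Agent.H85.W
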