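import Mathlib
import Pool.Agent.H85.W.Loc

set_option autoImplicit false
open Finset

/-! # Realization of planar links outside of a box by plane labels

Box `[X1, X2) × [Y1, Y2)` of tiles. Ends on the left side: the rays `y = Y` to the west of `(X1, Y)`; one end
on the right side: the ray `y = e` to the east of `(X2, e)`. `P` : pairs `(a, b)`, `a < b`, of left rays,
planar (`nc`); the left ray `k` is joined with the ray `e` and is not enclosed by a pair (`nk`).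
`N` : number of the regions which contain a tile: pair `(a, b)` : rows `[a, b)`, columns
`[X1 - (b - a), X1)`; cap of `(e, k)`, thickness `dd`: above (`up = true`) or below (`up = false`) the rays and
the box. Open labels outside of the box: the tiles with `N` odd (`Lab`). -/

namespace Pool.Agent.H85.W

open Pool.Agent.H75.Perc Pool.Agent.H75.TwoArm Pool.Agent.H33.Q1
open Pool.Agent.H74.R45

/-- Data of the planar links. -/
structure Lnk where
  X1 : ℤ
  X2 : ℤ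
  Y1 : ℤ
  Y2 : ℤ
  up : Bool
  k : ℤ
  e : ℤ
  P : Finset (ℤ × ℤ)
  hX : X1 < X2
  hY : Y1 < Y2
  k1 : Y1 ≤ k
  k2 : k ≤ Y2
  e1 : Y1 ≤ e
  e2 : e ≤ Y2
  lt' : ∀ p ∈ P, p.1 < p.2
  b1 : ∀ p ∈ P, Y1 ≤ p.1
  b2 : ∀ p ∈ P, p.2 ≤ Y2
  nk : ∀ p ∈ P, k < p.1 ∨ p.2 < k
  nc : ∀ p ∈ P, ∀ q ∈ P, p = q ∨ p.2 < q.1 ∨ q.2 < p.1 ∨ (p.1 < q.1 ∧ q.2 < p.2) ∨
    (q.1 < p.1 ∧ p.2 < q.2)

namespace Lnk

variable (L : Lnk)

/-- the box -/
def Box (x y : ℤ) : Prop := L.X1 ≤ x ∧ x < L.X2 ∧ L.Y1 ≤ y ∧ y < L.Y2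

/-- thickness of the cap -/
def dd : ℤ := L.Y2 - L.Y1 + 1

/-- the cap above -/
def CU (x y : ℤ) : Prop := L.X1 - L.dd ≤ x ∧ x < L.X2 + L.dd ∧ y < L.Y2 + L.dd ∧
  ((x < L.X1 ∧ L.k ≤ y) ∨ (L.X2 ≤ x ∧ L.e ≤ y) ∨ (L.X1 ≤ x ∧ x < L.X2 ∧ L.Y2 ≤ y))

/-- the cap below -/
def CD (x y : ℤ) : Prop := L.X1 - L.dd ≤ x ∧ x < L.X2 + L.dd ∧ L.Y1 - L.dd ≤ y ∧
  ((x < L.X1 ∧ y < L.k) ∨ (L.X2 ≤ x ∧ y < L.e) ∨ (L.X1 ≤ x ∧ x < L.X2 ∧ y < L.Y1))

/-- the cap -/
def Cp (x y : ℤ) : Prop := if L.up then L.CU x y else L.CD x y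

/-- the region of the pair `p` -/
def Rp (p : ℤ × ℤ) (x y : ℤ) : Prop := x < L.X1 ∧ p.1 ≤ y ∧ y < p.2 ∧ L.X1 - x ≤ p.2 - p.1

open Classical in
/-- number of the regions which contain the tile -/
noncomputable def N (x y : ℤ) : ℕ :=
  (L.P.filter fun p => L.Rp p x y).card + (if L.Cp x y then 1 else 0)

open Classical in
/-- number of the regions which enclose the pair `p` -/
noncomputable def en (p : ℤ × ℤ) : ℕ :=
  (L.P.filter fun q => q.1 < p.1 ∧ p.2 < q.2).card +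
    (if (if L.up then L.k < p.1 else p.2 < L.k) then 1 else 0)

/-- the labels outside of the box -/
def S : Set (ℤ × ℤ) := {e | ¬ L.Box (tt e).1 (tt e).2}

/-- the open labels outside of the box -/
def Lab (w : Finset (ℤ × ℤ)) : Prop := ∀ x y, ¬ L.Box x y → (lt (x, y) ∈ w ↔ Odd (L.N x y))

variable {L} {w : Finset (ℤ × ℤ)} {x y : ℤ}

lemma mem_S : lt (x, y) ∈ L.S ↔ ¬ L.Box x y := by
  unfold S
  rw [Set.mem_ofPred_eq, tt_lt]

lemma bt (h : L.Lab w) (hb : ¬ L.Box x y) (hN : Odd (L.N x y)) : Bt w L.S x y :=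
  ⟨(h x y hb).2 hN, mem_S.2 hb⟩

lemma wt (h : L.Lab w) (hb : ¬ L.Box x y) (hN : ¬ Odd (L.N x y)) : Wt w L.S x y :=
  ⟨fun h' => hN ((h x y hb).1 h'), mem_S.2 hb⟩

/-! ### The number `N` near the curves -/

/-- the cap next to a pair -/
lemma Cp_pair {p : ℤ × ℤ} (hp : p ∈ L.P) (h1 : p.1 - 1 ≤ y) (h2 : y ≤ p.2) (h3 : x < L.X1)
    (h4 : L.X1 - (p.2 - p.1) - 1 ≤ x) : L.Cp x y ↔ (if L.up then L.k < p.1 else p.2 < L.k) := by
  have a1 := L.hY
  have a2 := L.b1 p hp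
  have a3 := L.b2 p hp
  have a4 := L.nk p hp
  have a5 := L.lt' p hp
  have a6 := L.k1
  have a7 := L.k2
  have a8 := L.hX
  unfold Cp
  cases h : L.up
  · simp only [Bool.false_eq_true, if_false]
    unfold CD dd
    omega
  · simp only [if_true]
    unfold CU dd
    omega

/-- inside, next to the curve of the pair -/
theorem N_in {p : ℤ × ℤ} (hp : p ∈ L.P) (h1 : p.1 ≤ y) (h2 : y < p.2) (h3 : x < L.X1)
    (h4 : L.X1 - (p.2 - p.1) ≤ x) (h5 : y = p.1 ∨ y = p.2 - 1 ∨ x = L.X1 - (p.2 - p.1)) :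
    L.N x y = L.en p + 1 := by
  classical
  unfold N en
  have e1 : (L.P.filter fun q => L.Rp q x y) = insert p (L.P.filter fun q => q.1 < p.1 ∧ p.2 < q.2) := by
    ext q
    rw [mem_insert, mem_filter, mem_filter]
    unfold Rp
    constructor
    · rintro ⟨hq, h6, h7, h8, h9⟩
      rcases L.nc p hp q hq with h | h
      · exact Or.inl h.symm
      · exact Or.inr ⟨hq, by omega⟩
    · rintro (rfl | ⟨hq, h6⟩)
      · exact ⟨hp, by omega⟩
      · exact ⟨hq, by omega⟩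
  rw [e1, card_insert_of_notMem (by rw [mem_filter]; rintro ⟨-, h, -⟩; exact lt_irrefl _ h)]
  have e2 := Cp_pair (x := x) (y := y) hp (by omega) (by omega) h3 (by omega)
  rw [if_congr e2 rfl rfl]
  ring

/-- outside, next to the curve of the pair -/
theorem N_out {p : ℤ × ℤ} (hp : p ∈ L.P) (h1 : p.1 - 1 ≤ y) (h2 : y ≤ p.2) (h3 : x < L.X1)
    (h4 : L.X1 - (p.2 - p.1) - 1 ≤ x)
    (h5 : y = p.1 - 1 ∨ y = p.2 ∨ x = L.X1 - (p.2 - p.1) - 1) : L.N x y = L.en p := by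
  classical
  unfold N en
  have a1 := L.lt' p hp
  have e1 : (L.P.filter fun q => L.Rp q x y) = L.P.filter fun q => q.1 < p.1 ∧ p.2 < q.2 := by
    ext q
    rw [mem_filter, mem_filter]
    unfold Rp
    constructor
    · rintro ⟨hq, h6, h7, h8, h9⟩
      refine ⟨hq, ?_⟩
      rcases L.nc p hp q hq with h | h
      · rw [← h] at h7 h8 h9
        omega
      · omega
    · rintro ⟨hq, h6⟩
      exact ⟨hq, by omega⟩
  rw [e1]
  have e2 := Cp_pair (x := x) (y := y) hp h1 h2 h3 h4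
  rw [if_congr e2 rfl rfl]

/-- away from the pairs -/
theorem N_cap (h : ∀ p ∈ L.P, ¬ L.Rp p x y) : Odd (L.N x y) ↔ L.Cp x y := by
  classical
  unfold N
  rw [filter_eq_empty_iff.2 fun p hp => h p hp, card_empty, zero_add]
  by_cases h1 : L.Cp x y
  · rw [if_pos h1]; exact ⟨fun _ => h1, fun _ => odd_one⟩
  · rw [if_neg h1]
    exact ⟨fun h => absurd h (by decide), fun h => absurd h h1⟩

lemma not_Rp_of (h : L.X1 ≤ x ∨ x < L.X1 - (L.Y2 - L.Y1) ∨ y < L.Y1 ∨ L.Y2 ≤ y ∨ y = L.k ∨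
    y = L.k - 1) : ∀ p ∈ L.P, ¬ L.Rp p x y := by
  intro p hp
  have a2 := L.b1 p hp
  have a3 := L.b2 p hp
  have a4 := L.nk p hp
  unfold Rp
  omega

/-! ### The strands of the pairs -/

/-- a corner on the curve of the pair -/
def tgt (L : Lnk) (p : ℤ × ℤ) : ℤ × ℤ := ve (L.X1 - (p.2 - p.1), p.1)

/-- the pair is enclosed an even number of times; first part -/
theorem pair_b1 (h : L.Lab w) {p : ℤ × ℤ} (hp : p ∈ L.P) (hev : Even (L.en p)) :
    Fw w L.S (he (L.X1 - 1, p.2)) (L.tgt p) := by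
  have a1 := L.lt' p hp
  have ho : Odd (L.en p + 1) := hev.add_one
  have hn : ¬ Odd (L.en p) := Nat.not_odd_iff_even.2 hev
  have I : ∀ x y, p.1 ≤ y → y < p.2 → x < L.X1 → L.X1 - (p.2 - p.1) ≤ x →
      (y = p.1 ∨ y = p.2 - 1 ∨ x = L.X1 - (p.2 - p.1)) → Bt w L.S x y := fun x y h1 h2 h3 h4 h5 =>
    bt h (by unfold Box; omega) (by rw [N_in hp h1 h2 h3 h4 h5]; exact ho)
  have O : ∀ x y, p.1 - 1 ≤ y → y ≤ p.2 → x < L.X1 → L.X1 - (p.2 - p.1) - 1 ≤ x →
      (y = p.1 - 1 ∨ y = p.2 ∨ x = L.X1 - (p.2 - p.1) - 1) → Wt w L.S x y :=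
    fun x y h1 h2 h3 h4 h5 =>
      wt h (by unfold Box; omega) (by rw [N_out hp h1 h2 h3 h4 h5]; exact hn)
  have s1 : Fw w L.S (he (L.X1 - 1, p.2)) (he (L.X1 - (p.2 - p.1), p.2)) :=
    runW (by omega) (fun x h1 h2 => I x _ (by omega) (by omega) (by omega) (by omega) (by omega))
      (fun x h1 h2 => O x _ (by omega) (by omega) (by omega) (by omega) (by omega))
  have s2 : Fw w L.S (he (L.X1 - (p.2 - p.1), p.2)) (ve (L.X1 - (p.2 - p.1), p.2 - 1)) :=
    tWS (O _ _ (by omega) (by omega) (by omega) (by omega) (by omega))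
      (O _ _ (by omega) (by omega) (by omega) (by omega) (by omega))
      (O _ _ (by omega) (by omega) (by omega) (by omega) (by omega))
      (I _ _ (by omega) (by omega) (by omega) (by omega) (by omega))
  have s3 : Fw w L.S (ve (L.X1 - (p.2 - p.1), p.2 - 1)) (ve (L.X1 - (p.2 - p.1), p.1)) :=
    runS (by omega) (fun y h1 h2 => I _ y (by omega) (by omega) (by omega) (by omega) (by omega))
      (fun y h1 h2 => O _ y (by omega) (by omega) (by omega) (by omega) (by omega))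
  exact s1.trans (s2.trans s3)

/-- the pair is enclosed an even number of times; second part -/
theorem pair_b2 (h : L.Lab w) {p : ℤ × ℤ} (hp : p ∈ L.P) (hev : Even (L.en p)) :
    Fw w L.S (L.tgt p) (he (L.X1 - 1, p.1)) := by
  have a1 := L.lt' p hp
  have ho : Odd (L.en p + 1) := hev.add_one
  have hn : ¬ Odd (L.en p) := Nat.not_odd_iff_even.2 hev
  have I : ∀ x y, p.1 ≤ y → y < p.2 → x < L.X1 → L.X1 - (p.2 - p.1) ≤ x →
      (y = p.1 ∨ y = p.2 - 1 ∨ x = L.X1 - (p.2 - p.1)) → Bt w L.S x y := fun x y h1 h2 h3 h4 h5 =>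
    bt h (by unfold Box; omega) (by rw [N_in hp h1 h2 h3 h4 h5]; exact ho)
  have O : ∀ x y, p.1 - 1 ≤ y → y ≤ p.2 → x < L.X1 → L.X1 - (p.2 - p.1) - 1 ≤ x →
      (y = p.1 - 1 ∨ y = p.2 ∨ x = L.X1 - (p.2 - p.1) - 1) → Wt w L.S x y :=
    fun x y h1 h2 h3 h4 h5 =>
      wt h (by unfold Box; omega) (by rw [N_out hp h1 h2 h3 h4 h5]; exact hn)
  have s4 : Fw w L.S (ve (L.X1 - (p.2 - p.1), p.1)) (he (L.X1 - (p.2 - p.1), p.1)) :=
    tSE (I _ _ (by omega) (by omega) (by omega) (by omega) (by omega))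
      (O _ _ (by omega) (by omega) (by omega) (by omega) (by omega))
      (O _ _ (by omega) (by omega) (by omega) (by omega) (by omega))
      (O _ _ (by omega) (by omega) (by omega) (by omega) (by omega))
  have s5 : Fw w L.S (he (L.X1 - (p.2 - p.1), p.1)) (he (L.X1 - 1, p.1)) :=
    runE (by omega) (fun x h1 h2 => I x _ (by omega) (by omega) (by omega) (by omega) (by omega))
      (fun x h1 h2 => O x _ (by omega) (by omega) (by omega) (by omega) (by omega))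
  exact s4.trans s5

/-- the pair is enclosed an even number of times -/
theorem pair_b (h : L.Lab w) {p : ℤ × ℤ} (hp : p ∈ L.P) (hev : Even (L.en p)) :
    Fw w L.S (he (L.X1 - 1, p.2)) (he (L.X1 - 1, p.1)) :=
  (pair_b1 h hp hev).trans (pair_b2 h hp hev)

/-- the pair is enclosed an odd number of times -/
theorem pair_w (h : L.Lab w) {p : ℤ × ℤ} (hp : p ∈ L.P) (hod : Odd (L.en p)) :
    Fw w L.S (he (L.X1 - 1, p.1)) (he (L.X1 - 1, p.2)) := by
  have a1 := L.lt' p hp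
  have ho : ¬ Odd (L.en p + 1) := Nat.not_odd_iff_even.2 hod.add_one
  have I : ∀ x y, p.1 ≤ y → y < p.2 → x < L.X1 → L.X1 - (p.2 - p.1) ≤ x →
      (y = p.1 ∨ y = p.2 - 1 ∨ x = L.X1 - (p.2 - p.1)) → Wt w L.S x y := fun x y h1 h2 h3 h4 h5 =>
    wt h (by unfold Box; omega) (by rw [N_in hp h1 h2 h3 h4 h5]; exact ho)
  have O : ∀ x y, p.1 - 1 ≤ y → y ≤ p.2 → x < L.X1 → L.X1 - (p.2 - p.1) - 1 ≤ x →
      (y = p.1 - 1 ∨ y = p.2 ∨ x = L.X1 - (p.2 - p.1) - 1) → Bt w L.S x y :=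
    fun x y h1 h2 h3 h4 h5 =>
      bt h (by unfold Box; omega) (by rw [N_out hp h1 h2 h3 h4 h5]; exact hod)
  have s1 : Fw w L.S (he (L.X1 - 1, p.1)) (he (L.X1 - (p.2 - p.1), p.1)) :=
    runW (by omega) (fun x h1 h2 => O x _ (by omega) (by omega) (by omega) (by omega) (by omega))
      (fun x h1 h2 => I x _ (by omega) (by omega) (by omega) (by omega) (by omega))
  have s2 : Fw w L.S (he (L.X1 - (p.2 - p.1), p.1)) (ve (L.X1 - (p.2 - p.1), p.1)) :=
    tWN (I _ _ (by omega) (by omega) (by omega) (by omega) (by omega))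
      (O _ _ (by omega) (by omega) (by omega) (by omega) (by omega))
      (O _ _ (by omega) (by omega) (by omega) (by omega) (by omega))
      (O _ _ (by omega) (by omega) (by omega) (by omega) (by omega))
  have s3 : Fw w L.S (ve (L.X1 - (p.2 - p.1), p.1)) (ve (L.X1 - (p.2 - p.1), p.2 - 1)) :=
    runN (by omega) (fun y h1 h2 => O _ y (by omega) (by omega) (by omega) (by omega) (by omega))
      (fun y h1 h2 => I _ y (by omega) (by omega) (by omega) (by omega) (by omega))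
  have s4 : Fw w L.S (ve (L.X1 - (p.2 - p.1), p.2 - 1)) (he (L.X1 - (p.2 - p.1), p.2)) :=
    tNE (O _ _ (by omega) (by omega) (by omega) (by omega) (by omega))
      (O _ _ (by omega) (by omega) (by omega) (by omega) (by omega))
      (O _ _ (by omega) (by omega) (by omega) (by omega) (by omega))
      (I _ _ (by omega) (by omega) (by omega) (by omega) (by omega))
  have s5 : Fw w L.S (he (L.X1 - (p.2 - p.1), p.2)) (he (L.X1 - 1, p.2)) :=
    runE (by omega) (fun x h1 h2 => O x _ (by omega) (by omega) (by omega) (by omega) (by omega))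
      (fun x h1 h2 => I x _ (by omega) (by omega) (by omega) (by omega) (by omega))
  exact s1.trans (s2.trans (s3.trans (s4.trans s5)))

/-! ### The strand of the cap -/

/-- the strand from the ray `e` to the ray `k`, cap above -/
theorem cap_up (h : L.Lab w) (hu : L.up = true) : Fw w L.S (he (L.X2, L.e)) (he (L.X1 - 1, L.k)) := by
  have a1 := L.hY
  have a2 := L.hX
  have a3 := L.k1
  have a4 := L.k2
  have a5 := L.e1
  have a6 := L.e2
  have I : ∀ x y, L.CU x y → ¬ L.Box x y → (L.X1 ≤ x ∨ x < L.X1 - (L.Y2 - L.Y1) ∨ y < L.Y1 ∨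
      L.Y2 ≤ y ∨ y = L.k ∨ y = L.k - 1) → Bt w L.S x y := fun x y h1 h2 h3 =>
    bt h h2 ((N_cap (not_Rp_of h3)).2 (by unfold Cp; rw [if_pos hu]; exact h1))
  have O : ∀ x y, ¬ L.CU x y → ¬ L.Box x y → (L.X1 ≤ x ∨ x < L.X1 - (L.Y2 - L.Y1) ∨ y < L.Y1 ∨
      L.Y2 ≤ y ∨ y = L.k ∨ y = L.k - 1) → Wt w L.S x y := fun x y h1 h2 h3 =>
    wt h h2 fun h4 => h1 (by
      have := (N_cap (not_Rp_of h3)).1 h4
      unfold Cp at this
      rwa [if_pos hu] at this)
  have s1 : Fw w L.S (he (L.X2, L.e)) (he (L.X2 + L.dd - 1, L.e)) := by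
    refine runE (by unfold dd; omega) (fun x h1 h2 => I x _ ?_ ?_ ?_) (fun x h1 h2 => O x _ ?_ ?_ ?_)
    · unfold CU dd at *; omega
    · unfold Box; omega
    · omega
    · unfold CU dd at *; omega
    · unfold Box; omega
    · omega
  have s2 : Fw w L.S (he (L.X2 + L.dd - 1, L.e)) (ve (L.X2 + L.dd, L.e)) := by
    refine tEN (O _ _ ?_ ?_ ?_) (I _ _ ?_ ?_ ?_) (O _ _ ?_ ?_ ?_) (O _ _ ?_ ?_ ?_)
    all_goals first
      | omega
      | (unfold Box dd at *; omega)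
      | (unfold CU dd at *; omega)
  have s3 : Fw w L.S (ve (L.X2 + L.dd, L.e)) (ve (L.X2 + L.dd, L.Y2 + L.dd - 1)) := by
    refine runN (by unfold dd; omega) (fun y h1 h2 => I _ y ?_ ?_ ?_) (fun y h1 h2 => O _ y ?_ ?_ ?_)
    all_goals first
      | omega
      | (unfold Box dd at *; omega)
      | (unfold CU dd at *; omega)
  have s4 : Fw w L.S (ve (L.X2 + L.dd, L.Y2 + L.dd - 1)) (he (L.X2 + L.dd - 1, L.Y2 + L.dd)) := by
    refine tNW (O _ _ ?_ ?_ ?_) (O _ _ ?_ ?_ ?_) (I _ _ ?_ ?_ ?_) (O _ _ ?_ ?_ ?_)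
    all_goals first
      | omega
      | (unfold Box dd at *; omega)
      | (unfold CU dd at *; omega)
  have s5 : Fw w L.S (he (L.X2 + L.dd - 1, L.Y2 + L.dd)) (he (L.X1 - L.dd, L.Y2 + L.dd)) := by
    refine runW (by unfold dd; omega) (fun x h1 h2 => I x _ ?_ ?_ ?_) (fun x h1 h2 => O x _ ?_ ?_ ?_)
    all_goals first
      | omega
      | (unfold dd at *; omega)
      | (unfold Box dd at *; omega)
      | (unfold CU dd at *; omega)
  have s6 : Fw w L.S (he (L.X1 - L.dd, L.Y2 + L.dd)) (ve (L.X1 - L.dd, L.Y2 + L.dd - 1)) := by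
    refine tWS (O _ _ ?_ ?_ ?_) (O _ _ ?_ ?_ ?_) (O _ _ ?_ ?_ ?_) (I _ _ ?_ ?_ ?_)
    all_goals first
      | omega
      | (unfold dd at *; omega)
      | (unfold Box dd at *; omega)
      | (unfold CU dd at *; omega)
  have s7 : Fw w L.S (ve (L.X1 - L.dd, L.Y2 + L.dd - 1)) (ve (L.X1 - L.dd, L.k)) := by
    refine runS (by unfold dd; omega) (fun y h1 h2 => I _ y ?_ ?_ ?_) (fun y h1 h2 => O _ y ?_ ?_ ?_)
    all_goals first
      | omega
      | (unfold dd at *; omega)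
      | (unfold Box dd at *; omega)
      | (unfold CU dd at *; omega)
  have s8 : Fw w L.S (ve (L.X1 - L.dd, L.k)) (he (L.X1 - L.dd, L.k)) := by
    refine tSE (I _ _ ?_ ?_ ?_) (O _ _ ?_ ?_ ?_) (O _ _ ?_ ?_ ?_) (O _ _ ?_ ?_ ?_)
    all_goals first
      | omega
      | (unfold dd at *; omega)
      | (unfold Box dd at *; omega)
      | (unfold CU dd at *; omega)
  have s9 : Fw w L.S (he (L.X1 - L.dd, L.k)) (he (L.X1 - 1, L.k)) := by
    refine runE (by unfold dd; omega) (fun x h1 h2 => I x _ ?_ ?_ ?_) (fun x h1 h2 => O x _ ?_ ?_ ?_)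
    all_goals first
      | omega
      | (unfold dd at *; omega)
      | (unfold Box dd at *; omega)
      | (unfold CU dd at *; omega)
  exact s1.trans (s2.trans (s3.trans (s4.trans (s5.trans (s6.trans (s7.trans (s8.trans s9)))))))

/-- the strand from the ray `k` to the ray `e`, cap below -/
theorem cap_dn (h : L.Lab w) (hu : L.up = false) :
    Fw w L.S (he (L.X1 - 1, L.k)) (he (L.X2, L.e)) := by
  have a1 := L.hY
  have a2 := L.hX
  have a3 := L.k1
  have a4 := L.k2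
  have a5 := L.e1
  have a6 := L.e2
  have I : ∀ x y, L.CD x y → ¬ L.Box x y → (L.X1 ≤ x ∨ x < L.X1 - (L.Y2 - L.Y1) ∨ y < L.Y1 ∨
      L.Y2 ≤ y ∨ y = L.k ∨ y = L.k - 1) → Bt w L.S x y := fun x y h1 h2 h3 =>
    bt h h2 ((N_cap (not_Rp_of h3)).2 (by unfold Cp; rw [hu]; exact h1))
  have O : ∀ x y, ¬ L.CD x y → ¬ L.Box x y → (L.X1 ≤ x ∨ x < L.X1 - (L.Y2 - L.Y1) ∨ y < L.Y1 ∨
      L.Y2 ≤ y ∨ y = L.k ∨ y = L.k - 1) → Wt w L.S x y := fun x y h1 h2 h3 =>
    wt h h2 fun h4 => h1 (by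
      have := (N_cap (not_Rp_of h3)).1 h4
      unfold Cp at this
      rwa [hu] at this)
  have s1 : Fw w L.S (he (L.X1 - 1, L.k)) (he (L.X1 - L.dd, L.k)) := by
    refine runW (by unfold dd; omega) (fun x h1 h2 => I x _ ?_ ?_ ?_) (fun x h1 h2 => O x _ ?_ ?_ ?_)
    all_goals first
      | omega
      | (unfold dd at *; omega)
      | (unfold Box dd at *; omega)
      | (unfold CD dd at *; omega)
  have s2 : Fw w L.S (he (L.X1 - L.dd, L.k)) (ve (L.X1 - L.dd, L.k - 1)) := by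
    refine tWS (O _ _ ?_ ?_ ?_) (O _ _ ?_ ?_ ?_) (O _ _ ?_ ?_ ?_) (I _ _ ?_ ?_ ?_)
    all_goals first
      | omega
      | (unfold dd at *; omega)
      | (unfold Box dd at *; omega)
      | (unfold CD dd at *; omega)
  have s3 : Fw w L.S (ve (L.X1 - L.dd, L.k - 1)) (ve (L.X1 - L.dd, L.Y1 - L.dd)) := by
    refine runS (by unfold dd; omega) (fun y h1 h2 => I _ y ?_ ?_ ?_) (fun y h1 h2 => O _ y ?_ ?_ ?_)
    all_goals first
      | omega
      | (unfold dd at *; omega)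
      | (unfold Box dd at *; omega)
      | (unfold CD dd at *; omega)
  have s4 : Fw w L.S (ve (L.X1 - L.dd, L.Y1 - L.dd)) (he (L.X1 - L.dd, L.Y1 - L.dd)) := by
    refine tSE (I _ _ ?_ ?_ ?_) (O _ _ ?_ ?_ ?_) (O _ _ ?_ ?_ ?_) (O _ _ ?_ ?_ ?_)
    all_goals first
      | omega
      | (unfold dd at *; omega)
      | (unfold Box dd at *; omega)
      | (unfold CD dd at *; omega)
  have s5 : Fw w L.S (he (L.X1 - L.dd, L.Y1 - L.dd)) (he (L.X2 + L.dd - 1, L.Y1 - L.dd)) := by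
    refine runE (by unfold dd; omega) (fun x h1 h2 => I x _ ?_ ?_ ?_) (fun x h1 h2 => O x _ ?_ ?_ ?_)
    all_goals first
      | omega
      | (unfold dd at *; omega)
      | (unfold Box dd at *; omega)
      | (unfold CD dd at *; omega)
  have s6 : Fw w L.S (he (L.X2 + L.dd - 1, L.Y1 - L.dd)) (ve (L.X2 + L.dd, L.Y1 - L.dd)) := by
    refine tEN (O _ _ ?_ ?_ ?_) (I _ _ ?_ ?_ ?_) (O _ _ ?_ ?_ ?_) (O _ _ ?_ ?_ ?_)
    all_goals first
      | omega
      | (unfold dd at *; omega)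
      | (unfold Box dd at *; omega)
      | (unfold CD dd at *; omega)
  have s7 : Fw w L.S (ve (L.X2 + L.dd, L.Y1 - L.dd)) (ve (L.X2 + L.dd, L.e - 1)) := by
    refine runN (by unfold dd; omega) (fun y h1 h2 => I _ y ?_ ?_ ?_) (fun y h1 h2 => O _ y ?_ ?_ ?_)
    all_goals first
      | omega
      | (unfold dd at *; omega)
      | (unfold Box dd at *; omega)
      | (unfold CD dd at *; omega)
  have s8 : Fw w L.S (ve (L.X2 + L.dd, L.e - 1)) (he (L.X2 + L.dd - 1, L.e)) := by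
    refine tNW (O _ _ ?_ ?_ ?_) (O _ _ ?_ ?_ ?_) (I _ _ ?_ ?_ ?_) (O _ _ ?_ ?_ ?_)
    all_goals first
      | omega
      | (unfold dd at *; omega)
      | (unfold Box dd at *; omega)
      | (unfold CD dd at *; omega)
  have s9 : Fw w L.S (he (L.X2 + L.dd - 1, L.e)) (he (L.X2, L.e)) := by
    refine runW (by unfold dd; omega) (fun x h1 h2 => I x _ ?_ ?_ ?_) (fun x h1 h2 => O x _ ?_ ?_ ?_)
    all_goals first
      | omega
      | (unfold dd at *; omega)
      | (unfold Box dd at *; omega)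
      | (unfold CD dd at *; omega)
  exact s1.trans (s2.trans (s3.trans (s4.trans (s5.trans (s6.trans (s7.trans (s8.trans s9)))))))

end Lnk

end Pool.Agent.H85.W
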