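import Mathlib
import Pool.Agent.H85.W.Loc
import Pool.Agent.H13.W.Graph
import Pool.Agent.Q1.M6b.FarEnv
import Pool.Agent.Q1.M6c.BoxTop

set_option autoImplicit false
open Finset

/-! # Strands at vertical sides, the strand graph, dual paths

`sv X Y s` : the vertical side at the column `X` next to the ray `y = Y` through which a strand of the
interface `y = Y` passes; `s = true`: the strand goes to the west (open below), `s = false`: to the east
(open above). -/

namespace Pool.Agent.H85.W

open Pool.Agent.H75.Perc Pool.Agent.H75.TwoArm Pool.Agent.H33.Q1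
open Pool.Agent.H74.R45
open Pool.Agent.H13.W (SG TJ SG_adj)
open Pool.Agent.Q1 (DCo)

variable {w : Finset (ℤ × ℤ)} {S S' : Set (ℤ × ℤ)} {X Y x y : ℤ}

/-- the side of the column `X` next to the ray `y = Y`, `s = true`: crossed to the west -/
def sv (X Y : ℤ) (s : Bool) : ℤ × ℤ :=
  ve (X, if (X + Y) % 2 = (if s then 0 else 1) then Y else Y - 1)

lemma sv_true_even (h : (X + Y) % 2 = 0) : sv X Y true = ve (X, Y) := by
  unfold sv; rw [if_pos (by simpa using h)]

lemma sv_true_odd (h : (X + Y) % 2 = 1) : sv X Y true = ve (X, Y - 1) := by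
  unfold sv; rw [if_neg (by simp only [if_true]; omega)]

lemma sv_false_odd (h : (X + Y) % 2 = 1) : sv X Y false = ve (X, Y) := by
  unfold sv; rw [if_pos (by simpa using h)]

lemma sv_false_even (h : (X + Y) % 2 = 0) : sv X Y false = ve (X, Y - 1) := by
  unfold sv; rw [if_neg (by simp only [Bool.false_eq_true, if_false]; omega)]

/-- the row of the side -/
lemma sv_eq_of {s : Bool} {y : ℤ} (h : (X + y) % 2 = (if s then 0 else 1)) (h' : y = Y ∨ y = Y - 1) :
    sv X Y s = ve (X, y) := by
  cases s
  · simp only [Bool.false_eq_true, if_false] at h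
    rcases h' with rfl | rfl
    · exact sv_false_odd h
    · exact sv_false_even (by omega)
  · simp only [if_true] at h
    rcases h' with rfl | rfl
    · exact sv_true_even h
    · exact sv_true_odd (by omega)

/-- to the west, into the column `X - 1` -/
theorem svW_out (h1 : Wt w S (X - 1) Y) (h2 : Bt w S (X - 1) (Y - 1)) :
    Fw w S (sv X Y true) (he (X - 1, Y)) := by
  rcases Int.emod_two_eq_zero_or_one (X + Y) with h | h
  · rw [sv_true_even h]
    exact Fw.ccw (p := (X, Y)) h (k := 1) (m := 1) fun j hj => by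
      have : j = 0 := by omega
      subst this; exact h1
  · rw [sv_true_odd h]
    exact Fw.cw (p := (X, Y)) h (k := 2) (m := 1) fun j hj => by
      have : j = 0 := by omega
      subst this; exact h2

/-- to the east, from the column `X - 1` -/
theorem svE_in (h1 : Bt w S (X - 1) Y) (h2 : Wt w S (X - 1) (Y - 1)) :
    Fw w S (he (X - 1, Y)) (sv X Y false) := by
  rcases Int.emod_two_eq_zero_or_one (X + Y) with h | h
  · rw [sv_false_even h]
    exact Fw.ccw (p := (X, Y)) h (k := 2) (m := 1) fun j hj => by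
      have : j = 0 := by omega
      subst this; exact h2
  · rw [sv_false_odd h]
    exact Fw.cw (p := (X, Y)) h (k := 1) (m := 1) fun j hj => by
      have : j = 0 := by omega
      subst this; exact h1

/-- to the east, into the column `X` -/
theorem svE_out (h1 : Bt w S X Y) (h2 : Wt w S X (Y - 1)) : Fw w S (sv X Y false) (he (X, Y)) := by
  rcases Int.emod_two_eq_zero_or_one (X + Y) with h | h
  · rw [sv_false_even h]
    exact Fw.ccw (p := (X, Y)) h (k := 3) (m := 1) fun j hj => by
      have : j = 0 := by omega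
      subst this; exact h2
  · rw [sv_false_odd h]
    exact Fw.cw (p := (X, Y)) h (k := 0) (m := 1) fun j hj => by
      have : j = 0 := by omega
      subst this; exact h1

/-- to the west, from the column `X` -/
theorem svW_in (h1 : Wt w S X Y) (h2 : Bt w S X (Y - 1)) : Fw w S (he (X, Y)) (sv X Y true) := by
  rcases Int.emod_two_eq_zero_or_one (X + Y) with h | h
  · rw [sv_true_even h]
    exact Fw.ccw (p := (X, Y)) h (k := 0) (m := 1) fun j hj => by
      have : j = 0 := by omega
      subst this; exact h1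
  · rw [sv_true_odd h]
    exact Fw.cw (p := (X, Y)) h (k := 3) (m := 1) fun j hj => by
      have : j = 0 := by omega
      subst this; exact h2

/-! ### The strand graph -/

/-- a piece of a strand is a path of the strand graph -/
theorem Fw.reach {c c' : ℤ × ℤ} (h : Fw w S c c') : (SG S ∅ w).Reachable c c' := by
  obtain ⟨n, h1, h2⟩ := h
  induction n generalizing c with
  | zero => rw [Function.iterate_zero_apply] at h1; rw [h1]
  | succ n ih =>
    have h3 : (SG S ∅ w).Adj c (nx w c) := by
      rw [SG_adj]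
      refine ⟨lab c, h2 0 (Nat.succ_pos n), Or.inr ⟨?_, Or.inl ⟨rfl, rfl⟩⟩⟩
      exact fun h => h
    refine h3.reachable.trans (ih (c := nx w c) ?_ fun i hi => ?_)
    · rw [← h1, Function.iterate_succ_apply]
    · have := h2 (i + 1) (by omega)
      rwa [Function.iterate_succ_apply] at this

/-! ### Dual paths -/

lemma fi_ve_odd (h : (x + y) % 2 = 1) : fi (ve (x, y)) = ((x - y + 1) / 2, (x + y + 1) / 2) := by
  unfold fi ve; simp only; refine Prod.ext ?_ ?_ <;> simp only; omega

lemma fi_ve_even (h : (x + y) % 2 = 0) : fi (ve (x, y)) = ((x - y) / 2, (x + y + 2) / 2) := by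
  unfold fi ve; simp only; refine Prod.ext ?_ ?_ <;> simp only <;> omega

lemma fi_he_odd (h : (x + y) % 2 = 1) : fi (he (x, y)) = ((x - y + 1) / 2, (x + y + 1) / 2) := by
  unfold fi he; simp only; refine Prod.ext ?_ ?_ <;> simp only <;> omega

lemma fi_he_even (h : (x + y) % 2 = 0) : fi (he (x, y)) = ((x - y + 2) / 2, (x + y + 2) / 2) := by
  unfold fi he; simp only; refine Prod.ext ?_ ?_ <;> simp only <;> omega

/-- the faces of the sides at a common odd point -/
lemma fi_he_ve (h : (x + y) % 2 = 1) : fi (he (x, y)) = fi (ve (x, y)) := by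
  rw [fi_ve_odd h, fi_he_odd h]

lemma fi_he_ve' (h : (x + y) % 2 = 1) : fi (he (x, y)) = fi (ve (x, y - 1)) := by
  rw [fi_ve_even (by omega), fi_he_odd h]
  refine Prod.ext ?_ ?_ <;> simp only <;> omega

lemma fi_he_ve1 (h : (x + y) % 2 = 0) : fi (he (x, y)) = fi (ve (x + 1, y)) := by
  rw [fi_ve_odd (by omega), fi_he_even h]
  refine Prod.ext ?_ ?_ <;> simp only <;> omega

lemma fi_he_ve1' (h : (x + y) % 2 = 0) : fi (he (x, y)) = fi (ve (x + 1, y - 1)) := by
  rw [fi_ve_even (by omega), fi_he_even h]
  refine Prod.ext ?_ ?_ <;> simp only <;> omega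

/-- through a closed tile -/
lemma dco_ve {A : Finset (ℤ × ℤ)} (h : lt (x, y) ∉ A) : DCo A (fi (ve (x, y))) (fi (ve (x + 1, y))) := by
  rcases Int.emod_two_eq_zero_or_one (x + y) with h1 | h1
  · have h2 := Pool.Agent.Q1.M6c.dco_nxC (A := A) (y := he (x, y)) (by rw [lab_he_N h1]; exact h)
    rw [nxC_he_N h1, fi_he_ve1 h1] at h2
    exact h2.symm
  · have h2 := Pool.Agent.Q1.M6c.dco_nxC (A := A) (y := ve (x, y)) (by rw [lab_ve_E h1]; exact h)
    rw [nxC_ve_E h1] at h2
    rwa [show he (x, y + 1) = he (x, y + 1) from rfl, fi_he_ve1' (by omega), add_sub_cancel_right] at h2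

/-- a strip of closed tiles -/
lemma dco_strip {A : Finset (ℤ × ℤ)} {x0 x1 : ℤ} (h0 : x0 ≤ x1)
    (h : ∀ x, x0 ≤ x → x < x1 → lt (x, y) ∉ A) : DCo A (fi (ve (x0, y))) (fi (ve (x1, y))) := by
  obtain ⟨n, rfl⟩ : ∃ n : ℕ, x1 = x0 + n := ⟨(x1 - x0).toNat, by omega⟩
  induction n with
  | zero => simp only [Nat.cast_zero, add_zero]; exact DCo.refl _ _
  | succ n ih =>
    refine (ih (by omega) fun x a b => h x a (by push_cast; omega)).trans ?_
    have := dco_ve (A := A) (x := x0 + n) (y := y) (h _ (by omega) (by push_cast; omega))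
    rwa [show x0 + (n : ℤ) + 1 = x0 + ((n + 1 : ℕ) : ℤ) by push_cast; ring] at this

end Pool.Agent.H85.W
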