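import Mathlib
import Pool.Agent.H85.W.Real
import Pool.Agent.H85.W.Side

set_option autoImplicit false
open Finset

/-! # The links of the outside on the sides of the box; dual paths to infinity

`Lnk.Col L lc` : `lc y` is the colour of the tile `(X1 - 1, y)`: it changes exactly at the rays of the pairs and
at `k`, and `lc (Y1 - 1) = !up`. -/

namespace Pool.Agent.H85.W

open Pool.Agent.H75.Perc Pool.Agent.H75.TwoArm Pool.Agent.H33.Q1
open Pool.Agent.H74.R45
open Pool.Agent.Q1 (DCo)

namespace Lnk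

variable {L : Lnk} {w : Finset (ℤ × ℤ)} {x y : ℤ}

/-- `lc` is the colour of the left side -/
structure Col (L : Lnk) (lc : ℤ → Bool) : Prop where
  h0 : lc (L.Y1 - 1) = !L.up
  hM : ∀ y, L.Y1 ≤ y → y ≤ L.Y2 → (lc (y - 1) ≠ lc y ↔ (y = L.k ∨ ∃ p ∈ L.P, y = p.1 ∨ y = p.2))

lemma Rp_step (h : ∀ p ∈ L.P, y + 1 ≠ p.1 ∧ y + 1 ≠ p.2) {p : ℤ × ℤ} (hp : p ∈ L.P) :
    L.Rp p (L.X1 - 1) (y + 1) ↔ L.Rp p (L.X1 - 1) y := by
  have a1 := L.lt' p hp
  have a2 := h p hp
  unfold Rp
  omega

/-- away from the rays the number does not change -/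
lemma N_same (h : ∀ p ∈ L.P, y + 1 ≠ p.1 ∧ y + 1 ≠ p.2) (hk : y + 1 ≠ L.k) (h1 : L.Y1 - 1 ≤ y)
    (h2 : y + 1 ≤ L.Y2) : L.N (L.X1 - 1) (y + 1) = L.N (L.X1 - 1) y := by
  classical
  unfold N
  have e1 : (L.P.filter fun p => L.Rp p (L.X1 - 1) (y + 1)) = L.P.filter fun p => L.Rp p (L.X1 - 1) y :=
    filter_congr fun p hp => Rp_step h hp
  have e2 : L.Cp (L.X1 - 1) (y + 1) ↔ L.Cp (L.X1 - 1) y := by
    have a1 := L.hY
    have a2 := L.hX
    unfold Cp
    cases L.up
    · simp only [Bool.false_eq_true, if_false]; unfold CD dd; omega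
    · simp only [if_true]; unfold CU dd; omega
  rw [e1, if_congr e2 rfl rfl]

/-- the number changes its parity at the rays -/
lemma N_flip (h : y + 1 = L.k ∨ ∃ p ∈ L.P, y + 1 = p.1 ∨ y + 1 = p.2) :
    Odd (L.N (L.X1 - 1) (y + 1)) ↔ ¬ Odd (L.N (L.X1 - 1) y) := by
  rcases h with h | ⟨p, hp, h | h⟩
  · rw [N_cap (not_Rp_of (by omega)), N_cap (not_Rp_of (by omega))]
    have a1 := L.hY
    have a2 := L.hX
    have a3 := L.k1
    have a4 := L.k2
    unfold Cp
    cases L.up
    · simp only [Bool.false_eq_true, if_false]; unfold CD dd; omega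
    · simp only [if_true]; unfold CU dd; omega
  · have a1 := L.lt' p hp
    rw [N_in hp (by omega) (by omega) (by omega) (by omega) (by omega),
      N_out (y := y) hp (by omega) (by omega) (by omega) (by omega) (by omega), Nat.odd_add_one]
  · have a1 := L.lt' p hp
    rw [N_in (y := y) hp (by omega) (by omega) (by omega) (by omega) (by omega),
      N_out hp (by omega) (by omega) (by omega) (by omega) (by omega), Nat.odd_add_one, not_not]

/-- **the colours of the left side** -/
theorem Col.odd {lc : ℤ → Bool} (hc : L.Col lc) (h1 : L.Y1 - 1 ≤ y) (h2 : y ≤ L.Y2) :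
    Odd (L.N (L.X1 - 1) y) ↔ lc y = true := by
  obtain ⟨n, rfl⟩ : ∃ n : ℕ, y = L.Y1 - 1 + n := ⟨(y - (L.Y1 - 1)).toNat, by omega⟩
  induction n with
  | zero =>
    simp only [Nat.cast_zero, add_zero]
    rw [N_cap (not_Rp_of (by omega)), hc.h0]
    have a1 := L.hY
    have a2 := L.hX
    have a3 := L.k1
    unfold Cp
    cases L.up
    · simp only [Bool.false_eq_true, if_false, Bool.not_false, iff_true]; unfold CD dd; omega
    · simp only [if_true, Bool.not_true, Bool.false_eq_true, iff_false]; unfold CU dd; omega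
  | succ n ih =>
    have ih' := ih (by omega) (by push_cast at h2; omega)
    have e : L.Y1 - 1 + ((n + 1 : ℕ) : ℤ) = L.Y1 - 1 + (n : ℤ) + 1 := by push_cast; ring
    rw [e] at h2 ⊢
    have hM := hc.hM (L.Y1 - 1 + (n : ℤ) + 1) (by omega) h2
    rw [add_sub_cancel_right] at hM
    by_cases h : lc (L.Y1 - 1 + n) = lc (L.Y1 - 1 + n + 1)
    · have h3 := mt hM.2 (not_not.2 h)
      rw [not_or, not_exists] at h3
      rw [N_same (fun p hp => ?_) h3.1 (by omega) h2, ih', h]
      have := h3.2 p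
      rw [not_and, not_or] at this
      exact this hp
    · rw [N_flip (hM.1 h), ih']
      cases h4 : lc (L.Y1 - 1 + n) <;> cases h5 : lc (L.Y1 - 1 + n + 1) <;> simp_all

lemma Col.bt {lc : ℤ → Bool} (hc : L.Col lc) (h : L.Lab w) (h1 : L.Y1 - 1 ≤ y) (h2 : y ≤ L.Y2)
    (hl : lc y = true) : Bt w L.S (L.X1 - 1) y :=
  Lnk.bt h (by unfold Box; omega) ((hc.odd h1 h2).2 hl)

lemma Col.wt {lc : ℤ → Bool} (hc : L.Col lc) (h : L.Lab w) (h1 : L.Y1 - 1 ≤ y) (h2 : y ≤ L.Y2)
    (hl : lc y = false) : Wt w L.S (L.X1 - 1) y :=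
  Lnk.wt h (by unfold Box; omega) fun h3 => by rw [(hc.odd h1 h2).1 h3] at hl; exact absurd hl (by decide)

/-! ### The links -/

lemma Col.even_en {lc : ℤ → Bool} (hc : L.Col lc) {p : ℤ × ℤ} (hp : p ∈ L.P) :
    Even (L.en p) ↔ lc p.1 = true := by
  have a1 := L.lt' p hp
  have a2 := L.b1 p hp
  have a3 := L.b2 p hp
  rw [← hc.odd (by omega) (by omega),
    N_in hp (by omega) (by omega) (by omega) (by omega) (by omega), Nat.odd_add_one,
    Nat.not_odd_iff_even]

/-- the pair of rays is a pair of colour changes -/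
lemma Col.cols {lc : ℤ → Bool} (hc : L.Col lc) {p : ℤ × ℤ} (hp : p ∈ L.P) :
    lc (p.1 - 1) = !lc p.1 ∧ lc (p.2 - 1) = lc p.1 ∧ lc p.2 = !lc p.1 := by
  have a1 := L.lt' p hp
  have a2 := L.b1 p hp
  have a3 := L.b2 p hp
  have h1 := hc.odd (y := p.1 - 1) (by omega) (by omega)
  have h2 := hc.odd (y := p.1) (by omega) (by omega)
  have h3 := hc.odd (y := p.2 - 1) (by omega) (by omega)
  have h4 := hc.odd (y := p.2) (by omega) (by omega)
  rw [N_out hp (by omega) (by omega) (by omega) (by omega) (by omega)] at h1 h4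
  rw [N_in hp (by omega) (by omega) (by omega) (by omega) (by omega), Nat.odd_add_one] at h2 h3
  cases h5 : lc p.1 <;> cases h6 : lc (p.1 - 1) <;> cases h7 : lc (p.2 - 1) <;>
    cases h8 : lc p.2 <;> simp_all

/-- **open inside** : the strand goes from the upper to the lower ray -/
theorem Col.pair_b {lc : ℤ → Bool} (hc : L.Col lc) (h : L.Lab w) {p : ℤ × ℤ} (hp : p ∈ L.P)
    (hl : lc p.1 = true) : Fw w L.S (sv L.X1 p.2 true) (L.tgt p) ∧
      Fw w L.S (L.tgt p) (sv L.X1 p.1 false) := by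
  have a1 := L.lt' p hp
  have a2 := L.b1 p hp
  have a3 := L.b2 p hp
  obtain ⟨c1, c2, c3⟩ := hc.cols hp
  rw [hl] at c1 c2 c3
  have hev := (hc.even_en hp).2 hl
  exact ⟨(svW_out (hc.wt h (by omega) (by omega) c3) (hc.bt h (by omega) (by omega) c2)).trans
      (pair_b1 h hp hev),
    (pair_b2 h hp hev).trans
      (svE_in (hc.bt h (by omega) (by omega) hl) (hc.wt h (by omega) (by omega) c1))⟩

/-- **closed inside** : the strand goes from the lower to the upper ray -/
theorem Col.pair_w {lc : ℤ → Bool} (hc : L.Col lc) (h : L.Lab w) {p : ℤ × ℤ} (hp : p ∈ L.P)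
    (hl : lc p.1 = false) : Fw w L.S (sv L.X1 p.1 true) (sv L.X1 p.2 false) := by
  have a1 := L.lt' p hp
  have a2 := L.b1 p hp
  have a3 := L.b2 p hp
  obtain ⟨c1, c2, c3⟩ := hc.cols hp
  rw [hl] at c1 c2 c3
  have hod : Odd (L.en p) := by
    rw [← Nat.not_even_iff_odd, hc.even_en hp, hl]; exact Bool.false_ne_true
  exact ((svW_out (hc.wt h (by omega) (by omega) hl) (hc.bt h (by omega) (by omega) c1)).trans
    (Lnk.pair_w h hp hod)).trans
      (svE_in (hc.bt h (by omega) (by omega) c3) (hc.wt h (by omega) (by omega) c2))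

/-- **the exit, cap above** -/
theorem exit_up (h : L.Lab w) (hu : L.up = true) : Fw w L.S (he (L.X2, L.e)) (sv L.X1 L.k false) := by
  have a1 := L.hY
  have a2 := L.hX
  refine (cap_up h hu).trans (svE_in (bt h (by unfold Box; omega) ?_) (wt h (by unfold Box; omega) ?_))
  · rw [N_cap (not_Rp_of (by omega))]
    unfold Cp; rw [if_pos hu]; unfold CU dd
    have a3 := L.k1
    have a4 := L.k2
    omega
  · rw [N_cap (not_Rp_of (by omega))]
    unfold Cp; rw [if_pos hu]; unfold CU dd
    omega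

/-- **the exit, cap below** -/
theorem exit_dn (h : L.Lab w) (hu : L.up = false) : Fw w L.S (sv L.X1 L.k true) (he (L.X2, L.e)) := by
  have a1 := L.hY
  have a2 := L.hX
  refine (svW_out (wt h (by unfold Box; omega) ?_) (bt h (by unfold Box; omega) ?_)).trans
    (cap_dn h hu)
  · rw [N_cap (not_Rp_of (by omega))]
    unfold Cp; rw [hu]; simp only [Bool.false_eq_true, if_false]; unfold CD dd
    omega
  · rw [N_cap (not_Rp_of (by omega))]
    unfold Cp; rw [hu]; simp only [Bool.false_eq_true, if_false]; unfold CD dd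
    have a3 := L.k1
    have a4 := L.k2
    omega

/-! ### Far tiles -/

/-- the open labels are in a box -/
lemma N_far (h : ¬ (L.X1 - L.dd ≤ x ∧ x < L.X2 + L.dd ∧ L.Y1 - L.dd ≤ y ∧ y < L.Y2 + L.dd)) :
    L.N x y = 0 := by
  classical
  have a1 := L.hY
  have a2 := L.hX
  have a3 := L.k1
  have a4 := L.k2
  have a5 := L.e1
  have a6 := L.e2
  unfold N
  rw [filter_eq_empty_iff.2 fun p hp => ?_, card_empty, if_neg]
  · unfold Cp
    cases L.up
    · simp only [Bool.false_eq_true, if_false]; unfold CD; unfold dd at *; omega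
    · simp only [if_true]; unfold CU; unfold dd at *; omega
  · have b1 := L.b1 p hp
    have b2 := L.b2 p hp
    unfold Rp
    unfold dd at h
    omega

/-- the colours to the right of the box -/
lemma N_right (h1 : L.X2 ≤ x) (h2 : x < L.X2 + L.dd) (h3 : L.Y1 - L.dd ≤ y) (h4 : y < L.Y2 + L.dd) :
    Odd (L.N x y) ↔ (if L.up then L.e ≤ y else y < L.e) := by
  have a2 := L.hX
  rw [N_cap (not_Rp_of (by omega))]
  unfold Cp
  cases L.up
  · simp only [Bool.false_eq_true, if_false]; unfold CD; omega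
  · simp only [if_true]; unfold CU; omega

/-- the closed row to the east of the exit -/
lemma N_exit (h1 : L.X2 ≤ x) (h2 : y = if L.up then L.e - 1 else L.e) : ¬ Odd (L.N x y) := by
  have a2 := L.hX
  have a3 := L.hY
  have a5 := L.e1
  have a6 := L.e2
  rw [N_cap (not_Rp_of (by omega))]
  unfold Cp
  cases h : L.up
  · rw [h] at h2
    simp only [Bool.false_eq_true, if_false] at h2 ⊢; unfold CD; omega
  · rw [h] at h2
    simp only [if_true] at h2 ⊢; unfold CU; omega

/-- the closed row to the west of a pair which is not enclosed -/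
lemma N_tgt {p : ℤ × ℤ} (hp : p ∈ L.P) (hen : L.en p = 0) (h1 : x < L.X1 - (p.2 - p.1)) :
    L.N x p.1 = 0 := by
  classical
  unfold en at hen
  rw [Nat.add_eq_zero_iff, card_eq_zero, filter_eq_empty_iff] at hen
  obtain ⟨e1, e2⟩ := hen
  have a1 := L.lt' p hp
  have a2 := L.nk p hp
  have a3 := L.b1 p hp
  have a4 := L.b2 p hp
  have a5 := L.hX
  unfold N
  rw [filter_eq_empty_iff.2 fun q hq => ?_, card_empty, if_neg]
  · intro h
    apply (show ¬ (1 : ℕ) = 0 by decide)
    rw [← e2, if_pos]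
    unfold Cp at h
    cases h' : L.up
    · rw [h'] at h
      simp only [Bool.false_eq_true, if_false] at h ⊢
      unfold CD at h; omega
    · rw [h'] at h
      simp only [if_true] at h ⊢
      unfold CU at h; omega
  · have b1 := e1 hq
    unfold Rp
    rcases L.nc p hp q hq with h | h
    · rw [← h]; omega
    · omega

end Lnk

end Pool.Agent.H85.W
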