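import Mathlib
import Pool.Agent.H85.W.Side

set_option autoImplicit false
open Finset

/-! # The ring around the box

Box `[X1, X2) × [Y1, Y2)`. On its right side there are up to three rays: `y = s0` (colours `cb | c0`), the exit
`y = e` (`c0 | !c0`) and `y = n0` (`!c0 | ct`). In a ring of width 2 (right, below, above) the rays `s0` and `n0`
are turned round the box to its left side, heights `Y1 - 1` and `Y2 + 1`; the exit goes on to the east. -/

namespace Pool.Agent.H85.W

open Pool.Agent.H75.Perc Pool.Agent.H75.TwoArm Pool.Agent.H33.Q1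
open Pool.Agent.H74.R45

/-- Data of the ring. -/
structure Rg where
  X1 : ℤ
  X2 : ℤ
  Y1 : ℤ
  Y2 : ℤ
  e : ℤ
  s0 : ℤ
  n0 : ℤ
  c0 : Bool
  cb : Bool
  ct : Bool
  hX : X1 < X2
  h1 : Y1 < s0
  h2 : s0 < e
  h3 : e < n0
  h4 : n0 < Y2

namespace Rg

variable (D : Rg)

/-- the box -/
def Box (x y : ℤ) : Prop := D.X1 ≤ x ∧ x < D.X2 ∧ D.Y1 ≤ y ∧ y < D.Y2

/-- the labels outside of the box -/
def S : Set (ℤ × ℤ) := {e | ¬ D.Box (tt e).1 (tt e).2}

/-- the ring -/
def In (x y : ℤ) : Prop := D.X1 ≤ x ∧ x < D.X2 + 2 ∧ D.Y1 - 2 ≤ y ∧ y < D.Y2 + 2 ∧ ¬ D.Box x y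

/-- colours of the ring -/
def rc (x y : ℤ) : Bool :=
  if x ≤ D.X2 ∧ D.Y1 - 1 ≤ y ∧ y ≤ D.Y2 then
    (if y < D.s0 then D.cb else if y < D.e then D.c0 else if y < D.n0 then !D.c0 else D.ct)
  else if y < D.e then D.c0 else !D.c0

/-- the open labels of the ring -/
def Lab (w : Finset (ℤ × ℤ)) : Prop := ∀ x y, D.In x y → (lt (x, y) ∈ w ↔ D.rc x y = true)

variable {D} {w : Finset (ℤ × ℤ)} {x y : ℤ}

lemma mem_S : lt (x, y) ∈ D.S ↔ ¬ D.Box x y := by
  unfold S
  rw [Set.mem_ofPred_eq, tt_lt]

lemma bt (h : D.Lab w) (hi : D.In x y) (hc : D.rc x y = true) : Bt w D.S x y :=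
  ⟨(h x y hi).2 hc, mem_S.2 hi.2.2.2.2⟩

lemma wt (h : D.Lab w) (hi : D.In x y) (hc : D.rc x y = false) : Wt w D.S x y :=
  ⟨fun h' => by rw [(h x y hi).1 h'] at hc; exact absurd hc (by decide), mem_S.2 hi.2.2.2.2⟩

/-! colours -/

lemma rc_b (h1 : x ≤ D.X2) (h2 : D.Y1 - 1 ≤ y) (h3 : y < D.s0) : D.rc x y = D.cb := by
  have := D.h1; have := D.h2; have := D.h3; have := D.h4
  unfold rc; rw [if_pos (by omega), if_pos h3]

lemma rc_r (h1 : D.s0 ≤ y) (h2 : y < D.e) : D.rc x y = D.c0 := by
  unfold rc
  by_cases h : x ≤ D.X2 ∧ D.Y1 - 1 ≤ y ∧ y ≤ D.Y2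
  · rw [if_pos h, if_neg (by omega), if_pos h2]
  · rw [if_neg h, if_pos h2]

lemma rc_q (h1 : D.e ≤ y) (h2 : y < D.n0) : D.rc x y = !D.c0 := by
  have := D.h2
  unfold rc
  by_cases h : x ≤ D.X2 ∧ D.Y1 - 1 ≤ y ∧ y ≤ D.Y2
  · rw [if_pos h, if_neg (by omega), if_neg (by omega), if_pos h2]
  · rw [if_neg h, if_neg (by omega)]

lemma rc_t (h1 : x ≤ D.X2) (h2 : D.n0 ≤ y) (h3 : y ≤ D.Y2) : D.rc x y = D.ct := by
  have := D.h1; have := D.h2; have := D.h3; have := D.h4
  unfold rc; rw [if_pos (by omega), if_neg (by omega), if_neg (by omega), if_neg (by omega)]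

lemma rc_o (h1 : D.X2 < x ∨ y < D.Y1 - 1) (h2 : y < D.e) : D.rc x y = D.c0 := by
  unfold rc; rw [if_neg (by omega), if_pos h2]

lemma rc_p (h1 : D.X2 < x ∨ D.Y2 < y) (h2 : D.e ≤ y) : D.rc x y = !D.c0 := by
  unfold rc; rw [if_neg (by omega), if_neg (by omega)]

/-! ### SE -/

section

variable (h : D.Lab w)

include h

/-- from the ray `s0` to the left side -/
theorem se_out (hc : D.c0 = true) (hb : D.cb = false) :
    Fw w D.S (sv D.X2 D.s0 false) (sv D.X1 (D.Y1 - 1) true) := by
  have a1 := D.h1; have a2 := D.h2; have a3 := D.h3; have a4 := D.h4; have a5 := D.hX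
  have B : ∀ x y, D.In x y → D.rc x y = D.c0 → Bt w D.S x y := fun x y i c => bt h i (c.trans hc)
  have W : ∀ x y, D.In x y → D.rc x y = D.cb → Wt w D.S x y := fun x y i c => wt h i (c.trans hb)
  have s1 : Fw w D.S (sv D.X2 D.s0 false) (he (D.X2, D.s0)) :=
    svE_out (B _ _ (by unfold In Box; omega) (rc_r le_rfl (by omega)))
      (W _ _ (by unfold In Box; omega) (rc_b le_rfl (by omega) (by omega)))
  have s2 : Fw w D.S (he (D.X2, D.s0)) (ve (D.X2 + 1, D.s0 - 1)) := by
    have := tES (w := w) (S := D.S) (x := D.X2 + 1) (y := D.s0)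
      (B _ _ (by unfold In Box; omega) (rc_r le_rfl (by omega)))
      (by rw [add_sub_cancel_right]; exact B _ _ (by unfold In Box; omega) (rc_r le_rfl (by omega)))
      (by rw [add_sub_cancel_right]
          exact W _ _ (by unfold In Box; omega) (rc_b le_rfl (by omega) (by omega)))
      (B _ _ (by unfold In Box; omega) (rc_o (by omega) (by omega)))
    rwa [add_sub_cancel_right] at this
  have s3 : Fw w D.S (ve (D.X2 + 1, D.s0 - 1)) (ve (D.X2 + 1, D.Y1 - 1)) :=
    runS (by omega)
      (fun y i j => B _ _ (by unfold In Box; omega) (rc_o (by omega) (by omega)))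
      (fun y i j => by
        rw [add_sub_cancel_right]
        exact W _ _ (by unfold In Box; omega) (rc_b le_rfl (by omega) (by omega)))
  have s4 : Fw w D.S (ve (D.X2 + 1, D.Y1 - 1)) (he (D.X2, D.Y1 - 1)) := by
    have := tSW (w := w) (S := D.S) (x := D.X2 + 1) (y := D.Y1 - 1)
      (B _ _ (by unfold In Box; omega) (rc_o (by omega) (by omega)))
      (by rw [add_sub_cancel_right]
          exact W _ _ (by unfold In Box; omega) (rc_b le_rfl (by omega) (by omega)))
      (by rw [add_sub_cancel_right]; exact B _ _ (by unfold In Box; omega) (rc_o (by omega) (by omega)))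
      (B _ _ (by unfold In Box; omega) (rc_o (by omega) (by omega)))
    rwa [add_sub_cancel_right] at this
  have s5 : Fw w D.S (he (D.X2, D.Y1 - 1)) (he (D.X1, D.Y1 - 1)) :=
    runW (by omega)
      (fun x i j => B _ _ (by unfold In Box; omega) (rc_o (by omega) (by omega)))
      (fun x i j => W _ _ (by unfold In Box; omega) (rc_b (by omega) (by omega) (by omega)))
  exact s1.trans (s2.trans (s3.trans (s4.trans (s5.trans
    (svW_in (W _ _ (by unfold In Box; omega) (rc_b (by omega) (by omega) (by omega)))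
      (B _ _ (by unfold In Box; omega) (rc_o (by omega) (by omega))))))))

/-- from the left side to the ray `s0` -/
theorem se_in (hc : D.c0 = false) (hb : D.cb = true) :
    Fw w D.S (sv D.X1 (D.Y1 - 1) false) (sv D.X2 D.s0 true) := by
  have a1 := D.h1; have a2 := D.h2; have a3 := D.h3; have a4 := D.h4; have a5 := D.hX
  have W : ∀ x y, D.In x y → D.rc x y = D.c0 → Wt w D.S x y := fun x y i c => wt h i (c.trans hc)
  have B : ∀ x y, D.In x y → D.rc x y = D.cb → Bt w D.S x y := fun x y i c => bt h i (c.trans hb)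
  have s5 : Fw w D.S (sv D.X1 (D.Y1 - 1) false) (he (D.X1, D.Y1 - 1)) :=
    svE_out (B _ _ (by unfold In Box; omega) (rc_b (by omega) (by omega) (by omega)))
      (W _ _ (by unfold In Box; omega) (rc_o (by omega) (by omega)))
  have s4 : Fw w D.S (he (D.X1, D.Y1 - 1)) (he (D.X2, D.Y1 - 1)) :=
    runE (by omega)
      (fun x i j => B _ _ (by unfold In Box; omega) (rc_b (by omega) (by omega) (by omega)))
      (fun x i j => W _ _ (by unfold In Box; omega) (rc_o (by omega) (by omega)))
  have s3 : Fw w D.S (he (D.X2, D.Y1 - 1)) (ve (D.X2 + 1, D.Y1 - 1)) := by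
    have := tEN (w := w) (S := D.S) (x := D.X2 + 1) (y := D.Y1 - 1)
      (W _ _ (by unfold In Box; omega) (rc_o (by omega) (by omega)))
      (by rw [add_sub_cancel_right]
          exact B _ _ (by unfold In Box; omega) (rc_b le_rfl (by omega) (by omega)))
      (by rw [add_sub_cancel_right]; exact W _ _ (by unfold In Box; omega) (rc_o (by omega) (by omega)))
      (W _ _ (by unfold In Box; omega) (rc_o (by omega) (by omega)))
    rwa [add_sub_cancel_right] at this
  have s2 : Fw w D.S (ve (D.X2 + 1, D.Y1 - 1)) (ve (D.X2 + 1, D.s0 - 1)) :=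
    runN (by omega)
      (fun y i j => by
        rw [add_sub_cancel_right]
        exact B _ _ (by unfold In Box; omega) (rc_b le_rfl (by omega) (by omega)))
      (fun y i j => W _ _ (by unfold In Box; omega) (rc_o (by omega) (by omega)))
  have s1 : Fw w D.S (ve (D.X2 + 1, D.s0 - 1)) (he (D.X2, D.s0)) := by
    have := tNW (w := w) (S := D.S) (x := D.X2 + 1) (y := D.s0)
      (W _ _ (by unfold In Box; omega) (rc_r le_rfl (by omega)))
      (by rw [add_sub_cancel_right]; exact W _ _ (by unfold In Box; omega) (rc_r le_rfl (by omega)))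
      (by rw [add_sub_cancel_right]
          exact B _ _ (by unfold In Box; omega) (rc_b le_rfl (by omega) (by omega)))
      (W _ _ (by unfold In Box; omega) (rc_o (by omega) (by omega)))
    rwa [add_sub_cancel_right] at this
  exact s5.trans (s4.trans (s3.trans (s2.trans (s1.trans
    (svW_in (W _ _ (by unfold In Box; omega) (rc_r le_rfl (by omega)))
      (B _ _ (by unfold In Box; omega) (rc_b le_rfl (by omega) (by omega))))))))

/-! ### NE -/

/-- from the ray `n0` to the left side -/
theorem ne_out (hc : D.c0 = true) (ht : D.ct = true) :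
    Fw w D.S (sv D.X2 D.n0 false) (sv D.X1 (D.Y2 + 1) true) := by
  have a1 := D.h1; have a2 := D.h2; have a3 := D.h3; have a4 := D.h4; have a5 := D.hX
  have W : ∀ x y, D.In x y → D.rc x y = !D.c0 → Wt w D.S x y := fun x y i c =>
    wt h i (c.trans (by rw [hc]; rfl))
  have B : ∀ x y, D.In x y → D.rc x y = D.ct → Bt w D.S x y := fun x y i c => bt h i (c.trans ht)
  have s1 : Fw w D.S (sv D.X2 D.n0 false) (he (D.X2, D.n0)) :=
    svE_out (B _ _ (by unfold In Box; omega) (rc_t le_rfl le_rfl (by omega)))
      (W _ _ (by unfold In Box; omega) (rc_q (by omega) (by omega)))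
  have s2 : Fw w D.S (he (D.X2, D.n0)) (ve (D.X2 + 1, D.n0)) := by
    have := tEN (w := w) (S := D.S) (x := D.X2 + 1) (y := D.n0)
      (W _ _ (by unfold In Box; omega) (rc_p (by omega) (by omega)))
      (by rw [add_sub_cancel_right]
          exact B _ _ (by unfold In Box; omega) (rc_t le_rfl le_rfl (by omega)))
      (by rw [add_sub_cancel_right]; exact W _ _ (by unfold In Box; omega) (rc_q (by omega) (by omega)))
      (W _ _ (by unfold In Box; omega) (rc_q (by omega) (by omega)))
    rwa [add_sub_cancel_right] at this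
  have s3 : Fw w D.S (ve (D.X2 + 1, D.n0)) (ve (D.X2 + 1, D.Y2)) :=
    runN (by omega)
      (fun y i j => by
        rw [add_sub_cancel_right]
        exact B _ _ (by unfold In Box; omega) (rc_t le_rfl (by omega) (by omega)))
      (fun y i j => W _ _ (by unfold In Box; omega) (rc_p (by omega) (by omega)))
  have s4 : Fw w D.S (ve (D.X2 + 1, D.Y2)) (he (D.X2, D.Y2 + 1)) := by
    have := tNW (w := w) (S := D.S) (x := D.X2 + 1) (y := D.Y2 + 1)
      (W _ _ (by unfold In Box; omega) (rc_p (by omega) (by omega)))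
      (by rw [add_sub_cancel_right]; exact W _ _ (by unfold In Box; omega) (rc_p (by omega) (by omega)))
      (by rw [add_sub_cancel_right, add_sub_cancel_right]
          exact B _ _ (by unfold In Box; omega) (rc_t le_rfl (by omega) (by omega)))
      (by rw [add_sub_cancel_right]
          exact W _ _ (by unfold In Box; omega) (rc_p (by omega) (by omega)))
    rwa [add_sub_cancel_right, add_sub_cancel_right] at this
  have s5 : Fw w D.S (he (D.X2, D.Y2 + 1)) (he (D.X1, D.Y2 + 1)) :=
    runW (by omega)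
      (fun x i j => by
        rw [add_sub_cancel_right]
        exact B _ _ (by unfold In Box; omega) (rc_t (by omega) (by omega) (by omega)))
      (fun x i j => W _ _ (by unfold In Box; omega) (rc_p (by omega) (by omega)))
  refine s1.trans (s2.trans (s3.trans (s4.trans (s5.trans
    (svW_in (W _ _ (by unfold In Box; omega) (rc_p (by omega) (by omega))) ?_)))))
  rw [add_sub_cancel_right]
  exact B _ _ (by unfold In Box; omega) (rc_t (by omega) (by omega) (by omega))

/-- from the left side to the ray `n0` -/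
theorem ne_in (hc : D.c0 = false) (ht : D.ct = false) :
    Fw w D.S (sv D.X1 (D.Y2 + 1) false) (sv D.X2 D.n0 true) := by
  have a1 := D.h1; have a2 := D.h2; have a3 := D.h3; have a4 := D.h4; have a5 := D.hX
  have B : ∀ x y, D.In x y → D.rc x y = !D.c0 → Bt w D.S x y := fun x y i c =>
    bt h i (c.trans (by rw [hc]; rfl))
  have W : ∀ x y, D.In x y → D.rc x y = D.ct → Wt w D.S x y := fun x y i c => wt h i (c.trans ht)
  have s5 : Fw w D.S (sv D.X1 (D.Y2 + 1) false) (he (D.X1, D.Y2 + 1)) :=
    svE_out (B _ _ (by unfold In Box; omega) (rc_p (by omega) (by omega)))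
      (by rw [add_sub_cancel_right]
          exact W _ _ (by unfold In Box; omega) (rc_t (by omega) (by omega) (by omega)))
  have s4 : Fw w D.S (he (D.X1, D.Y2 + 1)) (he (D.X2, D.Y2 + 1)) :=
    runE (by omega)
      (fun x i j => B _ _ (by unfold In Box; omega) (rc_p (by omega) (by omega)))
      (fun x i j => by
        rw [add_sub_cancel_right]
        exact W _ _ (by unfold In Box; omega) (rc_t (by omega) (by omega) (by omega)))
  have s3 : Fw w D.S (he (D.X2, D.Y2 + 1)) (ve (D.X2 + 1, D.Y2)) := by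
    have := tES (w := w) (S := D.S) (x := D.X2 + 1) (y := D.Y2 + 1)
      (B _ _ (by unfold In Box; omega) (rc_p (by omega) (by omega)))
      (by rw [add_sub_cancel_right]; exact B _ _ (by unfold In Box; omega) (rc_p (by omega) (by omega)))
      (by rw [add_sub_cancel_right, add_sub_cancel_right]
          exact W _ _ (by unfold In Box; omega) (rc_t le_rfl (by omega) (by omega)))
      (by rw [add_sub_cancel_right]
          exact B _ _ (by unfold In Box; omega) (rc_p (by omega) (by omega)))
    rwa [add_sub_cancel_right, add_sub_cancel_right] at this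
  have s2 : Fw w D.S (ve (D.X2 + 1, D.Y2)) (ve (D.X2 + 1, D.n0)) :=
    runS (by omega)
      (fun y i j => B _ _ (by unfold In Box; omega) (rc_p (by omega) (by omega)))
      (fun y i j => by
        rw [add_sub_cancel_right]
        exact W _ _ (by unfold In Box; omega) (rc_t le_rfl (by omega) (by omega)))
  have s1 : Fw w D.S (ve (D.X2 + 1, D.n0)) (he (D.X2, D.n0)) := by
    have := tSW (w := w) (S := D.S) (x := D.X2 + 1) (y := D.n0)
      (B _ _ (by unfold In Box; omega) (rc_p (by omega) (by omega)))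
      (by rw [add_sub_cancel_right]
          exact W _ _ (by unfold In Box; omega) (rc_t le_rfl le_rfl (by omega)))
      (by rw [add_sub_cancel_right]; exact B _ _ (by unfold In Box; omega) (rc_q (by omega) (by omega)))
      (B _ _ (by unfold In Box; omega) (rc_q (by omega) (by omega)))
    rwa [add_sub_cancel_right] at this
  exact s5.trans (s4.trans (s3.trans (s2.trans (s1.trans
    (svW_in (W _ _ (by unfold In Box; omega) (rc_t le_rfl le_rfl (by omega)))
      (B _ _ (by unfold In Box; omega) (rc_q (by omega) (by omega))))))))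

/-! ### The exit -/

theorem ex_out1 (hc : D.c0 = false) : Fw w D.S (sv D.X2 D.e false) (he (D.X2, D.e)) := by
  have a1 := D.h1; have a2 := D.h2; have a3 := D.h3; have a4 := D.h4; have a5 := D.hX
  exact svE_out (bt h (by unfold In Box; omega) (by rw [rc_q le_rfl (by omega), hc]; rfl))
    (wt h (by unfold In Box; omega) (by rw [rc_r (by omega) (by omega), hc]))

theorem ex_out2 (hc : D.c0 = false) : Fw w D.S (he (D.X2, D.e)) (he (D.X2 + 1, D.e)) := by
  have a1 := D.h1; have a2 := D.h2; have a3 := D.h3; have a4 := D.h4; have a5 := D.hX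
  exact runE (by omega)
    (fun x i j => bt h (by unfold In Box; omega) (by rw [rc_q le_rfl (by omega), hc]; rfl))
    (fun x i j => wt h (by unfold In Box; omega) (by rw [rc_r (by omega) (by omega), hc]))

theorem ex_in1 (hc : D.c0 = true) : Fw w D.S (he (D.X2, D.e)) (sv D.X2 D.e true) := by
  have a1 := D.h1; have a2 := D.h2; have a3 := D.h3; have a4 := D.h4; have a5 := D.hX
  exact svW_in (wt h (by unfold In Box; omega) (by rw [rc_q le_rfl (by omega), hc]; rfl))
    (bt h (by unfold In Box; omega) (by rw [rc_r (by omega) (by omega), hc]))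

theorem ex_in2 (hc : D.c0 = true) : Fw w D.S (he (D.X2 + 1, D.e)) (he (D.X2, D.e)) := by
  have a1 := D.h1; have a2 := D.h2; have a3 := D.h3; have a4 := D.h4; have a5 := D.hX
  exact runW (by omega)
    (fun x i j => bt h (by unfold In Box; omega) (by rw [rc_r (by omega) (by omega), hc]))
    (fun x i j => wt h (by unfold In Box; omega) (by rw [rc_q le_rfl (by omega), hc]; rfl))

end

end Rg

end Pool.Agent.H85.W
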