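import Mathlib
import Pool.Agent.H85.W.Ring
import Pool.Agent.H85.W.Real2

set_option autoImplicit false
open Finset

/-! # The outside of a box: ring and links

`Ow` : ring `Rg` (rays `s0`, `e`, `n0` on the right side of the box) and links `Lnk` around the ring. Marks are
integers: a left ray `y = m`, `Y1 ≤ m ≤ Y2`; `Y1 - 1` : the ray `s0`; `Y2 + 1` : the ray `n0`. `lc` : colours of the
left side with the two turned rays. `bes m` : the side of the box at the mark `m`. `Full w` : the labels of `w`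
outside of the box are the ones of the outside.

`link_b`, `link_w` : the pairs of `P`; `exit_w` (`c0 = false`), `exit_b` (`c0 = true`) : the exit; `tgt p` : a corner
on the strand of the pair `p`; `dco_tgt` : if `p` is not enclosed then the faces of `tgt p` and of the corner
`he (X2, e)` next to the exit are joined by closed tiles outside of the box. -/

namespace Pool.Agent.H85.W

open Pool.Agent.H75.Perc Pool.Agent.H75.TwoArm Pool.Agent.H33.Q1
open Pool.Agent.H74.R45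
open Pool.Agent.Q1 (DCo)

/-- **Data of the outside.** -/
structure Ow extends Rg where
  k : ℤ
  P : Finset (ℤ × ℤ)
  lc : ℤ → Bool
  k1 : Y1 - 2 ≤ k
  k2 : k ≤ Y2 + 2
  lt' : ∀ p ∈ P, p.1 < p.2
  b1 : ∀ p ∈ P, Y1 - 2 ≤ p.1
  b2 : ∀ p ∈ P, p.2 ≤ Y2 + 2
  nk : ∀ p ∈ P, k < p.1 ∨ p.2 < k
  nc : ∀ p ∈ P, ∀ q ∈ P, p = q ∨ p.2 < q.1 ∨ q.2 < p.1 ∨ (p.1 < q.1 ∧ q.2 < p.2) ∨
    (q.1 < p.1 ∧ p.2 < q.2)
  l0 : lc (Y1 - 3) = c0
  l1 : lc (Y1 - 2) = c0
  l2 : lc (Y1 - 1) = cb
  l3 : lc Y2 = ct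
  l4 : lc (Y2 + 1) = !c0
  hM : ∀ y, Y1 - 2 ≤ y → y ≤ Y2 + 2 → (lc (y - 1) ≠ lc y ↔ (y = k ∨ ∃ p ∈ P, y = p.1 ∨ y = p.2))

namespace Ow

variable (D : Ow)

/-- the links around the ring -/
def L : Lnk where
  X1 := D.X1
  X2 := D.X2 + 2
  Y1 := D.Y1 - 2
  Y2 := D.Y2 + 2
  up := !D.c0
  k := D.k
  e := D.e
  P := D.P
  hX := by have := D.hX; omega
  hY := by have := D.h1; have := D.h2; have := D.h3; have := D.h4; omega
  k1 := D.k1
  k2 := D.k2
  e1 := by have := D.h1; have := D.h2; omega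
  e2 := by have := D.h3; have := D.h4; omega
  lt' := D.lt'
  b1 := D.b1
  b2 := D.b2
  nk := D.nk
  nc := D.nc

lemma col : D.L.Col D.lc where
  h0 := by
    have : D.lc (D.Y1 - 2 - 1) = !!D.c0 := by
      rw [Bool.not_not, show D.Y1 - 2 - 1 = D.Y1 - 3 by ring]; exact D.l0
    exact this
  hM := D.hM

open Classical in
/-- colours outside of the box -/
noncomputable def cc (x y : ℤ) : Bool := if D.L.Box x y then D.rc x y else decide (Odd (D.L.N x y))

/-- the labels outside of the box are the ones of the outside -/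
def Full (w : Finset (ℤ × ℤ)) : Prop := ∀ x y, ¬ D.Box x y → (lt (x, y) ∈ w ↔ D.cc x y = true)

/-- the side of the box at the mark `m` -/
def bes (m : ℤ) : ℤ × ℤ :=
  if m = D.Y1 - 1 then sv D.X2 D.s0 D.cb
  else if m = D.Y2 + 1 then sv D.X2 D.n0 (!D.c0) else sv D.X1 m (D.lc (m - 1))

/-- a corner on the strand of the pair -/
def tgt (p : ℤ × ℤ) : ℤ × ℤ := ve (D.X1 - (p.2 - p.1), p.1)

/-- the corner next to the exit -/
def rt : ℤ × ℤ := he (D.X2, D.e)

variable {D} {w G : Finset (ℤ × ℤ)} {x y m : ℤ} {p : ℤ × ℤ}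

lemma box_L (h : D.Box x y) : D.L.Box x y := by
  obtain ⟨h1, h2, h3, h4⟩ := h
  show D.X1 ≤ x ∧ x < D.X2 + 2 ∧ D.Y1 - 2 ≤ y ∧ y < D.Y2 + 2
  omega

lemma L_S : D.L.S ⊆ D.S := fun _ he h => he (box_L h)

lemma Full.lab (h : D.Full w) : D.toRg.Lab w := by
  intro x y hi
  rw [h x y hi.2.2.2.2]
  unfold cc
  rw [if_pos]
  exact ⟨hi.1, hi.2.1, hi.2.2.1, hi.2.2.2.1⟩

lemma Full.labL (h : D.Full w) : D.L.Lab w := by
  intro x y hi
  rw [h x y fun hb => hi (box_L hb)]
  unfold cc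
  rw [if_neg hi, decide_eq_true_iff]

/-- from the box to the left side -/
lemma bes_out (h : D.Full w) (hl : D.lc (m - 1) = true)
    (hm : m = D.Y1 - 1 ∨ m = D.Y2 + 1 → D.lc (m - 1) ≠ D.lc m) :
    Fw w D.S (D.bes m) (sv D.X1 m true) := by
  have a1 := D.h1; have a2 := D.h2; have a3 := D.h3; have a4 := D.h4
  unfold bes
  by_cases e1 : m = D.Y1 - 1
  · have h1 := hm (Or.inl e1)
    rw [if_pos e1]
    subst e1
    rw [show D.Y1 - 1 - 1 = D.Y1 - 2 by ring, D.l1] at hl h1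
    rw [D.l2, hl] at h1
    have hb : D.cb = false := by cases h : D.cb; · rfl
                                 · rw [h] at h1; exact absurd rfl h1
    rw [hb]
    exact Rg.se_out h.lab hl hb
  · rw [if_neg e1]
    by_cases e2 : m = D.Y2 + 1
    · have h1 := hm (Or.inr e2)
      rw [if_pos e2]
      subst e2
      rw [add_sub_cancel_right, D.l3] at hl h1
      rw [D.l4, hl] at h1
      have hb : D.c0 = true := by
        cases h : D.c0
        · rw [h] at h1; exact absurd rfl h1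
        · rfl
      rw [hb]
      exact Rg.ne_out h.lab hb hl
    · rw [if_neg e2, hl]; exact Fw.refl _ _ _

/-- from the left side to the box -/
lemma bes_in (h : D.Full w) (hl : D.lc (m - 1) = false)
    (hm : m = D.Y1 - 1 ∨ m = D.Y2 + 1 → D.lc (m - 1) ≠ D.lc m) :
    Fw w D.S (sv D.X1 m false) (D.bes m) := by
  have a1 := D.h1; have a2 := D.h2; have a3 := D.h3; have a4 := D.h4
  unfold bes
  by_cases e1 : m = D.Y1 - 1
  · have h1 := hm (Or.inl e1)
    rw [if_pos e1]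
    subst e1
    rw [show D.Y1 - 1 - 1 = D.Y1 - 2 by ring, D.l1] at hl h1
    rw [D.l2, hl] at h1
    have hb : D.cb = true := by cases h : D.cb; · rw [h] at h1; exact absurd rfl h1
                                · rfl
    rw [hb]
    exact Rg.se_in h.lab hl hb
  · rw [if_neg e1]
    by_cases e2 : m = D.Y2 + 1
    · have h1 := hm (Or.inr e2)
      rw [if_pos e2]
      subst e2
      rw [add_sub_cancel_right, D.l3] at hl h1
      rw [D.l4, hl] at h1
      have hb : D.c0 = false := by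
        cases h : D.c0
        · rfl
        · rw [h] at h1; exact absurd rfl h1
      rw [hb]
      exact Rg.ne_in h.lab hb hl
    · rw [if_neg e2, hl]; exact Fw.refl _ _ _

lemma mk_of (hm : m = D.k ∨ ∃ p ∈ D.P, m = p.1 ∨ m = p.2) : D.lc (m - 1) ≠ D.lc m := by
  refine (D.hM m ?_ ?_).2 hm
  · rcases hm with rfl | ⟨p, hp, rfl | rfl⟩
    · exact D.k1
    · exact D.b1 p hp
    · have := D.b1 p hp; have := D.lt' p hp; omega
  · rcases hm with rfl | ⟨p, hp, rfl | rfl⟩
    · exact D.k2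
    · have := D.b2 p hp; have := D.lt' p hp; omega
    · exact D.b2 p hp

/-- **a pair, open inside** : the strand leaves the box at `p.2`, passes the corner `tgt p` and returns at `p.1` -/
theorem link_b (h : D.Full w) (hp : p ∈ D.P) (hl : D.lc p.1 = true) :
    Fw w D.S (D.bes p.2) (D.tgt p) ∧ Fw w D.S (D.tgt p) (D.bes p.1) := by
  obtain ⟨c1, c2, c3⟩ := D.col.cols hp
  rw [hl] at c1 c2 c3
  obtain ⟨f1, f2⟩ := D.col.pair_b h.labL hp hl
  refine ⟨(bes_out h c2 fun _ => mk_of (Or.inr ⟨p, hp, Or.inr rfl⟩)).trans (f1.mono L_S),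
    (f2.mono L_S).trans (bes_in h c1 fun _ => mk_of (Or.inr ⟨p, hp, Or.inl rfl⟩))⟩

/-- **a pair, closed inside** : the strand leaves the box at `p.1` and returns at `p.2` -/
theorem link_w (h : D.Full w) (hp : p ∈ D.P) (hl : D.lc p.1 = false) :
    Fw w D.S (D.bes p.1) (D.bes p.2) := by
  obtain ⟨c1, c2, c3⟩ := D.col.cols hp
  rw [hl] at c1 c2 c3
  exact ((bes_out h c1 fun _ => mk_of (Or.inr ⟨p, hp, Or.inl rfl⟩)).trans
    ((D.col.pair_w h.labL hp hl).mono L_S)).trans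
      (bes_in h c2 fun _ => mk_of (Or.inr ⟨p, hp, Or.inr rfl⟩))

/-- the colour below the mark `k` -/
lemma lc_k : D.lc (D.k - 1) = D.c0 := by
  have a1 := D.h1; have a2 := D.h2; have a3 := D.h3; have a4 := D.h4
  have h1 : D.L.Y1 - 1 ≤ D.k - 1 := by have : D.L.Y1 = D.Y1 - 2 := rfl; have := D.k1; omega
  have h2 : D.k - 1 ≤ D.L.Y2 := by have : D.L.Y2 = D.Y2 + 2 := rfl; have := D.k2; omega
  have h3 := D.col.odd h1 h2
  rw [Lnk.N_cap (Lnk.not_Rp_of (by
    have : D.L.k = D.k := rfl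
    omega))] at h3
  have e1 : D.L.up = !D.c0 := rfl
  have e2 : D.L.X1 = D.X1 := rfl
  have e3 : D.L.k = D.k := rfl
  have e4 := D.L.hY
  have e5 := D.L.hX
  have e6 := D.L.k2
  unfold Lnk.Cp at h3
  rw [e1] at h3
  cases hc : D.c0
  · rw [hc] at h3
    simp only [Bool.not_false, if_true] at h3
    cases h4 : D.lc (D.k - 1)
    · rfl
    · have := h3.2 h4
      unfold Lnk.CU at this
      omega
  · rw [hc] at h3
    simp only [Bool.not_true, Bool.false_eq_true, if_false] at h3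
    refine h3.1 ?_
    unfold Lnk.CD Lnk.dd
    omega

/-- the right tiles next to the ring -/
lemma right_tile (h : D.Full w) (h1 : D.Y1 - 2 ≤ y) (h2 : y < D.Y2 + 2) :
    lt (D.X2 + 2, y) ∈ w ↔ (if y < D.e then D.c0 = true else D.c0 = false) := by
  have e1 : D.L.up = !D.c0 := rfl
  have e2 : D.L.X2 = D.X2 + 2 := rfl
  have e3 : D.L.e = D.e := rfl
  have e4 : D.L.Y1 = D.Y1 - 2 := rfl
  have e5 : D.L.Y2 = D.Y2 + 2 := rfl
  have e6 := D.L.hY
  have hd : D.L.dd = D.L.Y2 - D.L.Y1 + 1 := rfl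
  rw [h.labL _ _ (by unfold Lnk.Box; omega), Lnk.N_right (by omega) (by omega) (by omega) (by omega),
    e1, e3]
  cases D.c0
  · simp only [Bool.not_false, if_true, Bool.false_eq_true]
    split_ifs <;> simp <;> omega
  · simp only [Bool.not_true, if_false, Bool.false_eq_true]
    split_ifs <;> simp <;> omega

lemma S_right (h1 : D.X2 ≤ x) : lt (x, y) ∈ D.S := by
  rw [Rg.mem_S]; unfold Rg.Box; omega

/-- **the exit, closed below it** -/
theorem exit_w (h : D.Full w) (hc : D.c0 = false) :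
    Fw w D.S (sv D.X2 D.e false) D.rt ∧ Fw w D.S D.rt (D.bes D.k) := by
  have a1 := D.h1; have a2 := D.h2; have a3 := D.h3; have a4 := D.h4; have a5 := D.hX
  refine ⟨Rg.ex_out1 h.lab hc, (Rg.ex_out2 h.lab hc).trans ?_⟩
  have t0 : Bt w D.S (D.X2 + 2) D.e :=
    ⟨(right_tile h (by omega) (by omega)).2 (by rw [if_neg (by omega)]; exact hc), S_right (by omega)⟩
  have t1 : Wt w D.S (D.X2 + 2) (D.e - 1) :=
    ⟨fun h' => by
      have := (right_tile h (by omega) (by omega)).1 h'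
      rw [if_pos (by omega), hc] at this
      exact absurd this (by decide), S_right (by omega)⟩
  have t2 : Bt w D.S (D.X2 + 2 - 1) D.e :=
    Rg.bt h.lab (by unfold Rg.In Rg.Box; omega) (by rw [Rg.rc_q le_rfl (by omega), hc]; rfl)
  have t3 : Wt w D.S (D.X2 + 2 - 1) (D.e - 1) :=
    Rg.wt h.lab (by unfold Rg.In Rg.Box; omega) (by rw [Rg.rc_r (by omega) (by omega), hc])
  have s := goE t0 t2 t3 t1
  rw [show D.X2 + 2 - 1 = D.X2 + 1 by ring] at s
  refine s.trans (((Lnk.exit_up h.labL (show (!D.c0) = true by rw [hc]; rfl)).mono L_S).trans ?_)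
  exact bes_in h (by rw [← hc]; exact lc_k) fun _ => mk_of (Or.inl rfl)

/-- **the exit, open below it** -/
theorem exit_b (h : D.Full w) (hc : D.c0 = true) :
    Fw w D.S (D.bes D.k) D.rt ∧ Fw w D.S D.rt (sv D.X2 D.e true) := by
  have a1 := D.h1; have a2 := D.h2; have a3 := D.h3; have a4 := D.h4; have a5 := D.hX
  refine ⟨Fw.trans ?_ (Rg.ex_in2 h.lab hc), Rg.ex_in1 h.lab hc⟩
  have t0 : Wt w D.S (D.X2 + 2) D.e :=
    ⟨fun h' => by
      have := (right_tile h (by omega) (by omega)).1 h'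
      rw [if_neg (by omega), hc] at this
      exact absurd this (by decide), S_right (by omega)⟩
  have t1 : Bt w D.S (D.X2 + 2) (D.e - 1) :=
    ⟨(right_tile h (by omega) (by omega)).2 (by rw [if_pos (by omega)]; exact hc), S_right (by omega)⟩
  have t2 : Wt w D.S (D.X2 + 2 - 1) D.e :=
    Rg.wt h.lab (by unfold Rg.In Rg.Box; omega) (by rw [Rg.rc_q le_rfl (by omega), hc]; rfl)
  have t3 : Bt w D.S (D.X2 + 2 - 1) (D.e - 1) :=
    Rg.bt h.lab (by unfold Rg.In Rg.Box; omega) (by rw [Rg.rc_r (by omega) (by omega), hc])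
  have s := goW t0 t2 t3 t1
  rw [show D.X2 + 2 - 1 = D.X2 + 1 by ring] at s
  refine Fw.trans ?_ s
  refine Fw.trans ?_ ((Lnk.exit_dn h.labL (show (!D.c0) = false by rw [hc]; rfl)).mono L_S)
  exact bes_out h (by rw [← hc]; exact lc_k) fun _ => mk_of (Or.inl rfl)

/-! ### Dual paths -/

/-- the labels of `G` outside of the box are open -/
def Sub (D : Ow) (G : Finset (ℤ × ℤ)) : Prop := ∀ x y, ¬ D.Box x y → lt (x, y) ∈ G → D.cc x y = true

lemma Full.sub (h : D.Full w) : D.Sub w := fun x y hb he => (h x y hb).1 he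

lemma cc_L (h : ¬ D.L.Box x y) (hN : ¬ Odd (D.L.N x y)) : D.cc x y = false := by
  unfold cc; rw [if_neg h, decide_eq_false_iff_not]; exact hN

/-- the closed row to the east of the exit -/
lemma cc_exit (h1 : D.X2 ≤ x) (h2 : y = if D.c0 then D.e else D.e - 1) : D.cc x y = false := by
  have a1 := D.h1; have a2 := D.h2; have a3 := D.h3; have a4 := D.h4; have a5 := D.hX
  have hy : y = D.e ∨ y = D.e - 1 := by rw [h2]; split_ifs <;> simp
  by_cases h : D.L.Box x y
  · unfold cc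
    rw [if_pos h]
    cases hc : D.c0
    · rw [hc] at h2
      simp only [Bool.false_eq_true, if_false] at h2
      rw [Rg.rc_r (by omega) (by omega), hc]
    · rw [hc] at h2
      simp only [if_true] at h2
      rw [Rg.rc_q (by omega) (by omega), hc]; rfl
  · refine cc_L h (Lnk.N_exit ?_ ?_)
    · have e1 : D.L.X2 = D.X2 + 2 := rfl
      have e2 : D.L.X1 = D.X1 := rfl
      have e3 : D.L.Y1 = D.Y1 - 2 := rfl
      have e4 : D.L.Y2 = D.Y2 + 2 := rfl
      unfold Lnk.Box at h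
      omega
    · have e1 : D.L.up = !D.c0 := rfl
      have e2 : D.L.e = D.e := rfl
      rw [h2, e1, e2]
      cases D.c0 <;> rfl

/-- a dual path from the exit to the east -/
lemma dco_rt (hG : D.Sub G) (h1 : D.X2 + 1 ≤ x) :
    DCo G (fi D.rt) (fi (ve (x, if D.c0 then D.e else D.e - 1))) := by
  set y := if D.c0 then D.e else D.e - 1 with hy
  have hy' : y = D.e ∨ y = D.e - 1 := by rw [hy]; split_ifs <;> simp
  have hout : ∀ x, D.X2 ≤ x → lt (x, y) ∉ G := by
    intro x hx h2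
    have := hG x y (by unfold Rg.Box; omega) h2
    rw [cc_exit hx hy] at this
    exact absurd this (by decide)
  have s := dco_strip (A := G) (y := y) (x0 := D.X2 + 1) (x1 := x) h1 fun x i _ => hout x (by omega)
  refine DCo.trans ?_ s
  unfold rt
  rcases Int.emod_two_eq_zero_or_one (D.X2 + D.e) with h | h
  · rcases hy' with e | e <;> rw [e]
    · rw [fi_he_ve1 h]; exact DCo.refl _ _
    · rw [fi_he_ve1' h]; exact DCo.refl _ _
  · have s2 := dco_ve (A := G) (x := D.X2) (y := y) (hout _ le_rfl)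
    rcases hy' with e | e <;> rw [e] at s2 ⊢
    · rw [fi_he_ve h]; exact s2
    · rw [fi_he_ve' h]; exact s2

/-- a dual path from a pair which is not enclosed to the west -/
lemma dco_tg (hG : D.Sub G) (hp : p ∈ D.P) (hn : ∀ q ∈ D.P, ¬ (q.1 < p.1 ∧ p.2 < q.2))
    (hk : if D.c0 then D.k < p.1 else p.2 < D.k) (h1 : x ≤ D.X1 - (p.2 - p.1)) :
    DCo G (fi (D.tgt p)) (fi (ve (x, p.1))) := by
  classical
  have a1 := D.lt' p hp
  have hen : D.L.en p = 0 := by
    have e0 : D.L.P = D.P := rfl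
    unfold Lnk.en
    rw [e0, filter_eq_empty_iff.2 fun q hq => hn q hq, card_empty, if_neg]
    have e1 : D.L.up = !D.c0 := rfl
    have e2 : D.L.k = D.k := rfl
    rw [e1, e2]
    cases hc : D.c0
    · rw [hc] at hk
      simp only [Bool.not_false, if_true, Bool.false_eq_true, if_false] at hk ⊢; omega
    · rw [hc] at hk
      simp only [Bool.not_true, if_true, Bool.false_eq_true, if_false] at hk ⊢; omega
  refine (dco_strip (A := G) (y := p.1) (x0 := x) (x1 := D.X1 - (p.2 - p.1)) h1 ?_).symm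
  intro x' h2 h3 h4
  have e1 : D.L.X1 = D.X1 := rfl
  have h5 := hG x' p.1 (by unfold Rg.Box; omega) h4
  rw [cc_L (by unfold Lnk.Box; omega)] at h5
  · exact absurd h5 (by decide)
  · rw [Lnk.N_tgt (L := D.L) hp hen (by omega)]; decide

/-- a box which contains a finite set of labels -/
lemma exists_bx (G : Finset (ℤ × ℤ)) (ho : ∀ e ∈ G, (e.1 + e.2) % 2 = 1) (v : ℤ × ℤ) : ∃ M : ℤ,
    1 ≤ M ∧ G ⊆ Bx (-M) M (-M) M ∧ inB (-M) M (-M) M v := by
  classical
  obtain ⟨M1, h1⟩ := ((G ∪ {v}).image fun e => |e.1|).exists_le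
  obtain ⟨M2, h2⟩ := ((G ∪ {v}).image fun e => |e.2|).exists_le
  have k1 : ∀ e ∈ G ∪ {v}, |e.1| ≤ M1 ∧ |e.2| ≤ M2 := fun e he =>
    ⟨h1 _ (mem_image_of_mem _ he), h2 _ (mem_image_of_mem _ he)⟩
  refine ⟨max 1 (max M1 M2), le_max_left _ _, fun e he => ?_, ?_⟩
  · obtain ⟨k2, k3⟩ := k1 e (mem_union_left _ he)
    rw [abs_le] at k2 k3
    rw [mem_Bx]
    refine ⟨?_, ?_, ho e he⟩ <;> omega
  · obtain ⟨k2, k3⟩ := k1 v (mem_union_right _ (mem_singleton_self _))
    rw [abs_le] at k2 k3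
    unfold inB
    omega

/-- **the faces of the target and of the root are joined** -/
theorem dco_tgt (hG : D.Sub G) (ho : ∀ e ∈ G, (e.1 + e.2) % 2 = 1) (hp : p ∈ D.P)
    (hn : ∀ q ∈ D.P, ¬ (q.1 < p.1 ∧ p.2 < q.2)) (hk : if D.c0 then D.k < p.1 else p.2 < D.k) :
    DCo G (fi (D.tgt p)) (fi D.rt) := by
  obtain ⟨M, -, hM, -⟩ := exists_bx G ho (0, 0)
  have hf : ∀ x y : ℤ, (2 * M + 3 + |y| ≤ x ∨ x ≤ -2 * M - 3 - |y|) →
      Pool.Agent.Q1.M6b.Gd.OutF (-M) M (-M) M (fi (ve (x, y))) := by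
    intro x y h
    unfold Pool.Agent.Q1.M6b.Gd.OutF fi ve
    simp only
    rcases abs_cases y with ⟨h1, _⟩ | ⟨h1, _⟩ <;> rw [h1] at h <;> omega
  set y1 := if D.c0 then D.e else D.e - 1
  have d1 := dco_rt hG (x := max (D.X2 + 1) (2 * M + 3 + |y1|)) (le_max_left _ _)
  have d2 := dco_tg hG hp hn hk (x := min (D.X1 - (p.2 - p.1)) (-2 * M - 3 - |p.1|)) (min_le_left _ _)
  have f1 := Pool.Agent.Q1.M6b.Gd.dco_outer hM (hf (max (D.X2 + 1) (2 * M + 3 + |y1|)) y1
    (Or.inl (le_max_right _ _)))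
  have f2 := Pool.Agent.Q1.M6b.Gd.dco_outer hM (hf (min (D.X1 - (p.2 - p.1)) (-2 * M - 3 - |p.1|)) p.1
    (Or.inr (min_le_right _ _)))
  exact ((d2.trans f2).trans f1.symm).trans d1.symm

/-- **a low face joined to the root** -/
theorem exists_low (hG : D.Sub G) (ho : ∀ e ∈ G, (e.1 + e.2) % 2 = 1) : ∃ g : ℤ × ℤ,
    DCo G (fi D.rt) g ∧ ∀ v, Co G (vx D.rt) v → g.2 < v.2 := by
  obtain ⟨M, -, hM, hv⟩ := exists_bx G ho (vx D.rt)
  have hf : ∀ x y : ℤ, 2 * M + 3 + |y| ≤ x →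
      Pool.Agent.Q1.M6b.Gd.OutF (-M) M (-M) M (fi (ve (x, y))) := by
    intro x y h
    unfold Pool.Agent.Q1.M6b.Gd.OutF fi ve
    simp only
    rcases abs_cases y with ⟨h1, _⟩ | ⟨h1, _⟩ <;> rw [h1] at h <;> omega
  set y1 := if D.c0 then D.e else D.e - 1
  have d1 := dco_rt hG (x := max (D.X2 + 1) (2 * M + 3 + |y1|)) (le_max_left _ _)
  have f1 := Pool.Agent.Q1.M6b.Gd.dco_outer hM (hf (max (D.X2 + 1) (2 * M + 3 + |y1|)) y1
    (le_max_right _ _))
  refine ⟨(-M, -M - 1), d1.trans f1, fun v hco => ?_⟩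
  have := hco.inB hM hv
  unfold inB at this
  simp only
  omega

end Ow

end Pool.Agent.H85.W
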