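import Mathlib
import Pool.Agent.H85.W.Ow
import Pool.Agent.H20.W.SDef
import Pool.Agent.H54.W.RoomBox

set_option autoImplicit false
open Finset

/-! # The outside of the box of a room: instance of `Ow` for a planar matching of the marks

`θ : Th C c0` (helper20), box and sides of helper54 (`RoomBox`). `BP` : the box; `(X2 + r) % 2 = 0` if `c0`, `= 1`
otherwise; exit ray `e = r` or `e = r + 1`. `kk` : the unmatched mark which is joined to the exit, `pq` : the two other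
unmatched marks, joined to each other through the target corner. `hgt` : marks of helper20 to marks of `Ow`. -/

namespace Pool.Agent.H85.W

open Pool.Agent.H75.Perc Pool.Agent.H75.TwoArm Pool.Agent.H33.Q1
open Pool.Agent.H74.R45
open Pool.Agent.H54.W (CD NE Win Out lah Zb mem_Zb)
open Pool.Agent.H21.W (ladt fillC RP)
open Pool.Agent.H20.W (Th Mk col crz)
open Pool.Agent.H13.W (SG eW)
open Pool.Agent.Q1 (DCo)

lemma sv_eq_lah (X Y : ℤ) (s : Bool) : sv X Y s = lah X Y (ladt s X Y) := by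
  have e0 : ∀ x y : ℤ, ve (x, y) = eW (lt (x, y)) := fun x y => rfl
  unfold lah ladt
  cases s
  · rcases Int.emod_two_eq_zero_or_one (X + Y) with h | h
    · rw [sv_false_even h, h, e0]; rfl
    · rw [sv_false_odd h, h, e0]; rfl
  · rcases Int.emod_two_eq_zero_or_one (X + Y) with h | h
    · rw [sv_true_even h, h, e0]; rfl
    · rw [sv_true_odd h, h, e0]; rfl

/-- **The box.** -/
structure BP (C : CD) (c0 : Bool) where
  n : ℤ
  r : ℤ
  e : ℤ
  X1 : ℤ
  X2 : ℤ
  Y1 : ℤ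
  Y2 : ℤ
  hn : 8 ≤ n
  he : n % 2 = 0
  x1 : X1 + 2 ≤ n * C.LO
  x2 : n * C.W + 1 < X2
  y1 : Y1 ≤ -2
  y2 : n * C.H + 1 < Y2
  r0 : 0 < r
  r1 : r + 1 < n * C.H
  er : e = r ∨ e = r + 1
  par : (X2 + r) % 2 = if c0 then 0 else 1

/-! ### Index pairs -/

section idx

variable {C : CD} {c0 : Bool} (θ : Th C c0)

/-- the unmatched mark joined to the exit -/
def kk : ℤ := if c0 then θ.x 2 else θ.x 0

/-- the two other unmatched marks -/
def pq : ℤ × ℤ := if c0 then (θ.x 1, θ.x 0) else (θ.x 2, θ.x 1)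

open Classical in
/-- the pairs of marks -/
noncomputable def P0 : Finset (ℤ × ℤ) :=
  insert (pq θ) (((Icc (-1) (C.H + 1)).filter fun k => Mk C c0 k ∧ k < θ.m k).image fun k => (k, θ.m k))

variable {θ}

lemma mem_P0 {p : ℤ × ℤ} : p ∈ P0 θ ↔ p = pq θ ∨ (Mk C c0 p.1 ∧ p.1 < p.2 ∧ p.2 = θ.m p.1) := by
  classical
  unfold P0
  simp only [mem_insert, mem_image, mem_filter, mem_Icc]
  constructor
  · rintro (h | ⟨k, ⟨-, h1, h2⟩, rfl⟩)
    · exact Or.inl h
    · exact Or.inr ⟨h1, h2, rfl⟩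
  · rintro (h | ⟨h1, h2, h3⟩)
    · exact Or.inl h
    · exact Or.inr ⟨p.1, ⟨⟨h1.1, h1.2.1⟩, h1, by rw [← h3]; exact h2⟩, Prod.ext rfl h3.symm⟩

lemma kk_mk : Mk C c0 (kk θ) := by
  unfold kk; split_ifs <;> exact θ.xm _

lemma pq_mk : Mk C c0 (pq θ).1 ∧ Mk C c0 (pq θ).2 := by
  unfold pq; split_ifs <;> exact ⟨θ.xm _, θ.xm _⟩

lemma pq_lt : (pq θ).1 < (pq θ).2 := by
  unfold pq; split_ifs
  · exact θ.ord.2
  · exact θ.ord.1

lemma pq_nk : if c0 then kk θ < (pq θ).1 else (pq θ).2 < kk θ := by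
  have h := θ.ord
  unfold kk pq
  split_ifs <;> simp only <;> omega

/-- a matched mark is not one of the `x j` -/
lemma ne_x {k : ℤ} (hk : Mk C c0 k) (h : θ.m k ≠ k) (j : Fin 3) : k ≠ θ.x j ∧ θ.m k ≠ θ.x j := by
  constructor
  · intro e
    exact h ((θ.fx k hk).2 ⟨j, e⟩)
  · intro e
    have h1 := (θ.fx _ (θ.mm k hk)).2 ⟨j, e⟩
    rw [θ.inv k hk] at h1
    exact h h1.symm

/-- an arc does not pass over an unmatched mark -/
lemma side_x {k : ℤ} (hk : Mk C c0 k) (h : k < θ.m k) (j : Fin 3) : θ.x j < k ∨ θ.m k < θ.x j := by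
  have h1 := θ.un k j hk
  have h2 := ne_x (θ := θ) hk (by omega) j
  omega

lemma P0_lt {p : ℤ × ℤ} (hp : p ∈ P0 θ) : p.1 < p.2 := by
  rcases mem_P0.1 hp with rfl | ⟨-, h, -⟩
  · exact pq_lt
  · exact h

lemma P0_mk {p : ℤ × ℤ} (hp : p ∈ P0 θ) : Mk C c0 p.1 ∧ Mk C c0 p.2 := by
  rcases mem_P0.1 hp with rfl | ⟨h, -, h2⟩
  · exact pq_mk
  · exact ⟨h, by rw [h2]; exact θ.mm _ h⟩

lemma P0_nk {p : ℤ × ℤ} (hp : p ∈ P0 θ) : kk θ < p.1 ∨ p.2 < kk θ := by
  rcases mem_P0.1 hp with rfl | ⟨h, h1, h2⟩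
  · have := pq_nk (θ := θ)
    split_ifs at this <;> omega
  · rw [h2] at h1 ⊢
    unfold kk
    split_ifs
    · exact side_x h h1 2
    · exact side_x h h1 0

lemma nc_pq {k : ℤ} (hk : Mk C c0 k) (h : k < θ.m k) : θ.m k < (pq θ).1 ∨ (pq θ).2 < k ∨
    ((pq θ).1 < k ∧ θ.m k < (pq θ).2) := by
  have h0 := side_x hk h 0
  have h1 := side_x hk h 1
  have h2 := side_x hk h 2
  have h3 := θ.ord
  unfold pq
  split_ifs <;> simp only <;> omega

lemma P0_nc {p q : ℤ × ℤ} (hp : p ∈ P0 θ) (hq : q ∈ P0 θ) : p = q ∨ p.2 < q.1 ∨ q.2 < p.1 ∨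
    (p.1 < q.1 ∧ q.2 < p.2) ∨ (q.1 < p.1 ∧ p.2 < q.2) := by
  rcases mem_P0.1 hp with rfl | ⟨h1, h2, h3⟩ <;> rcases mem_P0.1 hq with h | ⟨g1, g2, g3⟩
  · exact Or.inl h.symm
  · rw [g3] at g2 ⊢
    have := nc_pq g1 g2
    omega
  · subst h
    rw [h3] at h2 ⊢
    have := nc_pq h1 h2
    omega
  · rw [h3] at h2 ⊢
    rw [g3] at g2 ⊢
    rcases lt_trichotomy p.1 q.1 with h | h | h
    · by_cases h4 : q.1 < θ.m p.1
      · have := θ.nc p.1 q.1 h1 g1 h h4
        omega
      · by_cases h5 : q.1 = θ.m p.1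
        · have h6 := θ.inv p.1 h1
          rw [← h5] at h6
          omega
        · omega
    · left
      refine Prod.ext h ?_
      rw [h3, g3, h]
    · by_cases h4 : p.1 < θ.m q.1
      · have := θ.nc q.1 p.1 g1 h1 h h4
        omega
      · by_cases h5 : p.1 = θ.m q.1
        · have h6 := θ.inv q.1 g1
          rw [← h5] at h6
          omega
        · omega

/-- no pair encloses the pair `pq` -/
lemma pq_free {q : ℤ × ℤ} (hq : q ∈ P0 θ) : ¬ (q.1 < (pq θ).1 ∧ (pq θ).2 < q.2) := by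
  have h := pq_lt (θ := θ)
  rcases mem_P0.1 hq with rfl | ⟨g1, g2, g3⟩
  · omega
  · rw [g3] at g2 ⊢
    have := nc_pq g1 g2
    omega

/-- every mark is `kk` or in a pair -/
lemma mk_iff {k : ℤ} : Mk C c0 k ↔ (k = kk θ ∨ ∃ p ∈ P0 θ, k = p.1 ∨ k = p.2) := by
  constructor
  · intro hk
    by_cases h : θ.m k = k
    · obtain ⟨j, hj⟩ := (θ.fx k hk).1 h
      have hpq : pq θ ∈ P0 θ := mem_P0.2 (Or.inl rfl)
      have key : k = kk θ ∨ k = (pq θ).1 ∨ k = (pq θ).2 := by
        rw [hj]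
        unfold kk pq
        fin_cases j <;> split_ifs <;> simp
      rcases key with h1 | h1 | h1
      · exact Or.inl h1
      · exact Or.inr ⟨_, hpq, Or.inl h1⟩
      · exact Or.inr ⟨_, hpq, Or.inr h1⟩
    · rcases lt_or_gt_of_ne h with h1 | h1
      · right
        refine ⟨(θ.m k, k), mem_P0.2 (Or.inr ⟨θ.mm k hk, h1, (θ.inv k hk).symm⟩), Or.inr rfl⟩
      · right
        exact ⟨(k, θ.m k), mem_P0.2 (Or.inr ⟨hk, h1, rfl⟩), Or.inl rfl⟩
  · rintro (rfl | ⟨p, hp, rfl | rfl⟩)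
    · exact kk_mk
    · exact (P0_mk hp).1
    · exact (P0_mk hp).2

end idx

/-! ### Heights -/

namespace BP

variable {C : CD} {c0 : Bool} (B : BP C c0)

/-- height of the mark `k` -/
def hgt (k : ℤ) : ℤ := if k < 0 then B.Y1 - 1 else if k ≤ C.H then B.n * k else B.Y2 + 1

/-- colours of the left side of the ring -/
def lc (y : ℤ) : Bool :=
  if y < B.Y1 - 1 then c0 else if y < 0 then C.CB else if y < B.n * C.H then C.CL (y / B.n)
  else if y ≤ B.Y2 then C.CT else !c0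

lemma n0 : 0 < B.n := by have := B.hn; omega

lemma nH : 0 < B.n * C.H := mul_pos B.n0 C.H0

lemma hgt_lt {k l : ℤ} (h0 : -1 ≤ k) (h : k < l) (h1 : l ≤ C.H + 1) : B.hgt k < B.hgt l := by
  have a1 := B.y1; have a2 := B.y2; have a3 := B.n0; have a4 := C.H0
  unfold hgt
  by_cases c1 : k < 0
  · rw [if_pos c1]
    by_cases c2 : l ≤ C.H
    · rw [if_neg (by omega), if_pos c2]
      have : 0 ≤ B.n * l := mul_nonneg a3.le (by omega)
      omega
    · rw [if_neg (by omega), if_neg c2]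
      have := B.nH
      omega
  · rw [if_neg c1, if_pos (by omega), if_neg (by omega)]
    by_cases c2 : l ≤ C.H
    · rw [if_pos c2]; exact mul_lt_mul_of_pos_left h a3
    · rw [if_neg c2]
      have : B.n * k ≤ B.n * C.H := mul_le_mul_of_nonneg_left (by omega) a3.le
      omega

lemma hgt_iff {k l : ℤ} (hk : -1 ≤ k ∧ k ≤ C.H + 1) (hl : -1 ≤ l ∧ l ≤ C.H + 1) :
    B.hgt k < B.hgt l ↔ k < l := by
  constructor
  · intro h
    by_contra h1
    rcases eq_or_lt_of_le (not_lt.1 h1) with h2 | h2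
    · rw [h2] at h; exact lt_irrefl _ h
    · exact lt_asymm h (B.hgt_lt hl.1 h2 hk.2)
  · exact fun h => B.hgt_lt hk.1 h hl.2

lemma hgt_inj {k l : ℤ} (hk : -1 ≤ k ∧ k ≤ C.H + 1) (hl : -1 ≤ l ∧ l ≤ C.H + 1)
    (h : B.hgt k = B.hgt l) : k = l := by
  rcases lt_trichotomy k l with h1 | h1 | h1
  · have := B.hgt_lt hk.1 h1 hl.2; omega
  · exact h1
  · have := B.hgt_lt hl.1 h1 hk.2; omega

lemma hgt_bd {k : ℤ} (_hk : -1 ≤ k ∧ k ≤ C.H + 1) : B.Y1 - 1 ≤ B.hgt k ∧ B.hgt k ≤ B.Y2 + 1 := by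
  have a1 := B.y1; have a2 := B.y2; have a3 := B.n0; have a4 := B.nH
  unfold hgt
  split_ifs with c1 c2
  · omega
  · have h1 : 0 ≤ B.n * k := mul_nonneg a3.le (by omega)
    have h2 : B.n * k ≤ B.n * C.H := mul_le_mul_of_nonneg_left c2 a3.le
    omega
  · omega

/-- the colour above a mark -/
lemma lc_hgt {k : ℤ} (hk : -1 ≤ k ∧ k ≤ C.H + 1) : B.lc (B.hgt k) = col C c0 (k + 1) := by
  have a1 := B.y1; have a2 := B.y2; have a3 := B.n0; have a4 := B.nH; have a5 := C.H0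
  unfold lc hgt col
  by_cases c1 : k < 0
  · rw [if_pos c1, if_neg (by omega), if_pos (by omega), if_neg (by omega), if_pos (by omega)]
  · have h1 : 0 ≤ B.n * k := mul_nonneg a3.le (by omega)
    rw [if_neg c1]
    by_cases c2 : k ≤ C.H
    · have h2 : B.n * k ≤ B.n * C.H := mul_le_mul_of_nonneg_left c2 a3.le
      rw [if_pos c2, if_neg (by omega), if_neg (by omega)]
      by_cases c3 : k < C.H
      · have h3 : B.n * k < B.n * C.H := mul_lt_mul_of_pos_left c3 a3
        rw [if_pos h3, Int.mul_ediv_cancel_left _ a3.ne', if_neg (by omega), if_neg (by omega),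
          if_pos (by omega), add_sub_cancel_right]
      · have c4 : k = C.H := by omega
        subst c4
        rw [if_neg (by omega), if_pos (by omega), if_neg (by omega), if_neg (by omega),
          if_neg (by omega), if_pos rfl]
    · rw [if_neg c2, if_neg (by omega), if_neg (by omega), if_neg (by omega), if_neg (by omega),
        if_neg (by omega), if_neg (by omega), if_neg (by omega), if_neg (by omega)]

/-- the colour below a mark -/
lemma lc_hgt' {k : ℤ} (hk : -1 ≤ k ∧ k ≤ C.H + 1) : B.lc (B.hgt k - 1) = col C c0 k := by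
  have a1 := B.y1; have a2 := B.y2; have a3 := B.n0; have a4 := B.nH; have a5 := C.H0
  have a6 := B.hn
  unfold lc hgt col
  by_cases c1 : k < 0
  · rw [if_pos c1, if_pos (by omega), if_pos c1]
  · have h1 : 0 ≤ B.n * k := mul_nonneg a3.le (by omega)
    rw [if_neg c1, if_neg c1]
    by_cases c2 : k ≤ C.H
    · have h2 : B.n * k ≤ B.n * C.H := mul_le_mul_of_nonneg_left c2 a3.le
      rw [if_pos c2, if_neg (by omega)]
      by_cases c3 : k = 0
      · subst c3
        rw [mul_zero, if_pos (by omega), if_pos rfl]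
      · have h3 : B.n ≤ B.n * k := le_mul_of_one_le_right a3.le (by omega)
        have h4 : (B.n * k - 1) / B.n = k - 1 :=
          Pool.Agent.H54.W.ediv_eq a3 (by rw [mul_sub, mul_one]; omega) (by rw [mul_sub, mul_one]; omega)
        rw [if_neg (by omega), if_pos (by omega), if_neg c3, if_pos c2, h4]
    · rw [if_neg c2, if_neg (by omega), if_neg (by omega), if_neg (by omega), if_pos (by omega),
        if_neg (by omega), if_neg (by omega), if_pos (by omega)]

/-- the colour does not change off the heights of the corners -/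
lemma lc_same {y : ℤ} (h : ∀ k, -1 ≤ k → k ≤ C.H + 1 → y ≠ B.hgt k) : B.lc (y - 1) = B.lc y := by
  have a1 := B.y1; have a2 := B.y2; have a3 := B.n0; have a4 := B.nH; have a5 := C.H0
  have b1 : y ≠ B.Y1 - 1 := by
    have := h (-1) le_rfl (by omega)
    unfold hgt at this
    rwa [if_pos (by omega)] at this
  have b2 : y ≠ B.Y2 + 1 := by
    have := h (C.H + 1) (by omega) le_rfl
    unfold hgt at this
    rwa [if_neg (by omega), if_neg (by omega)] at this
  have b3 : ∀ k, 0 ≤ k → k ≤ C.H → y ≠ B.n * k := fun k h1 h2 => by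
    have := h k (by omega) (by omega)
    unfold hgt at this
    rwa [if_neg (by omega), if_pos h2] at this
  have b4 : y ≠ 0 := by have := b3 0 le_rfl a5.le; rwa [mul_zero] at this
  have b5 : y ≠ B.n * C.H := b3 _ a5.le le_rfl
  unfold lc
  by_cases c1 : y < B.Y1 - 1
  · rw [if_pos (by omega), if_pos c1]
  rw [if_neg (by omega), if_neg c1]
  by_cases c2 : y < 0
  · rw [if_pos (by omega), if_pos c2]
  rw [if_neg (by omega), if_neg c2]
  by_cases c3 : y < B.n * C.H
  · rw [if_pos (by omega), if_pos c3]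
    congr 1
    have h1 := Int.emod_add_mul_ediv y B.n
    have h2 := Int.emod_nonneg y a3.ne'
    have h3 := Int.emod_lt_of_pos y a3
    have h4 := Pool.Agent.H54.W.CD.row_of (C := C) a3 (by omega : 0 ≤ y) c3
    have h5 := b3 _ h4.1 h4.2.le
    refine Pool.Agent.H54.W.ediv_eq a3 (by omega) (by omega)
  rw [if_neg (by omega), if_neg c3]
  by_cases c4 : y ≤ B.Y2
  · rw [if_pos (by omega), if_pos c4]
  · rw [if_neg (by omega), if_neg c4]

/-- **the colour changes exactly at the marks** -/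
lemma lc_iff {y : ℤ} : B.lc (y - 1) ≠ B.lc y ↔ ∃ k, Mk C c0 k ∧ y = B.hgt k := by
  constructor
  · intro h
    by_contra hc
    apply h
    refine B.lc_same fun k h1 h2 e => hc ⟨k, ⟨h1, h2, ?_⟩, e⟩
    rw [← B.lc_hgt ⟨h1, h2⟩, ← B.lc_hgt' ⟨h1, h2⟩, ← e]
    exact h
  · rintro ⟨k, ⟨h1, h2, h3⟩, rfl⟩
    rw [B.lc_hgt ⟨h1, h2⟩, B.lc_hgt' ⟨h1, h2⟩]
    exact h3

end BP

/-! ### The instance -/

section inst

variable {C : CD} {c0 : Bool} (θ : Th C c0) (B : BP C c0)

/-- height of a pair -/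
def hp (p : ℤ × ℤ) : ℤ × ℤ := (B.hgt p.1, B.hgt p.2)

/-- **The outside of the box.** -/
noncomputable def ow : Ow where
  X1 := B.X1
  X2 := B.X2
  Y1 := B.Y1
  Y2 := B.Y2
  e := B.e
  s0 := 0
  n0 := B.n * C.H
  c0 := c0
  cb := C.CB
  ct := C.CT
  hX := by
    have a1 := B.x1; have a2 := B.x2; have a3 := B.n0
    have h1 := C.lo 0 le_rfl C.H0
    have h2 := C.AW 0 le_rfl C.H0
    have h3 : B.n * C.LO ≤ B.n * C.W := mul_le_mul_of_nonneg_left (by omega) a3.le
    omega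
  h1 := by have := B.y1; omega
  h2 := by have := B.r0; have := B.er; omega
  h3 := by have := B.r1; have := B.er; omega
  h4 := by have := B.y2; omega
  k := B.hgt (kk θ)
  P := (P0 θ).image (hp B)
  lc := B.lc
  k1 := by
    have h := kk_mk (θ := θ)
    have := B.hgt_bd ⟨h.1, h.2.1⟩
    omega
  k2 := by
    have h := kk_mk (θ := θ)
    have := B.hgt_bd ⟨h.1, h.2.1⟩
    omega
  lt' := by
    intro p hp'
    obtain ⟨q, hq, rfl⟩ := mem_image.1 hp'
    exact B.hgt_lt (P0_mk hq).1.1 (P0_lt hq) (P0_mk hq).2.2.1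
  b1 := by
    intro p hp
    obtain ⟨q, hq, rfl⟩ := mem_image.1 hp
    have h := (P0_mk hq).1
    have := B.hgt_bd ⟨h.1, h.2.1⟩
    show B.Y1 - 2 ≤ B.hgt q.1
    omega
  b2 := by
    intro p hp
    obtain ⟨q, hq, rfl⟩ := mem_image.1 hp
    have h := (P0_mk hq).2
    have := B.hgt_bd ⟨h.1, h.2.1⟩
    show B.hgt q.2 ≤ B.Y2 + 2
    omega
  nk := by
    intro p hp
    obtain ⟨q, hq, rfl⟩ := mem_image.1 hp
    have h := kk_mk (θ := θ)
    rcases P0_nk hq with h1 | h1
    · exact Or.inl (B.hgt_lt h.1 h1 (P0_mk hq).1.2.1)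
    · exact Or.inr (B.hgt_lt (P0_mk hq).2.1 h1 h.2.1)
  nc := by
    intro p hp p' hp'
    obtain ⟨q, hq, rfl⟩ := mem_image.1 hp
    obtain ⟨q', hq', rfl⟩ := mem_image.1 hp'
    have g1 := P0_mk hq
    have g2 := P0_mk hq'
    rcases P0_nc hq hq' with h | h | h | ⟨h, h'⟩ | ⟨h, h'⟩
    · left; rw [h]
    · right; left; exact B.hgt_lt g1.2.1 h g2.1.2.1
    · right; right; left; exact B.hgt_lt g2.2.1 h g1.1.2.1
    · right; right; right; left
      exact ⟨B.hgt_lt g1.1.1 h g2.1.2.1, B.hgt_lt g2.2.1 h' g1.2.2.1⟩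
    · right; right; right; right
      exact ⟨B.hgt_lt g2.1.1 h g1.1.2.1, B.hgt_lt g1.2.1 h' g2.2.2.1⟩
  l0 := by unfold BP.lc; rw [if_pos (by omega)]
  l1 := by unfold BP.lc; rw [if_pos (by omega)]
  l2 := by
    have := B.y1
    unfold BP.lc; rw [if_neg (by omega), if_pos (by omega)]
  l3 := by
    have := B.y1; have := B.y2; have := B.nH
    unfold BP.lc; rw [if_neg (by omega), if_neg (by omega), if_neg (by omega), if_pos (by omega)]
  l4 := by
    have := B.y1; have := B.y2; have := B.nH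
    unfold BP.lc
    rw [if_neg (by omega), if_neg (by omega), if_neg (by omega), if_neg (by omega)]
  hM := by
    intro y _ _
    rw [B.lc_iff]
    constructor
    · rintro ⟨k, hk, rfl⟩
      rcases (mk_iff (θ := θ)).1 hk with h | ⟨p, hp', h | h⟩
      · left; rw [h]
      · right; exact ⟨_, mem_image_of_mem _ hp', Or.inl (by rw [h]; rfl)⟩
      · right; exact ⟨_, mem_image_of_mem _ hp', Or.inr (by rw [h]; rfl)⟩
    · rintro (rfl | ⟨p, hp', h⟩)
      · exact ⟨_, kk_mk, rfl⟩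
      · obtain ⟨q, hq, rfl⟩ := mem_image.1 hp'
        rcases h with rfl | rfl
        · exact ⟨_, (P0_mk hq).1, rfl⟩
        · exact ⟨_, (P0_mk hq).2, rfl⟩

/-- name of helper54 of the mark `k` -/
def nam (C : CD) (k : ℤ) : NE := if k < 0 then NE.b else if k ≤ C.H then NE.l k else NE.t

variable {θ B}

/-- **the sides of the box at the marks are the sides of helper54** -/
theorem bes_eq {k x0 : ℤ} (hk : -1 ≤ k ∧ k ≤ C.H + 1) :
    (ow θ B).bes (B.hgt k) = C.be B.n c0 x0 B.r B.X1 B.X2 (nam C k) := by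
  have a1 := B.y1; have a2 := B.y2; have a3 := B.n0; have a4 := B.nH; have a5 := C.H0
  unfold Ow.bes nam
  show (if B.hgt k = B.Y1 - 1 then sv B.X2 0 C.CB
    else if B.hgt k = B.Y2 + 1 then sv B.X2 (B.n * C.H) (!c0)
    else sv B.X1 (B.hgt k) (B.lc (B.hgt k - 1))) = _
  by_cases c1 : k < 0
  · rw [if_pos (show B.hgt k = B.Y1 - 1 by unfold BP.hgt; rw [if_pos c1]), if_pos c1]
    exact sv_eq_lah _ _ _
  · have h1 : 0 ≤ B.n * k := mul_nonneg a3.le (by omega)
    rw [if_neg c1]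
    by_cases c2 : k ≤ C.H
    · have h2 : B.n * k ≤ B.n * C.H := mul_le_mul_of_nonneg_left c2 a3.le
      have e2 : B.hgt k = B.n * k := by unfold BP.hgt; rw [if_neg c1, if_pos c2]
      have e3 := B.lc_hgt' hk
      rw [e2] at e3 ⊢
      rw [if_neg (show ¬ B.n * k = B.Y1 - 1 by omega), if_neg (show ¬ B.n * k = B.Y2 + 1 by omega),
        if_pos c2, e3]
      have e4 : col C c0 k = C.cLo k := by
        unfold col Pool.Agent.H54.W.CD.cLo
        rw [if_neg c1]
        by_cases c3 : k = 0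
        · rw [if_pos c3, if_pos c3]
        · rw [if_neg c3, if_neg c3, if_pos c2]
      rw [e4]
      exact sv_eq_lah _ _ _
    · have e2 : B.hgt k = B.Y2 + 1 := by unfold BP.hgt; rw [if_neg c1, if_neg c2]
      rw [e2, if_neg c2]
      rw [if_neg (show ¬ B.Y2 + 1 = B.Y1 - 1 by omega), if_pos (show B.Y2 + 1 = B.Y2 + 1 from rfl)]
      exact sv_eq_lah _ _ _

end inst

end Pool.Agent.H85.W
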