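import Mathlib
import Pool.Agent.H85.W.OutW
import Pool.Agent.H54.W.Names
import Pool.Agent.H74.R45.Ext

set_option autoImplicit false
open Finset

/-! # The outside of the box of a room: results in the names of helper54 / helper20

`bk θ B k` : side of the box at the mark `k` (= `C.be .. (neK C k)`), `ctW` : target corner, `rtW` : root corner.
For every finite `L` whose labels outside of the box are the ones of the outside (`(ow θ B).Full L`):
`arc_fw`, `exit_w`, `exit_b`, `tgt_fw`, `root_w`, `root_b`; `dco_ct`. `Wo` : open labels outside of a smaller box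
(`InZ` of a window of helper54, `FillOK`: the colours between the two boxes are the ones of the window),
`outO : Out D`. -/

namespace Pool.Agent.H85.W

open Pool.Agent.H75.Perc Pool.Agent.H75.TwoArm Pool.Agent.H33.Q1
open Pool.Agent.H74.R45
open Pool.Agent.H54.W (CD NE Win Out lah Zb mem_Zb neK)
open Pool.Agent.H20.W (Th Mk col)
open Pool.Agent.H13.W (SG eW)
open Pool.Agent.Q1 (DCo)

variable {C : CD} {c0 : Bool} {θ : Th C c0} {B : BP C c0} {L G : Finset (ℤ × ℤ)} {k : ℤ}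

lemma nam_eq (C : CD) (k : ℤ) : nam C k = neK C k := by
  have := C.H0
  unfold nam neK
  split_ifs <;> first | rfl | omega

/-- the labels outside of the box -/
abbrev OZ (B : BP C c0) : Set (ℤ × ℤ) := (Zb B.X1 B.X2 B.Y1 B.Y2)ᶜ

lemma S_sub : (ow θ B).S ⊆ OZ B := by
  rintro e he ⟨t, ht, rfl⟩
  apply he
  rw [tt_lt]
  exact ht

/-- side of the box at the mark `k` -/
def bk (B : BP C c0) (k : ℤ) : ℤ × ℤ := C.be B.n c0 0 B.r B.X1 B.X2 (neK C k)

lemma bk_eq (x0 : ℤ) : bk B k = C.be B.n c0 x0 B.r B.X1 B.X2 (neK C k) := by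
  unfold bk neK
  split_ifs <;> rfl

/-- target corner -/
noncomputable def ctW (θ : Th C c0) (B : BP C c0) : ℤ × ℤ := (ow θ B).tgt (hp B (pq θ))

/-- root corner -/
def rtW (B : BP C c0) : ℤ × ℤ := he (B.X2, B.e)

lemma bes_bk (hk : Mk C c0 k) : (ow θ B).bes (B.hgt k) = bk B k := by
  rw [bes_eq (x0 := 0) ⟨hk.1, hk.2.1⟩, nam_eq]; rfl

lemma pair_fw (h : (ow θ B).Full L) {p : ℤ × ℤ} (hp' : p ∈ P0 θ) :
    Fw L (OZ B) (bk B p.1) (bk B p.2) ∨ Fw L (OZ B) (bk B p.2) (bk B p.1) := by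
  have h1 := P0_mk hp'
  have h2 : hp B p ∈ (ow θ B).P := mem_image_of_mem _ hp'
  rw [← bes_bk (θ := θ) h1.1, ← bes_bk (θ := θ) h1.2]
  cases hl : (ow θ B).lc (hp B p).1
  · exact Or.inl ((Ow.link_w h h2 hl).mono S_sub)
  · obtain ⟨f1, f2⟩ := Ow.link_b h h2 hl
    exact Or.inr ((f1.trans f2).mono S_sub)

/-- **arcs** -/
theorem arc_fw (h : (ow θ B).Full L) (hk : Mk C c0 k) (hm : θ.m k ≠ k) :
    Fw L (OZ B) (bk B k) (bk B (θ.m k)) ∨ Fw L (OZ B) (bk B (θ.m k)) (bk B k) := by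
  rcases lt_or_gt_of_ne hm with h1 | h1
  · have := pair_fw (p := (θ.m k, k)) h (mem_P0.2 (Or.inr ⟨θ.mm k hk, h1, (θ.inv k hk).symm⟩))
    exact this.symm
  · exact pair_fw (p := (k, θ.m k)) h (mem_P0.2 (Or.inr ⟨hk, h1, rfl⟩))

lemma lc_pq : (ow θ B).lc (hp B (pq θ)).1 = true := by
  have h1 := pq_mk (θ := θ)
  have h2 : hp B (pq θ) ∈ (ow θ B).P := mem_image_of_mem _ (mem_P0.2 (Or.inl rfl))
  have hen : (ow θ B).L.en (hp B (pq θ)) = 0 := by
    classical
    have e0 : (ow θ B).L.P = (P0 θ).image (hp B) := rfl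
    unfold Lnk.en
    rw [e0, filter_eq_empty_iff.2, card_empty, if_neg]
    · have e1 : (ow θ B).L.up = !c0 := rfl
      have e2 : (ow θ B).L.k = B.hgt (kk θ) := rfl
      have e3 := pq_nk (θ := θ)
      have e4 := kk_mk (θ := θ)
      rw [e1, e2]
      rcases Bool.eq_false_or_eq_true c0 with hc | hc <;> subst hc
      · simp only [Bool.not_true, if_true, Bool.false_eq_true, if_false] at e3 ⊢
        have := B.hgt_lt e4.1 e3 h1.1.2.1
        have h3 := B.hgt_lt h1.1.1 (pq_lt (θ := θ)) h1.2.2.1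
        show ¬ (B.hgt (pq θ).2 < B.hgt (kk θ))
        omega
      · simp only [Bool.not_false, if_true, Bool.false_eq_true, if_false] at e3 ⊢
        have := B.hgt_lt h1.2.1 e3 e4.2.1
        have h3 := B.hgt_lt h1.1.1 (pq_lt (θ := θ)) h1.2.2.1
        show ¬ (B.hgt (kk θ) < B.hgt (pq θ).1)
        omega
    · intro q hq h3
      obtain ⟨q', hq', rfl⟩ := mem_image.1 hq
      have g1 := P0_mk hq'
      refine pq_free hq' ⟨?_, ?_⟩
      · exact (B.hgt_iff ⟨g1.1.1, g1.1.2.1⟩ ⟨h1.1.1, h1.1.2.1⟩).1 h3.1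
      · exact (B.hgt_iff ⟨h1.2.1, h1.2.2.1⟩ ⟨g1.2.1, g1.2.2.1⟩).1 h3.2
  exact ((ow θ B).col.even_en (p := hp B (pq θ)) h2).1 (by rw [hen]; exact Even.zero)

/-- **the target corner** : the strand goes from the upper mark of `pq` through `ct` to the lower one -/
theorem tgt_fw (h : (ow θ B).Full L) : Fw L (OZ B) (bk B (pq θ).2) (ctW θ B) ∧
    Fw L (OZ B) (ctW θ B) (bk B (pq θ).1) := by
  have h1 := pq_mk (θ := θ)
  have h2 : hp B (pq θ) ∈ (ow θ B).P := mem_image_of_mem _ (mem_P0.2 (Or.inl rfl))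
  obtain ⟨f1, f2⟩ := Ow.link_b h h2 lc_pq
  rw [← bes_bk (θ := θ) h1.1, ← bes_bk (θ := θ) h1.2]
  exact ⟨f1.mono S_sub, f2.mono S_sub⟩

lemma sv_exit : sv B.X2 B.e c0 = ve (B.X2, B.r) := by
  have h1 := B.par
  have h2 := B.er
  refine sv_eq_of ?_ ?_
  · cases c0 <;> simpa using h1
  · omega

/-- **the exit, closed below** -/
theorem exit_w (h : (ow θ B).Full L) (hc : c0 = false) :
    Fw L (OZ B) (ve (B.X2, B.r)) (rtW B) ∧ Fw L (OZ B) (rtW B) (bk B (kk θ)) := by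
  subst hc
  obtain ⟨f1, f2⟩ := Ow.exit_w h rfl
  rw [← sv_exit, ← bes_bk (θ := θ) kk_mk]
  exact ⟨f1.mono S_sub, f2.mono S_sub⟩

/-- **the exit, open below** -/
theorem exit_b (h : (ow θ B).Full L) (hc : c0 = true) :
    Fw L (OZ B) (bk B (kk θ)) (rtW B) ∧ Fw L (OZ B) (rtW B) (ve (B.X2, B.r)) := by
  subst hc
  obtain ⟨f1, f2⟩ := Ow.exit_b h rfl
  rw [← sv_exit, ← bes_bk (θ := θ) kk_mk]
  exact ⟨f1.mono S_sub, f2.mono S_sub⟩

lemma x2_par : (c0 = false → (B.X2 + B.r) % 2 = 1) ∧ (c0 = true → (B.X2 + B.r) % 2 = 0) := by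
  have h := B.par
  constructor <;> intro hc <;> subst hc <;> simpa using h

/-- the colours of the two tiles at the exit -/
lemma exit_tiles (h : (ow θ B).Full L) : (lt (B.X2, B.e) ∈ L ↔ c0 = false) ∧
    (lt (B.X2, B.e - 1) ∈ L ↔ c0 = true) := by
  have a1 := (ow θ B).h1; have a2 := (ow θ B).h2; have a3 := (ow θ B).h3; have a4 := (ow θ B).h4
  have a5 := (ow θ B).hX
  have e1 : (ow θ B).X2 = B.X2 := rfl
  have e2 : (ow θ B).e = B.e := rfl
  have e3 : (ow θ B).c0 = c0 := rfl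
  constructor
  · have h1 := Rg.rc_q (D := (ow θ B).toRg) (x := B.X2) (y := B.e) le_rfl (by omega)
    rw [h.lab _ _ (by unfold Rg.In Rg.Box; omega), h1, e3]
    cases c0 <;> simp
  · have h1 := Rg.rc_r (D := (ow θ B).toRg) (x := B.X2) (y := B.e - 1) (by omega) (by omega)
    rw [h.lab _ _ (by unfold Rg.In Rg.Box; omega), h1, e3]

/-- **one step between the root corner and the string**, closed below -/
theorem root_w (h : (ow θ B).Full L) (hc : c0 = false) : nx L (ve (B.X2, B.r)) = rtW B := by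
  obtain ⟨t1, t2⟩ := exit_tiles h
  have h1 := (x2_par (B := B)).1 hc
  unfold rtW
  rcases B.er with he | he
  · rw [he] at t1 ⊢
    rw [(nx_open (by rw [lab_ve_E h1]; exact t1.2 hc)).1, nxO_ve_E h1]
  · rw [he] at t2 ⊢
    rw [add_sub_cancel_right] at t2
    rw [(nx_closed (by
      rw [lab_ve_E h1]
      intro h2
      rw [t2.1 h2] at hc
      exact absurd hc (by decide))).1, nxC_ve_E h1]

/-- **one step between the root corner and the string**, open below -/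
theorem root_b (h : (ow θ B).Full L) (hc : c0 = true) : nx L (rtW B) = ve (B.X2, B.r) := by
  obtain ⟨t1, t2⟩ := exit_tiles h
  have h1 := (x2_par (B := B)).2 hc
  unfold rtW
  rcases B.er with he | he
  · rw [he] at t1 ⊢
    rw [(nx_closed (by
      rw [lab_he_N h1]
      intro h2
      rw [t1.1 h2] at hc
      exact absurd hc (by decide))).1, nxC_he_N h1]
  · rw [he] at t2 ⊢
    rw [add_sub_cancel_right] at t2
    have h3 : (B.X2 + (B.r + 1)) % 2 = 1 := by omega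
    rw [(nx_open (by rw [lab_he_S h3, add_sub_cancel_right]; exact t2.2 hc)).1, nxO_he_S h3,
      add_sub_cancel_right]

lemma notMem_zb {x y : ℤ} (h : B.X2 ≤ x ∨ x < B.X1) : lt (x, y) ∉ Zb B.X1 B.X2 B.Y1 B.Y2 := by
  rw [mem_Zb]; omega

/-- the tiles at the root corner are outside of the box -/
theorem rtW_out : lab (rtW B) ∉ Zb B.X1 B.X2 B.Y1 B.Y2 ∧ plab (rtW B) ∉ Zb B.X1 B.X2 B.Y1 B.Y2 := by
  unfold rtW
  rcases Int.emod_two_eq_zero_or_one (B.X2 + B.e) with h | h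
  · rw [lab_he_N h, plab_he_N h]
    exact ⟨notMem_zb (Or.inl le_rfl), notMem_zb (Or.inl le_rfl)⟩
  · rw [lab_he_S h, plab_he_S h]
    exact ⟨notMem_zb (Or.inl le_rfl), notMem_zb (Or.inl le_rfl)⟩

/-- the tiles at the target corner are outside of the box -/
theorem ctW_out : lab (ctW θ B) ∉ Zb B.X1 B.X2 B.Y1 B.Y2 ∧ plab (ctW θ B) ∉ Zb B.X1 B.X2 B.Y1 B.Y2 := by
  have h1 := (ow θ B).lt' (hp B (pq θ)) (mem_image_of_mem _ (mem_P0.2 (Or.inl rfl)))
  have e1 : (ow θ B).X1 = B.X1 := rfl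
  unfold ctW Ow.tgt
  rw [e1]
  rcases Int.emod_two_eq_zero_or_one (B.X1 - ((hp B (pq θ)).2 - (hp B (pq θ)).1) + (hp B (pq θ)).1)
    with h | h
  · rw [lab_ve_W h, plab_ve_W h]
    exact ⟨notMem_zb (Or.inr (by omega)), notMem_zb (Or.inr (by omega))⟩
  · rw [lab_ve_E h, plab_ve_E h]
    exact ⟨notMem_zb (Or.inr (by omega)), notMem_zb (Or.inr (by omega))⟩

/-- **the faces of the target and of the root are joined** -/
theorem dco_ct (hG : (ow θ B).Sub G) (ho : ∀ e ∈ G, (e.1 + e.2) % 2 = 1) :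
    DCo G (fi (ctW θ B)) (fi (rtW B)) := by
  have h1 := pq_mk (θ := θ)
  have h4 := kk_mk (θ := θ)
  refine Ow.dco_tgt hG ho (mem_image_of_mem _ (mem_P0.2 (Or.inl rfl))) ?_ ?_
  · intro q hq h3
    obtain ⟨q', hq', rfl⟩ := mem_image.1 hq
    have g1 := P0_mk hq'
    refine pq_free hq' ⟨?_, ?_⟩
    · exact (B.hgt_iff ⟨g1.1.1, g1.1.2.1⟩ ⟨h1.1.1, h1.1.2.1⟩).1 h3.1
    · exact (B.hgt_iff ⟨h1.2.1, h1.2.2.1⟩ ⟨g1.2.1, g1.2.2.1⟩).1 h3.2
  · have e3 := pq_nk (θ := θ)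
    show if c0 then B.hgt (kk θ) < B.hgt (pq θ).1 else B.hgt (pq θ).2 < B.hgt (kk θ)
    split_ifs at e3 ⊢
    · exact B.hgt_lt h4.1 e3 h1.1.2.1
    · exact B.hgt_lt h1.2.1 e3 h4.2.1

/-- the end of the string is not a mark -/
theorem bk_ne (θ : Th C c0) (hk : Mk C c0 k) : bk B k ≠ ve (B.X2, B.r) := by
  have h1 := B.r0
  have h2 := B.r1
  have a1 := B.x1; have a2 := B.x2; have a3 := B.n0
  have h5 := C.lo 0 le_rfl C.H0
  have h6 := C.AW 0 le_rfl C.H0
  have h3 : B.n * C.LO ≤ B.n * C.W := mul_le_mul_of_nonneg_left (by omega) a3.le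
  have key : ∀ X Y : ℤ, ∀ s : Bool, (X = B.X1 ∨ (X = B.X2 ∧ (Y = 0 ∨ Y = B.n * C.H))) →
      sv X Y s ≠ ve (B.X2, B.r) := by
    intro X Y s h h4
    unfold sv at h4
    have h7 := ve_inj h4
    rw [Prod.mk.injEq] at h7
    split_ifs at h7 <;> omega
  rw [← bes_bk (θ := θ) hk]
  unfold Ow.bes
  split_ifs
  · exact key _ _ _ (Or.inr ⟨rfl, Or.inl rfl⟩)
  · exact key _ _ _ (Or.inr ⟨rfl, Or.inr rfl⟩)
  · exact key _ _ _ (Or.inl rfl)

end Pool.Agent.H85.W
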