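import Mathlib
import Pool.Agent.H85.W.OutX

set_option autoImplicit false
open Finset

/-! # The outside of the box as `Out D` of helper54

`D : Win` any window whose box `InZ` is contained in the box `B` (`hin`), `f` : colours between the two boxes
(usually `D.fill`). `Wo` : open labels off `InZ`; `mem_Wo`; `outO : Out D`; `full_of`, `full_WJ` : the labels off the
box are the ones of the outside. -/

namespace Pool.Agent.H85.W

open Pool.Agent.H75.Perc Pool.Agent.H75.TwoArm Pool.Agent.H33.Q1 Pool.Agent.H69.Q1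
open Pool.Agent.H74.R45
open Pool.Agent.H54.W (CD Win Out Zb mem_Zb)
open Pool.Agent.H20.W (Th)
open Pool.Agent.Q1 (DCo)

variable {C : CD} {c0 : Bool} (θ : Th C c0) (B : BP C c0) (D : Win) (f : ℤ → ℤ → Bool)

open Classical in
/-- colours off the window -/
noncomputable def cf (x y : ℤ) : Bool := if (ow θ B).Box x y then f x y else (ow θ B).cc x y

open Classical in
/-- **open labels off the window** -/
noncomputable def Wo : Finset (ℤ × ℤ) :=
  ((Icc (B.X1 - (ow θ B).L.dd) (B.X2 + 2 + (ow θ B).L.dd) ×ˢ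
    Icc (B.Y1 - 2 - (ow θ B).L.dd) (B.Y2 + 2 + (ow θ B).L.dd)).filter fun t =>
      ¬ D.InZ t.1 t.2 ∧ cf θ B f t.1 t.2 = true).image lt

variable {θ B D f} {x y : ℤ} {L : Finset (ℤ × ℤ)}

lemma cc_bd (h : (ow θ B).cc x y = true) : B.X1 - (ow θ B).L.dd ≤ x ∧
    x ≤ B.X2 + 2 + (ow θ B).L.dd ∧ B.Y1 - 2 - (ow θ B).L.dd ≤ y ∧ y ≤ B.Y2 + 2 + (ow θ B).L.dd := by
  have e1 : (ow θ B).L.X1 = B.X1 := rfl
  have e2 : (ow θ B).L.X2 = B.X2 + 2 := rfl
  have e3 : (ow θ B).L.Y1 = B.Y1 - 2 := rfl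
  have e4 : (ow θ B).L.Y2 = B.Y2 + 2 := rfl
  have e5 := (ow θ B).L.hY
  have hd : (ow θ B).L.dd = (ow θ B).L.Y2 - (ow θ B).L.Y1 + 1 := rfl
  by_cases hb : (ow θ B).L.Box x y
  · unfold Lnk.Box at hb
    omega
  · unfold Ow.cc at h
    rw [if_neg hb, decide_eq_true_iff] at h
    by_contra hc
    rw [Lnk.N_far (by omega)] at h
    exact absurd h (by decide)

theorem mem_Wo : lt (x, y) ∈ Wo θ B D f ↔ ¬ D.InZ x y ∧ cf θ B f x y = true := by
  classical
  unfold Wo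
  simp only [mem_image, mem_filter, mem_product, mem_Icc, Prod.exists]
  constructor
  · rintro ⟨x', y', ⟨-, h5⟩, h6⟩
    have := lt_inj h6
    simp only [Prod.mk.injEq] at this
    obtain ⟨rfl, rfl⟩ := this
    exact h5
  · intro h
    have hd : (ow θ B).L.dd = (ow θ B).L.Y2 - (ow θ B).L.Y1 + 1 := rfl
    have e5 := (ow θ B).L.hY
    have hb : B.X1 - (ow θ B).L.dd ≤ x ∧ x ≤ B.X2 + 2 + (ow θ B).L.dd ∧
        B.Y1 - 2 - (ow θ B).L.dd ≤ y ∧ y ≤ B.Y2 + 2 + (ow θ B).L.dd := by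
      have h1 := h.2
      unfold cf at h1
      split_ifs at h1 with h2
      · obtain ⟨k1, k2, k3, k4⟩ : B.X1 ≤ x ∧ x < B.X2 ∧ B.Y1 ≤ y ∧ y < B.Y2 := h2
        omega
      · exact cc_bd h1
    exact ⟨x, y, ⟨⟨⟨hb.1, hb.2.1⟩, hb.2.2.1, hb.2.2.2⟩, h⟩, rfl⟩

lemma odd_Wo {e : ℤ × ℤ} (he : e ∈ Wo θ B D f) : (e.1 + e.2) % 2 = 1 := by
  classical
  unfold Wo at he
  simp only [mem_image] at he
  obtain ⟨t, -, rfl⟩ := he
  exact lt_odd t

/-- off the box -/
lemma mem_Wo_out (hin : ∀ x y, D.InZ x y → (ow θ B).Box x y) (hb : ¬ (ow θ B).Box x y) :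
    lt (x, y) ∈ Wo θ B D f ↔ (ow θ B).cc x y = true := by
  rw [mem_Wo]
  unfold cf
  rw [if_neg hb]
  exact ⟨fun h => h.2, fun h => ⟨fun h2 => hb (hin _ _ h2), h⟩⟩

/-- in the box, off the window -/
lemma mem_Wo_in (hb : (ow θ B).Box x y) (hz : ¬ D.InZ x y) :
    lt (x, y) ∈ Wo θ B D f ↔ f x y = true := by
  rw [mem_Wo]
  unfold cf
  rw [if_pos hb]
  exact ⟨fun h => h.2, fun h => ⟨hz, h⟩⟩

/-- **the world has the outside `ow θ B`** -/
theorem full_of (hin : ∀ x y, D.InZ x y → (ow θ B).Box x y)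
    (h : ∀ x y, ¬ (ow θ B).Box x y → (lt (x, y) ∈ L ↔ lt (x, y) ∈ Wo θ B D f)) :
    (ow θ B).Full L := fun x y hb => by rw [h x y hb, mem_Wo_out hin hb]

lemma notMem_GA (hin : ∀ x y, D.InZ x y → (ow θ B).Box x y) (hb : ¬ (ow θ B).Box x y) :
    lt (x, y) ∉ D.GA := by
  rw [Win.mem_GA]; exact fun h => hb (hin _ _ h)

lemma sub_GA (hin : ∀ x y, D.InZ x y → (ow θ B).Box x y) : (ow θ B).Sub (D.GA ∪ Wo θ B D f) := by
  intro x y hb h
  rcases mem_union.1 h with h1 | h1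
  · exact absurd h1 (notMem_GA hin hb)
  · exact (mem_Wo_out hin hb).1 h1

lemma odd_GW {e : ℤ × ℤ} (he : e ∈ D.GA ∪ Wo θ B D f) : (e.1 + e.2) % 2 = 1 := by
  rcases mem_union.1 he with h | h
  · exact Win.odd_GA h
  · exact odd_Wo h

variable (θ B D f)

/-- **The outside as a structure of helper54.** -/
noncomputable def outO (hin : ∀ x y, D.InZ x y → (ow θ B).Box x y) : Out D where
  Wo := Wo θ B D f
  c0 := rtW B
  k0 := ty (rtW B)
  g := (Ow.exists_low (D := ow θ B) (sub_GA (f := f) hin) (fun _ => odd_GW)).choose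
  far x y h := (mem_Wo.1 h).1
  hk := by
    unfold ty
    split_ifs <;> rfl
  hroot := by
    intro h
    have h1 := (rtW_out (B := B)).2
    have h2 : plab (rtW B) ∈ D.GA := h
    obtain ⟨x, y, e⟩ := exists_lt (Win.odd_GA h2)
    rw [e] at h1 h2
    rw [mem_Zb] at h1
    exact h1 (hin _ _ (Win.mem_GA.1 h2))
  hg := (Ow.exists_low (D := ow θ B) (sub_GA (f := f) hin) (fun _ => odd_GW)).choose_spec.1
  hlow := (Ow.exists_low (D := ow θ B) (sub_GA (f := f) hin) (fun _ => odd_GW)).choose_spec.2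

variable {θ B D f}

/-- the configurations of the window -/
theorem full_WJ (hin : ∀ x y, D.InZ x y → (ow θ B).Box x y) (τ : ℤ → ℤ) {ω : Finset (ℤ × ℤ)}
    (hω : ω ⊆ D.EJ τ) : (ow θ B).Full (ω ∪ D.WJ τ (Wo θ B D f)) := by
  refine full_of hin (D := D) (f := f) fun x y hb => ?_
  unfold Win.WJ
  rw [mem_union, mem_union]
  constructor
  · rintro (h | h | h)
    · exact absurd (Win.EJ_sub (hω h)) (notMem_GA hin hb)
    · exact absurd (Win.WR_sub h) (notMem_GA hin hb)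
    · exact h
  · exact fun h => Or.inr (Or.inr h)

/-- the target is outer -/
theorem dco_ct_GA (hin : ∀ x y, D.InZ x y → (ow θ B).Box x y) :
    DCo (D.GA ∪ Wo θ B D f) (fi (ctW θ B)) (fi (rtW B)) :=
  dco_ct (sub_GA hin) fun _ => odd_GW

end Pool.Agent.H85.W
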