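import Mathlib
import Pool.Agent.H85.W.OutO

set_option autoImplicit false
open Finset

/-! # The wire of the outer end of the string

Rows `r - 1` and `r + 1` of different colours, row `r` arbitrary: the strand which leaves the string in the row `r`
to the east goes on to the east in the row `r`, two columns further (`seam_w`, `seam_b`, `2 j` columns). With the
exit of the outside (`root_w`, `root_b`) this is the wire between the outer end of the string and the root corner
(`rts_w`, `rts_b`), for the windows of helper54 `rts_WJ_w`, `rts_WJ_b`. -/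

namespace Pool.Agent.H85.W

open Pool.Agent.H75.Perc Pool.Agent.H75.TwoArm Pool.Agent.H33.Q1
open Pool.Agent.H74.R45
open Pool.Agent.H54.W (CD Win Out Zb mem_Zb)
open Pool.Agent.H20.W (Th)

section steps

variable {w : Finset (ℤ × ℤ)} {S : Set (ℤ × ℤ)} {x y : ℤ}

lemma stEc (h : (x + y) % 2 = 1) (t : Wt w S x y) : Fw w S (ve (x, y)) (he (x, y + 1)) := by
  have := Fw.clo (c := ve (x, y)) (by rw [lab_ve_E h]; exact t.2) (by rw [lab_ve_E h]; exact t.1)
  rwa [nxC_ve_E h] at this

lemma stEo (h : (x + y) % 2 = 1) (t : Bt w S x y) : Fw w S (ve (x, y)) (he (x, y)) := by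
  have := Fw.opn (c := ve (x, y)) (by rw [lab_ve_E h]; exact t.2) (by rw [lab_ve_E h]; exact t.1)
  rwa [nxO_ve_E h] at this

lemma stWc (h : (x + y) % 2 = 0) (t : Wt w S (x - 1) y) : Fw w S (ve (x, y)) (he (x - 1, y)) := by
  have := Fw.clo (c := ve (x, y)) (by rw [lab_ve_W h]; exact t.2) (by rw [lab_ve_W h]; exact t.1)
  rwa [nxC_ve_W h] at this

lemma stWo (h : (x + y) % 2 = 0) (t : Bt w S (x - 1) y) : Fw w S (ve (x, y)) (he (x - 1, y + 1)) := by
  have := Fw.opn (c := ve (x, y)) (by rw [lab_ve_W h]; exact t.2) (by rw [lab_ve_W h]; exact t.1)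
  rwa [nxO_ve_W h] at this

lemma stSc (h : (x + y) % 2 = 1) (t : Wt w S x (y - 1)) : Fw w S (he (x, y)) (ve (x + 1, y - 1)) := by
  have := Fw.clo (c := he (x, y)) (by rw [lab_he_S h]; exact t.2) (by rw [lab_he_S h]; exact t.1)
  rwa [nxC_he_S h] at this

lemma stSo (h : (x + y) % 2 = 1) (t : Bt w S x (y - 1)) : Fw w S (he (x, y)) (ve (x, y - 1)) := by
  have := Fw.opn (c := he (x, y)) (by rw [lab_he_S h]; exact t.2) (by rw [lab_he_S h]; exact t.1)
  rwa [nxO_he_S h] at this

lemma stNc (h : (x + y) % 2 = 0) (t : Wt w S x y) : Fw w S (he (x, y)) (ve (x, y)) := by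
  have := Fw.clo (c := he (x, y)) (by rw [lab_he_N h]; exact t.2) (by rw [lab_he_N h]; exact t.1)
  rwa [nxC_he_N h] at this

lemma stNo (h : (x + y) % 2 = 0) (t : Bt w S x y) : Fw w S (he (x, y)) (ve (x + 1, y)) := by
  have := Fw.opn (c := he (x, y)) (by rw [lab_he_N h]; exact t.2) (by rw [lab_he_N h]; exact t.1)
  rwa [nxO_he_N h] at this

end steps

section seam

variable {L : Finset (ℤ × ℤ)} {S : Set (ℤ × ℤ)} {m r : ℤ}

/-- two columns, closed below the row, open above -/
theorem seam2_w (h : (m + r) % 2 = 1) (d0 : Wt L S m (r - 1)) (d1 : Wt L S (m + 1) (r - 1))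
    (u0 : Bt L S m (r + 1)) (u1 : Bt L S (m + 1) (r + 1)) (s0 : lt (m, r) ∈ S)
    (s1 : lt (m + 1, r) ∈ S) : Fw L S (ve (m, r)) (ve (m + 2, r)) := by
  have a1 : (m + 1 + r) % 2 = 0 := by omega
  have e2 : m + 1 + 1 = m + 2 := by ring
  -- below: from `he (m, r)` to `he (m + 1, r)`
  have D : Fw L S (he (m, r)) (he (m + 1, r)) := by
    refine (stSc h d0).trans ?_
    have := stEc (w := L) (S := S) (x := m + 1) (y := r - 1) (by omega) d1
    rwa [sub_add_cancel] at this
  -- above: from `he (m, r + 1)` to `he (m + 1, r + 1)`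
  have U : Fw L S (he (m, r + 1)) (he (m + 1, r + 1)) := by
    refine (stNo (by omega) u0).trans ?_
    exact stEo (by omega) u1
  by_cases b0 : lt (m, r) ∈ L
  · have t0 : Bt L S m r := ⟨b0, s0⟩
    refine (stEo h t0).trans (D.trans ?_)
    by_cases b1 : lt (m + 1, r) ∈ L
    · have := stNo (w := L) (S := S) (x := m + 1) (y := r) a1 ⟨b1, s1⟩
      rwa [e2] at this
    · refine (stNc a1 ⟨b1, s1⟩).trans ?_
      have t1 := stWo (w := L) (S := S) (x := m + 1) (y := r) a1 (by rw [add_sub_cancel_right]; exact t0)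
      rw [add_sub_cancel_right] at t1
      refine t1.trans (U.trans ?_)
      have t2 := stSc (w := L) (S := S) (x := m + 1) (y := r + 1) (by omega)
        (by rw [add_sub_cancel_right]; exact ⟨b1, s1⟩)
      rwa [add_sub_cancel_right, e2] at t2
  · have t0 : Wt L S m r := ⟨b0, s0⟩
    refine (stEc h t0).trans (U.trans ?_)
    by_cases b1 : lt (m + 1, r) ∈ L
    · have t1 := stSo (w := L) (S := S) (x := m + 1) (y := r + 1) (by omega)
        (by rw [add_sub_cancel_right]; exact ⟨b1, s1⟩)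
      rw [add_sub_cancel_right] at t1
      refine t1.trans ?_
      have t2 := stWc (w := L) (S := S) (x := m + 1) (y := r) a1 (by rw [add_sub_cancel_right]; exact t0)
      rw [add_sub_cancel_right] at t2
      refine t2.trans (D.trans ?_)
      have := stNo (w := L) (S := S) (x := m + 1) (y := r) a1 ⟨b1, s1⟩
      rwa [e2] at this
    · have t2 := stSc (w := L) (S := S) (x := m + 1) (y := r + 1) (by omega)
        (by rw [add_sub_cancel_right]; exact ⟨b1, s1⟩)
      rwa [add_sub_cancel_right, e2] at t2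

/-- two columns, open below the row, closed above -/
theorem seam2_b (h : (m + r) % 2 = 0) (d0 : Bt L S m (r - 1)) (d1 : Bt L S (m + 1) (r - 1))
    (u0 : Wt L S m (r + 1)) (u1 : Wt L S (m + 1) (r + 1)) (s0 : lt (m, r) ∈ S)
    (s1 : lt (m + 1, r) ∈ S) : Fw L S (ve (m + 2, r)) (ve (m, r)) := by
  have a1 : (m + 1 + r) % 2 = 1 := by omega
  have e2 : m + 2 - 1 = m + 1 := by ring
  -- above: from `he (m + 1, r + 1)` to `he (m, r + 1)`
  have U : Fw L S (he (m + 1, r + 1)) (he (m, r + 1)) := by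
    refine (stNc (by omega) u1).trans ?_
    have := stWc (w := L) (S := S) (x := m + 1) (y := r + 1) (by omega)
      (by rw [add_sub_cancel_right]; exact u0)
    rwa [add_sub_cancel_right] at this
  -- below: from `he (m + 1, r)` to `he (m, r)`
  have D : Fw L S (he (m + 1, r)) (he (m, r)) := by
    refine (stSo (by omega) d1).trans ?_
    have := stWo (w := L) (S := S) (x := m + 1) (y := r - 1) (by omega)
      (by rw [add_sub_cancel_right]; exact d0)
    rwa [add_sub_cancel_right, sub_add_cancel] at this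
  -- into the tile `(m, r)` from above or below
  have cN : Bt L S m r → Fw L S (he (m, r + 1)) (ve (m, r)) := fun t => by
    have := stSo (w := L) (S := S) (x := m) (y := r + 1) (by omega)
      (by rw [add_sub_cancel_right]; exact t)
    rwa [add_sub_cancel_right] at this
  have cN' : Wt L S m r → Fw L S (he (m, r + 1)) (ve (m + 1, r)) := fun t => by
    have := stSc (w := L) (S := S) (x := m) (y := r + 1) (by omega)
      (by rw [add_sub_cancel_right]; exact t)
    rwa [add_sub_cancel_right] at this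
  have cS : Wt L S m r → Fw L S (he (m, r)) (ve (m, r)) := fun t => stNc (by omega) t
  have cS' : Bt L S m r → Fw L S (he (m, r)) (ve (m + 1, r)) := fun t => stNo (by omega) t
  by_cases b1 : lt (m + 1, r) ∈ L
  · have t1 := stWo (w := L) (S := S) (x := m + 2) (y := r) (by omega) (by rw [e2]; exact ⟨b1, s1⟩)
    rw [e2] at t1
    refine t1.trans (U.trans ?_)
    by_cases b0 : lt (m, r) ∈ L
    · exact cN ⟨b0, s0⟩
    · refine (cN' ⟨b0, s0⟩).trans ((stEo a1 ⟨b1, s1⟩).trans (D.trans (cS ⟨b0, s0⟩)))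
  · have t1 := stWc (w := L) (S := S) (x := m + 2) (y := r) (by omega) (by rw [e2]; exact ⟨b1, s1⟩)
    rw [e2] at t1
    refine t1.trans (D.trans ?_)
    by_cases b0 : lt (m, r) ∈ L
    · refine (cS' ⟨b0, s0⟩).trans ((stEc a1 ⟨b1, s1⟩).trans (U.trans (cN ⟨b0, s0⟩)))
    · exact cS ⟨b0, s0⟩

/-- `2 j` columns, closed below, open above -/
theorem seam_w (j : ℕ) (h : (m + r) % 2 = 1) (d : ∀ x, m ≤ x → x < m + 2 * j → Wt L S x (r - 1))
    (u : ∀ x, m ≤ x → x < m + 2 * j → Bt L S x (r + 1)) (s : ∀ x, m ≤ x → x < m + 2 * j → lt (x, r) ∈ S) :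
    Fw L S (ve (m, r)) (ve (m + 2 * j, r)) := by
  induction j with
  | zero => simp only [Nat.cast_zero, mul_zero, add_zero]; exact Fw.refl _ _ _
  | succ j ih =>
    have e : m + 2 * ((j + 1 : ℕ) : ℤ) = m + 2 * (j : ℤ) + 2 := by push_cast; ring
    rw [e] at d u s ⊢
    refine (ih (fun x a b => d x a (by omega)) (fun x a b => u x a (by omega))
      (fun x a b => s x a (by omega))).trans ?_
    exact seam2_w (by omega) (d _ (by omega) (by omega)) (d _ (by omega) (by omega))
      (u _ (by omega) (by omega)) (u _ (by omega) (by omega)) (s _ (by omega) (by omega))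
      (s _ (by omega) (by omega))

/-- `2 j` columns, open below, closed above -/
theorem seam_b (j : ℕ) (h : (m + r) % 2 = 0) (d : ∀ x, m ≤ x → x < m + 2 * j → Bt L S x (r - 1))
    (u : ∀ x, m ≤ x → x < m + 2 * j → Wt L S x (r + 1)) (s : ∀ x, m ≤ x → x < m + 2 * j → lt (x, r) ∈ S) :
    Fw L S (ve (m + 2 * j, r)) (ve (m, r)) := by
  induction j with
  | zero => simp only [Nat.cast_zero, mul_zero, add_zero]; exact Fw.refl _ _ _
  | succ j ih =>
    have e : m + 2 * ((j + 1 : ℕ) : ℤ) = m + 2 * (j : ℤ) + 2 := by push_cast; ring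
    rw [e] at d u s ⊢
    refine Fw.trans ?_ (ih (fun x a b => d x a (by omega)) (fun x a b => u x a (by omega))
      (fun x a b => s x a (by omega)))
    exact seam2_b (by omega) (d _ (by omega) (by omega)) (d _ (by omega) (by omega))
      (u _ (by omega) (by omega)) (u _ (by omega) (by omega)) (s _ (by omega) (by omega))
      (s _ (by omega) (by omega))

end seam

/-! ### The wire -/

/-- labels of the tiles with abscissa `≥ m` -/
def Rt (m : ℤ) : Set (ℤ × ℤ) := {e | m ≤ (tt e).1}

lemma mem_Rt {m x y : ℤ} : lt (x, y) ∈ Rt m ↔ m ≤ x := by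
  unfold Rt
  rw [Set.mem_ofPred_eq, tt_lt]

variable {C : CD} {c0 : Bool} {θ : Th C c0} {B : BP C c0} {L : Finset (ℤ × ℤ)} {m : ℤ}

/-- the colours between the string and the right side of the box, row `r` arbitrary -/
structure Wall (B : BP C c0) (m : ℤ) (L : Finset (ℤ × ℤ)) : Prop where
  le : m ≤ B.X2
  par : (B.X2 - m) % 2 = 0
  dn : ∀ x, m ≤ x → x < B.X2 → (lt (x, B.r - 1) ∈ L ↔ c0 = true)
  up : ∀ x, m ≤ x → x < B.X2 → (lt (x, B.r + 1) ∈ L ↔ c0 = false)

lemma Wall.num (h : Wall B m L) : ∃ j : ℕ, B.X2 = m + 2 * j := by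
  have h1 := h.le; have h2 := h.par
  exact ⟨((B.X2 - m) / 2).toNat, by omega⟩

/-- **the wire of the outer end, closed below** -/
theorem rts_w (h : (ow θ B).Full L) (hw : Wall B m L) (hc : c0 = false) :
    Fw L (Rt m) (ve (m, B.r)) (rtW B) := by
  subst hc
  obtain ⟨j, hj⟩ := hw.num
  have h1 := (x2_par (B := B)).1 rfl
  have s : Fw L (Rt m) (ve (m, B.r)) (ve (m + 2 * j, B.r)) :=
    seam_w j (by omega)
      (fun x a b => ⟨fun hm => absurd ((hw.dn x a (by omega)).1 hm) (by decide), mem_Rt.2 a⟩)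
      (fun x a b => ⟨(hw.up x a (by omega)).2 rfl, mem_Rt.2 a⟩) (fun x a _ => mem_Rt.2 a)
  rw [← hj] at s
  refine s.trans (Fw.one ?_ (root_w h rfl))
  rw [lab_ve_E h1, mem_Rt]
  exact hw.le

/-- **the wire of the outer end, open below** -/
theorem rts_b (h : (ow θ B).Full L) (hw : Wall B m L) (hc : c0 = true) :
    Fw L (Rt m) (rtW B) (ve (m, B.r)) := by
  subst hc
  obtain ⟨j, hj⟩ := hw.num
  have h1 := (x2_par (B := B)).2 rfl
  have s : Fw L (Rt m) (ve (m + 2 * j, B.r)) (ve (m, B.r)) :=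
    seam_b j (by omega)
      (fun x a b => ⟨(hw.dn x a (by omega)).2 rfl, mem_Rt.2 a⟩)
      (fun x a b => ⟨fun hm => absurd ((hw.up x a (by omega)).1 hm) (by decide), mem_Rt.2 a⟩)
      (fun x a _ => mem_Rt.2 a)
  rw [← hj] at s
  refine Fw.trans (Fw.one ?_ (root_b h rfl)) s
  have := hw.le
  unfold rtW
  rcases Int.emod_two_eq_zero_or_one (B.X2 + B.e) with h2 | h2
  · rw [lab_he_N h2, mem_Rt]; exact this
  · rw [lab_he_S h2, mem_Rt]; exact this

/-! ### Windows -/

section win

variable {D : Win} {f : ℤ → ℤ → Bool} {τ : ℤ → ℤ}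

/-- the random labels are to the left of `w` -/
lemma EJ_left (H : Pool.Agent.H54.W.Pos D τ) {e : ℤ × ℤ} (he : e ∈ D.EJ τ) : e ∉ Rt D.w := by
  obtain ⟨x, y, rfl⟩ := exists_lt (Win.odd_EJ he)
  rw [mem_Rt]
  have := ((Win.mem_EJ H).1 he).z H
  omega

/-- the walls of a window -/
lemma wall_WJ (hin : ∀ x y, D.InZ x y → (ow θ B).Box x y) (H : Pool.Agent.H54.W.Pos D τ)
    (hm : D.w ≤ m) (hm2 : m ≤ B.X2) (hp : (B.X2 - m) % 2 = 0) (h0 : 1 ≤ B.r) (h1 : B.r + 1 < D.h)
    (hd : ∀ y, 0 ≤ y → y < B.r → D.cr y = c0) (hu : ∀ y, B.r < y → y < D.h → D.cr y = !c0)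
    (fd : ∀ x, D.w < x → x < B.X2 → f x (B.r - 1) = c0)
    (fu : ∀ x, D.w < x → x < B.X2 → f x (B.r + 1) = !c0) :
    Wall B m (D.WJ τ (Wo θ B D f)) := by
  have key : ∀ x y, m ≤ x → x < B.X2 → 0 ≤ y → y < D.h → (D.w < x → f x y = D.cr y) →
      (lt (x, y) ∈ D.WJ τ (Wo θ B D f) ↔ D.cr y = true) := by
    intro x y a b c d e
    have hlo : D.lo ≤ D.w := by
      have q1 := D.hlo y c d
      have q2 := D.aw y c d
      omega
    have hY : B.Y1 ≤ y ∧ y < B.Y2 ∧ B.X1 ≤ D.w := by
      obtain ⟨k1, k2, k3, k4⟩ : B.X1 ≤ D.w ∧ D.w < B.X2 ∧ B.Y1 ≤ y ∧ y < B.Y2 :=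
        hin D.w y (by unfold Win.InZ; omega)
      exact ⟨k3, k4, k1⟩
    unfold Win.WJ
    rw [mem_union, Win.mem_WR]
    by_cases hx : x = D.w
    · subst hx
      have hz : D.InZ D.w y := by unfold Win.InZ; omega
      have n1 : lt (D.w, y) ∉ Wo θ B D f := fun h => (mem_Wo.1 h).1 hz
      have n2 : ¬ D.InE τ D.w y := fun h => by have := h.z H; omega
      have n3 : ¬ D.TA τ D.w y := fun h => by have := h.z H; omega
      have n4 : ¬ D.TB τ D.w y := fun h => by have := h.z H; omega
      have n5 : D.fill D.w y = D.cr y := by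
        unfold Win.fill
        have q2 := D.aw y c d
        rw [if_neg (by omega), if_neg (by omega), if_neg (by omega)]
      constructor
      · rintro (h | h)
        · obtain ⟨-, -, h | h | h⟩ := h
          · exact absurd h.1 n3
          · exact absurd h.1 n4
          · rw [← n5]; exact h.2.2
        · exact absurd h n1
      · intro h
        exact Or.inl ⟨hz, n2, Or.inr (Or.inr ⟨n3, n4, by rw [n5]; exact h⟩)⟩
    · have hz : ¬ D.InZ x y := by unfold Win.InZ; omega
      have hb : (ow θ B).Box x y := by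
        show B.X1 ≤ x ∧ x < B.X2 ∧ B.Y1 ≤ y ∧ y < B.Y2
        omega
      rw [mem_Wo_in hb hz, e (by omega)]
      constructor
      · rintro (h | h)
        · exact absurd h.1 hz
        · exact h
      · exact fun h => Or.inr h
  refine ⟨hm2, hp, fun x a b => ?_, fun x a b => ?_⟩
  · rw [key x (B.r - 1) a b (by omega) (by omega) (fun h => by
      rw [fd x h b, hd _ (by omega) (by omega)]), hd _ (by omega) (by omega)]
  · rw [key x (B.r + 1) a b (by omega) (by omega) (fun h => by
      rw [fu x h b, hu _ (by omega) (by omega)]), hu _ (by omega) (by omega)]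
    cases c0 <;> simp

end win

end Pool.Agent.H85.W
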